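import Pool.Agent.J4H31.V.V13

/-!
The lattices are balanced; the values of a Hecke character on a class.
-/

set_option autoImplicit false
set_option linter.unusedSectionVars false

open NumberField Matrix
open Pool.Agent.Y767
open Pool.Agent.Y773 (rl th G0 summable_th)

namespace Pool.Agent.J4H31.V

section bal

variable {K : Type} [Field K] [NumberField K] [IsTotallyReal K] [DecidableEq (InfinitePlace K)]

/-- **the lattices are balanced** -/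
theorem bal_bmN {p : ℕ} {𝔭 : InfinitePlace K → Ideal (𝓞 K)} (h : Split p 𝔭) {k : ℕ}
    {e : InfinitePlace K → ℕ} (he : ∀ i, e i ≤ k) {𝔟 : Ideal (𝓞 K)}
    {ω : Module.Basis (InfinitePlace K) ℤ 𝔟}
    (hω : ∀ i j, j ≠ i → (ω j : 𝓞 K) ∈ 𝔟 * 𝔭 i ^ k)
    (h𝔟 : 𝔟 ≠ ⊥) (y : InfinitePlace K → ℝ) :
    Bal (CB K) (bm (fun i => (ω i : 𝓞 K)) y * Dm (ew p e)) := by
  have hp0 : (0 : ℝ) < p := by exact_mod_cast h.hp.pos
  set v : InfinitePlace K → 𝓞 K := fun i => (ω i : 𝓞 K) with hv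
  set B := bm v y with hB
  have hN0 : (0 : ℝ) < Ideal.absNorm 𝔟 := by
    have : Ideal.absNorm 𝔟 ≠ 0 := fun h1 => h𝔟 (Ideal.absNorm_eq_zero_iff.1 h1)
    exact_mod_cast Nat.pos_of_ne_zero this
  have hdK := dK_pos (K := K)
  have hdet : |B.det| = Real.exp ((∑ w, y w) / 2) * dK K * (Ideal.absNorm 𝔟 : ℝ) := abs_det_bm ω y
  have hBd : B.det ≠ 0 := by
    rw [← abs_pos, hdet]; positivity
  unfold CB
  refine bal_of_prod (inv_pos.2 hdK) (det_mul_Dm_ne hBd (ew_ne h.hp.pos e)) fun x hx => ?_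
  set z : 𝓞 K := ∑ i, (cz (pw p e) * x) i • v i with hz
  have e1 : ∀ w, ((B * Dm (ew p e)) *ᵥ rc x) w = Real.exp (y w / 2) * rl w (z : K) := by
    intro w
    rw [← Matrix.mulVec_mulVec]
    have e2 : Dm (ew p e) *ᵥ rc x = rc (cz (pw p e) * x) := by
      rw [lp_dv, rc_cz, cr_pw]
    rw [e2, hB, bm_mulVec]
  have hz0 : z ≠ 0 := by
    refine sum_basis_ne ω (fun h0 => hx ?_)
    exact (dv_eq_zero (cz_ne (pw_pos h.hp.pos e))).1 h0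
  have hzb : z ∈ 𝔟 := sum_mem_ideal ω _
  have hzm : z ∈ 𝔟 * ∏ i, 𝔭 i ^ e i := by
    refine mem_prod h h𝔟 Finset.univ e hzb fun i _ => ?_
    rw [hz]
    refine Ideal.sum_mem _ fun j _ => ?_
    rw [zsmul_eq_mul]
    by_cases hji : j = i
    · subst hji
      have e3 : (((cz (pw p e) * x) j : ℤ) : 𝓞 K) * v j = v j * ((p : 𝓞 K) ^ e j) * (x j : 𝓞 K) := by
        rw [Pi.mul_apply, cz_pw_apply]
        push_cast
        ring
      rw [e3]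
      refine Ideal.mul_mem_right _ _ (Ideal.mul_mem_mul (ω j).2 ?_)
      exact Ideal.pow_mem_pow (h.deg1 j).mem _
    · refine Ideal.mul_mem_left _ _ ?_
      exact Ideal.mul_mono le_rfl (Ideal.pow_le_pow_right (he i)) (hω i j hji)
  have h1 := norm_ge hzm hz0
  have e4 : Ideal.absNorm (∏ i, 𝔭 i ^ e i) = p ^ ∑ i, e i := by
    rw [map_prod, ← Finset.prod_pow_eq_pow_sum]
    exact Finset.prod_congr rfl fun i _ => (h.deg1 i).norm_pow _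
  rw [map_mul, e4] at h1
  push_cast at h1
  rw [det_mul_Dm, prod_ew, abs_mul, abs_of_pos (by positivity : (0 : ℝ) < (p : ℝ) ^ ∑ i, e i), hdet]
  have e3 : ∏ w, |((B * Dm (ew p e)) *ᵥ rc x) w| =
      Real.exp ((∑ w, y w) / 2) * ∏ w : InfinitePlace K, |rl w (z : K)| := by
    rw [Finset.sum_div, Real.exp_sum, ← Finset.prod_mul_distrib]
    refine Finset.prod_congr rfl fun w _ => ?_
    rw [e1, abs_mul, abs_of_pos (Real.exp_pos _)]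
  rw [e3]
  calc (dK K)⁻¹ * (Real.exp ((∑ w, y w) / 2) * dK K * (Ideal.absNorm 𝔟 : ℝ) *
        (p : ℝ) ^ ∑ i, e i) =
        Real.exp ((∑ w, y w) / 2) * ((Ideal.absNorm 𝔟 : ℝ) * (p : ℝ) ^ ∑ i, e i) := by
        field_simp
    _ ≤ _ := mul_le_mul_of_nonneg_left h1 (Real.exp_pos _).le

end bal

section val

variable {K : Type} [Field K] [NumberField K] [IsTotallyReal K]

/-- one coordinate of a class -/
lemma val_one {p k : ℕ} {𝔭 𝔠 : Ideal (𝓞 K)} {κ : K → ℂ} {η : Ideal (𝓞 K) →*₀ ℂ} {u v : 𝓞 K}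
    (hM : IsModK (𝔠 * 𝔭 ^ k) κ η) (hs : Spl p 𝔭 𝔠 k u v) {𝔟 : Ideal (𝓞 K)} (h𝔟 : 𝔟 ≠ ⊥)
    {Y w : 𝓞 K} (hY : Y ∈ 𝔟 * 𝔭 ^ k) (hw : w ∈ 𝔟 * 𝔠) (x : ℤ) :
    Pk η κ 𝔟 (Y + x * w) = Fc η κ u v x * Pk η κ 𝔟 (Y + w) := by
  have huv := hs.huv
  have hY' : Y ∈ 𝔟 := Ideal.mul_le_left hY
  have hw' : w ∈ 𝔟 := Ideal.mul_le_left (I := 𝔟) (J := 𝔠) hw
  unfold Fc
  rw [← Pk_top_mul hM.kap h𝔟 _ (Ideal.add_mem _ hY' hw')]
  refine hM.per h𝔟 ?_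
  have e1 : Y + (x : 𝓞 K) * w - ((x : 𝓞 K) * u + v) * (Y + w) =
      (1 - (x : 𝓞 K)) * (Y * u) + ((x : 𝓞 K) - 1) * (w * v) := by
    have : u = 1 - v := by rw [← huv]; ring
    rw [this]; ring
  rw [e1]
  refine Ideal.add_mem _ (Ideal.mul_mem_left _ _ ?_) (Ideal.mul_mem_left _ _ ?_)
  · have : 𝔟 * (𝔠 * 𝔭 ^ k) = 𝔟 * 𝔭 ^ k * 𝔠 := by ring
    rw [this]
    exact Ideal.mul_mem_mul hY hs.hu
  · have : 𝔟 * (𝔠 * 𝔭 ^ k) = 𝔟 * 𝔠 * 𝔭 ^ k := by ring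
    rw [this]
    exact Ideal.mul_mem_mul hw hs.hv

variable {ι : Type} [Fintype ι] [DecidableEq ι]

/-- the part of the conductor prime to `𝔭 i` -/
def ci (𝔭 : ι → Ideal (𝓞 K)) (𝔠 : Ideal (𝓞 K)) (k : ℕ) (i : ι) : Ideal (𝓞 K) :=
  𝔠 * ∏ j ∈ Finset.univ.erase i, 𝔭 j ^ k

lemma ci_mul (𝔭 : ι → Ideal (𝓞 K)) (𝔠 : Ideal (𝓞 K)) (k : ℕ) (i : ι) :
    ci 𝔭 𝔠 k i * 𝔭 i ^ k = 𝔠 * ∏ j, 𝔭 j ^ k := by
  unfold ci
  rw [← Finset.mul_prod_erase _ _ (Finset.mem_univ i)]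
  ring

lemma ci_cop {p : ℕ} {𝔭 : ι → Ideal (𝓞 K)} (h : Split p 𝔭) {𝔠 : Ideal (𝓞 K)}
    (hc : ∀ i, IsCoprime 𝔠 (𝔭 i)) (k : ℕ) (i : ι) : IsCoprime (ci 𝔭 𝔠 k i) (𝔭 i) := by
  unfold ci
  refine (hc i).mul_left (IsCoprime.prod_left fun j hj => ?_)
  exact (h.coprime (Finset.ne_of_mem_erase hj)).pow_left

/-- the splittings of one at all the primes above `p` -/
structure SplN (p : ℕ) (𝔭 : ι → Ideal (𝓞 K)) (𝔠 : Ideal (𝓞 K)) (k : ℕ) (u v : ι → 𝓞 K) : Prop where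
  spl : ∀ i, Spl p (𝔭 i) (ci 𝔭 𝔠 k i) k (u i) (v i)

lemma exists_splN {p : ℕ} {𝔭 : ι → Ideal (𝓞 K)} (h : Split p 𝔭) {𝔠 : Ideal (𝓞 K)}
    (hc : ∀ i, IsCoprime 𝔠 (𝔭 i)) (k : ℕ) : ∃ u v : ι → 𝓞 K, SplN p 𝔭 𝔠 k u v := by
  have hex := fun i => exists_spl (p := p) (ci_cop h hc k i) k
  choose u v huv using hex
  exact ⟨u, v, ⟨huv⟩⟩

/-- the values on a class -/
lemma val_clsN {p k : ℕ} {𝔭 : ι → Ideal (𝓞 K)} {𝔠 : Ideal (𝓞 K)} {κ : K → ℂ}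
    {η : Ideal (𝓞 K) →*₀ ℂ} {u v : ι → 𝓞 K} (h : Split p 𝔭)
    (hM : IsModK (𝔠 * ∏ j, 𝔭 j ^ k) κ η) (hs : SplN p 𝔭 𝔠 k u v) {𝔟 : Ideal (𝓞 K)}
    (h𝔟 : 𝔟 ≠ ⊥) (h𝔠 : 𝔠 ≠ ⊥) {ρ : 𝓞 K} (hρ : ∀ i, ρ ∈ 𝔟 * 𝔭 i ^ k)
    {ω : Module.Basis ι ℤ (𝔟 * 𝔠 : Ideal (𝓞 K))}
    (hω : ∀ i j, j ≠ i → (ω j : 𝓞 K) ∈ (𝔟 * 𝔠) * 𝔭 i ^ k) (x : ι → ℤ) :
    Pk η κ 𝔟 (ρ + ∑ i, x i • (ω i : 𝓞 K)) =
      (∏ i, Fc η κ (u i) (v i) (x i)) * Pk η κ 𝔟 (ρ + ∑ i, (ω i : 𝓞 K)) := by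
  classical
  have key : ∀ S : Finset ι, Pk η κ 𝔟 (ρ + ∑ i, x i • (ω i : 𝓞 K)) =
      (∏ i ∈ S, Fc η κ (u i) (v i) (x i)) *
        Pk η κ 𝔟 (ρ + ∑ i, (if i ∈ S then 1 else x i) • (ω i : 𝓞 K)) := by
    intro S
    induction S using Finset.induction_on with
    | empty => simp
    | insert i S hi ih =>
      rw [ih, Finset.prod_insert hi, mul_comm (Fc η κ (u i) (v i) (x i)), mul_assoc]
      congr 1
      set Y : 𝓞 K := ρ + ∑ j ∈ Finset.univ.erase i, (if j ∈ S then 1 else x j) • (ω j : 𝓞 K) with hY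
      have e1 : ρ + ∑ j, (if j ∈ S then 1 else x j) • (ω j : 𝓞 K) = Y + x i * (ω i : 𝓞 K) := by
        rw [hY, ← Finset.add_sum_erase _ _ (Finset.mem_univ i), if_neg hi, zsmul_eq_mul]
        ring
      have e2 : ρ + ∑ j, (if j ∈ insert i S then 1 else x j) • (ω j : 𝓞 K) = Y + (ω i : 𝓞 K) := by
        rw [hY, ← Finset.add_sum_erase _ _ (Finset.mem_univ i), if_pos (Finset.mem_insert_self i S),
          one_smul]
        have e3 : ∑ j ∈ Finset.univ.erase i, (if j ∈ insert i S then (1 : ℤ) else x j) •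
            (ω j : 𝓞 K) = ∑ j ∈ Finset.univ.erase i, (if j ∈ S then (1 : ℤ) else x j) • (ω j : 𝓞 K) := by
          refine Finset.sum_congr rfl fun j hj => ?_
          have hji := Finset.ne_of_mem_erase hj
          by_cases hjS : j ∈ S
          · rw [if_pos hjS, if_pos (Finset.mem_insert_of_mem hjS)]
          · rw [if_neg hjS, if_neg]
            rw [Finset.mem_insert]
            push Not
            exact ⟨hji, hjS⟩
        rw [e3]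
        ring
      rw [e1, e2]
      have hM' : IsModK (ci 𝔭 𝔠 k i * 𝔭 i ^ k) κ η := by rw [ci_mul]; exact hM
      refine val_one hM' (hs.spl i) h𝔟 ?_ ?_ (x i)
      · rw [hY]
        refine Ideal.add_mem _ (hρ i) (Ideal.sum_mem _ fun j hj => ?_)
        rw [zsmul_eq_mul]
        refine Ideal.mul_mem_left _ _ ?_
        exact Ideal.mul_mono Ideal.mul_le_left le_rfl (hω i j (Finset.ne_of_mem_erase hj))
      · unfold ci
        rw [← mul_assoc]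
        refine mem_prod h (mul_ne_zero h𝔟 h𝔠) _ (fun _ => k) (ω i).2 fun j hj => ?_
        exact hω j i (Finset.ne_of_mem_erase hj).symm
  have h1 := key Finset.univ
  simp only [Finset.mem_univ, if_true, one_smul] at h1
  exact h1

end val

end Pool.Agent.J4H31.V
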