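import Pool.Agent.J4H31.V.V14

/-!
The bound for the theta series of a Hecke character of conductor `𝔠 p ^ k`.
-/

set_option autoImplicit false
set_option linter.unusedSectionVars false

open NumberField Matrix
open Pool.Agent.Y767
open Pool.Agent.Y773 (rl th G0 summable_th)

namespace Pool.Agent.J4H31.V

variable {K : Type} [Field K] [NumberField K] [IsTotallyReal K] [DecidableEq (InfinitePlace K)]

/-- the theta series in terms of the sums over the lattice -/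
theorem th_leN {p k : ℕ} {𝔭 : InfinitePlace K → Ideal (𝓞 K)} {𝔠 : Ideal (𝓞 K)} {κ : K → ℂ}
    {η : Ideal (𝓞 K) →*₀ ℂ} {u v : InfinitePlace K → 𝓞 K} (h : Split p 𝔭)
    (hcop : ∀ i, IsCoprime 𝔠 (𝔭 i))
    (hM : IsModK (𝔠 * ∏ j, 𝔭 j ^ k) κ η) (hs : SplN p 𝔭 𝔠 k u v)
    {𝔟 : Ideal (𝓞 K)} (h𝔟 : 𝔟 ≠ ⊥) (h𝔠 : 𝔠 ≠ ⊥)
    {ω : Module.Basis (InfinitePlace K) ℤ (𝔟 * 𝔠 : Ideal (𝓞 K))}
    (hω : ∀ i j, j ≠ i → (ω j : 𝓞 K) ∈ (𝔟 * 𝔠) * 𝔭 i ^ k)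
    {χ : InfinitePlace K → DirichletCharacter ℂ (p ^ k)}
    (hχ : ∀ i, ∀ n : ℤ, χ i (n : ZMod (p ^ k)) = Fc η κ (u i) (v i) n) {e : InfinitePlace K → ℕ}
    (he : ∀ w, e w ≤ 1) (y : InfinitePlace K → ℝ) {X : ℝ}
    (hX : ∀ c, ‖ES (bm (fun i => (ω i : 𝓞 K)) y) 2 c
      (fun x => ∏ i, χ i ((x i : ℤ) : ZMod (p ^ k)))‖ ≤ X) :
    ‖th e (Pk η κ 𝔟) y‖ ≤ (Ideal.absNorm 𝔠 : ℝ) * (4 ^ (Fintype.card (InfinitePlace K)) * X) := by
  obtain ⟨u', v', hs'⟩ := exists_spl (p := p) (𝔭 := ∏ j, 𝔭 j)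
    (IsCoprime.prod_right fun j _ => hcop j : IsCoprime 𝔠 (∏ j, 𝔭 j)) k
  obtain ⟨Q, _, ρ, h1, h2, h3, h4⟩ := reps h𝔠 h𝔟 hs'
  have h1' : ∀ q i, ρ q ∈ 𝔟 * 𝔭 i ^ k := by
    intro q i
    have h5 : 𝔭 i ^ k ∣ (∏ j, 𝔭 j) ^ k :=
      pow_dvd_pow_of_dvd (Finset.dvd_prod_of_mem (fun j => 𝔭 j) (Finset.mem_univ i)) k
    have h6 : 𝔟 * (∏ j, 𝔭 j) ^ k ≤ 𝔟 * 𝔭 i ^ k := Ideal.mul_mono le_rfl (Ideal.dvd_iff_le.1 h5)
    exact h6 (h1 q)
  have hPk1 : ∀ x, ‖Pk η κ 𝔟 x‖ ≤ 1 := norm_Pk_le hM.kap hM.norm_le_one 𝔟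
  have hNc0 : (0 : ℝ) < Ideal.absNorm (𝔟 * 𝔠) := by
    have : Ideal.absNorm (𝔟 * 𝔠) ≠ 0 := fun h => mul_ne_zero h𝔟 h𝔠 (Ideal.absNorm_eq_zero_iff.1 h)
    exact_mod_cast Nat.pos_of_ne_zero this
  have hdK := dK_pos (K := K)
  have hBd : (bm (fun i => (ω i : 𝓞 K)) y).det ≠ 0 := by
    rw [← abs_pos, abs_det_bm]; positivity
  set B := bm (fun i => (ω i : 𝓞 K)) y with hB
  set Φ : Q × (InfinitePlace K → ℤ) → 𝓞 K := fun z => ρ z.1 + ∑ i, z.2 i • (ω i : 𝓞 K) with hΦ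
  have hinj : Function.Injective Φ := by
    rintro ⟨q, x⟩ ⟨q', x'⟩ h
    simp only [hΦ] at h
    have hq : q = q' := by
      refine h3 q q' ?_
      have e1 : ρ q - ρ q' = ∑ i, x' i • (ω i : 𝓞 K) - ∑ i, x i • (ω i : 𝓞 K) := by
        linear_combination h
      rw [e1]
      exact Ideal.sub_mem _ (sum_mem_ideal ω x') (sum_mem_ideal ω x)
    subst hq
    have := basis_inj ω (add_left_cancel h)
    rw [this]
  set g : 𝓞 K → ℂ := fun x => Pk η κ 𝔟 x *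
    ((G0 e (fun w => Real.exp (y w / 2) * rl w (x : K)) : ℝ) : ℂ) with hg
  have hsum : Summable g := summable_th he hPk1 (a := fun w => Real.exp (y w / 2))
    fun w => Real.exp_pos _
  have hsupp : Function.support g ⊆ Set.range Φ := by
    intro x hx
    have hx𝔟 : x ∈ 𝔟 := by
      by_contra hc
      apply hx
      simp only [hg]
      rw [Pk_of_notMem hc, zero_mul]
    obtain ⟨q, hq⟩ := h2 x hx𝔟
    obtain ⟨z, hz⟩ := mem_basis ω hq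
    refine ⟨(q, z), ?_⟩
    simp only [hΦ]
    rw [hz]; ring
  have e0 : th e (Pk η κ 𝔟) y = ∑ q : Q, ∑' x : InfinitePlace K → ℤ, g (Φ (q, x)) := by
    have e1 : th e (Pk η κ 𝔟) y = ∑' x, g x := rfl
    have hs2 : Summable fun z => g (Φ z) := hsum.comp_injective hinj
    rw [e1, ← hinj.tsum_eq hsupp, hs2.tsum_prod, tsum_fintype]
  have hval : ∀ q x, g (Φ (q, x)) = Pk η κ 𝔟 (ρ q + ∑ i, (ω i : 𝓞 K)) *
      ((∏ i, χ i ((x i : ℤ) : ZMod (p ^ k))) *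
        ((G0 e ((fun w => Real.exp (y w / 2) * rl w (ρ q : K)) + B *ᵥ rc x) : ℝ) : ℂ)) := by
    intro q x
    simp only [hg, hΦ]
    rw [val_clsN h hM hs h𝔟 h𝔠 (h1' q) hω x, Finset.prod_congr rfl fun i _ => (hχ i (x i)).symm]
    have e2 : (fun w : InfinitePlace K => Real.exp (y w / 2) *
        rl w ((ρ q + ∑ i, x i • (ω i : 𝓞 K) : 𝓞 K) : K)) =
        (fun w => Real.exp (y w / 2) * rl w (ρ q : K)) + B *ᵥ rc x := by
      funext w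
      rw [Pi.add_apply, hB, bm_mulVec]
      have e3 : ((ρ q + ∑ i, x i • (ω i : 𝓞 K) : 𝓞 K) : K) =
          (ρ q : K) + ((∑ i, x i • (ω i : 𝓞 K) : 𝓞 K) : K) := map_add (algebraMap (𝓞 K) K) _ _
      rw [e3, map_add]
      ring
    rw [e2]
    ring
  have hX0 : 0 ≤ X := (norm_nonneg _).trans (hX 0)
  have hc1 : ∀ x : InfinitePlace K → ℤ, ‖∏ i, χ i ((x i : ℤ) : ZMod (p ^ k))‖ ≤ 1 := by
    intro x
    rw [norm_prod]
    exact Finset.prod_le_one (fun _ _ => norm_nonneg _) fun i _ => (χ i).norm_le_one _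
  rw [e0]
  simp_rw [hval, tsum_mul_left]
  refine (norm_sum_le _ _).trans ?_
  calc _ ≤ ∑ q : Q, 4 ^ (Fintype.card (InfinitePlace K)) * X := by
        refine Finset.sum_le_sum fun q _ => ?_
        rw [norm_mul]
        have h5 := G0_sum_le hBd he (c := fun x => ∏ i, χ i ((x i : ℤ) : ZMod (p ^ k)))
          hc1 hX (fun w => Real.exp (y w / 2) * rl w (ρ q : K))
        calc _ ≤ 1 * (4 ^ (Fintype.card (InfinitePlace K)) * X) :=
              mul_le_mul (hPk1 _) h5 (norm_nonneg _) zero_le_one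
          _ = _ := one_mul _
    _ = _ := by
        rw [Finset.sum_const, Finset.card_univ, h4, nsmul_eq_mul]

/-- **the bound for the theta series** -/
theorem th_boundN (K : Type) [Field K] [NumberField K] [IsTotallyReal K] {Δ : ℝ} (hΔ : 1 ≤ Δ) :
    ∃ C : ℝ, 1 ≤ C ∧ ∀ (p : ℕ) (𝔭 : InfinitePlace K → Ideal (𝓞 K)), Split p 𝔭 → 7 ≤ p →
      ∀ (𝔠 : Ideal (𝓞 K)), 𝔠 ≠ ⊥ →
      (∀ i, IsCoprime 𝔠 (𝔭 i)) → ∀ k a : ℕ, 1 ≤ k → 19 * k ≤ 58 * a → 58 * a < 19 * k + 58 →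
      ∀ (κ : K → ℂ) (η : Ideal (𝓞 K) →*₀ ℂ), IsModK (𝔠 * ∏ j, 𝔭 j ^ k) κ η →
      PrimK (𝔠 * ∏ j, 𝔭 j ^ k) κ η →
      ∀ 𝔟 : Ideal (𝓞 K), 𝔟 ≠ ⊥ → ∀ (e : InfinitePlace K → ℕ), (∀ w, e w ≤ 1) →
      ∀ (y : InfinitePlace K → ℝ) (t : ℝ), t = Real.exp ((∑ w, y w) / 2) * Ideal.absNorm 𝔟 →
      1 ≤ Δ * Ideal.absNorm 𝔠 * (p : ℝ) ^ (Fintype.card (InfinitePlace K) * k) * t ^ 2 →
      ‖th e (Pk η κ 𝔟) y‖ ^ 2 ≤ C * (Ideal.absNorm 𝔠 : ℝ) ^ 2 *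
        ((p : ℝ) * k) ^ (75 * Fintype.card (InfinitePlace K)) *
          (p : ℝ) ^ (Fintype.card (InfinitePlace K) * a) / t := by
  classical
  set n := Fintype.card (InfinitePlace K) with hn
  have hn1 : 1 ≤ n := Fintype.card_pos
  have hdK := dK_pos (K := K)
  set C1 : ℝ := CB K + Cdu n (CB K) with hC1
  have hCB := CB_nonneg (K := K)
  have hCdu := Cdu_pos n hCB
  have hC10 : 0 ≤ C1 := by positivity
  set CN : ℝ := Real.sqrt Δ / dK K with hCN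
  have hCN0 : 0 ≤ CN := by positivity
  set C3 : ℝ := 1 + C1 * 2 ^ n + C1 + CN with hC3
  have hC31 : 1 ≤ C3 := by
    have : 0 ≤ C1 * 2 ^ n + C1 + CN := by positivity
    rw [hC3]; linarith
  set c2 : ℝ := Real.exp (n * Real.log 2 / 2) with hc2
  have hc21 : 1 ≤ c2 := Real.one_le_exp (by have := Real.log_pos (one_lt_two); positivity)
  set Ca : ℝ := 16 ^ n * (5 * C3 ^ 5) / dK K with hCa
  set Cb : ℝ := (CB K * 2 ^ n) ^ 2 * c2 / dK K with hCb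
  refine ⟨1 + Ca + Cb, ?_, ?_⟩
  · have h1 : 0 ≤ Ca := by positivity
    have h2 : 0 ≤ Cb := by positivity
    linarith
  intro p 𝔭 hd hp7 𝔠 h𝔠 hcop k a hk ha ha' κ η hM hP 𝔟 h𝔟 e he y t ht hR
  have hp0 : (0 : ℝ) < p := by exact_mod_cast hd.hp.pos
  have hp1 : (1 : ℝ) ≤ p := by exact_mod_cast hd.hp.one_le
  have hk1 : (1 : ℝ) ≤ k := by exact_mod_cast hk
  have hN𝔟 : (0 : ℝ) < Ideal.absNorm 𝔟 := by
    have : Ideal.absNorm 𝔟 ≠ 0 := fun h => h𝔟 (Ideal.absNorm_eq_zero_iff.1 h)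
    exact_mod_cast Nat.pos_of_ne_zero this
  have hN𝔠' : 1 ≤ Ideal.absNorm 𝔠 := Nat.one_le_iff_ne_zero.2
    fun h => h𝔠 (Ideal.absNorm_eq_zero_iff.1 h)
  have hN𝔠 : (1 : ℝ) ≤ Ideal.absNorm 𝔠 := by exact_mod_cast hN𝔠'
  have ht0 : 0 < t := by rw [ht]; positivity
  set Nc : ℝ := (Ideal.absNorm 𝔠 : ℝ) with hNc
  have hNc0 : 0 < Nc := by linarith
  have hpk1 : (1 : ℝ) ≤ (p : ℝ) * k := by nlinarith
  have hppk : (p : ℝ) ≤ (p : ℝ) * k := le_mul_of_one_le_right hp0.le hk1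
  have hpa1 : (1 : ℝ) ≤ (p : ℝ) ^ (n * a) := one_le_pow₀ hp1
  -- the lattice
  have h𝔟𝔠 : 𝔟 * 𝔠 ≠ ⊥ := mul_ne_zero h𝔟 h𝔠
  obtain ⟨ω, hω0⟩ := adaptedN hd hk h𝔟𝔠 (bK K) Finset.univ
  have hω : ∀ i j, j ≠ i → (ω j : 𝓞 K) ∈ (𝔟 * 𝔠) * 𝔭 i ^ k := fun i j hj =>
    (hω0 i (Finset.mem_univ i)).2 j hj
  obtain ⟨u, v, hs⟩ := exists_splN hd hcop k
  have hM' : ∀ i, IsModK (ci 𝔭 𝔠 k i * 𝔭 i ^ k) κ η := fun i => by rw [ci_mul]; exact hM
  have hP' : ∀ i, PrimK (ci 𝔭 𝔠 k i * 𝔭 i ^ k) κ η := fun i => by rw [ci_mul]; exact hP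
  have hex := fun i => exists_char (hd.deg1 i) hk (hM' i) (hs.spl i)
  choose χ hχ using hex
  have hχp : ∀ i, (χ i).IsPrimitive := fun i =>
    char_prim (hd.deg1 i) hk (hM' i) (hP' i) (hs.spl i) (hχ i)
  set y' : InfinitePlace K → ℝ := fun w => y w + Real.log 2 with hy'
  set B := bm (fun i => (ω i : 𝓞 K)) y' with hBdef
  have hdet : |B.det| = t * c2 * dK K * Nc := by
    rw [hBdef, abs_det_bm, map_mul]
    have e1 : (∑ w, y' w) / 2 = (∑ w, y w) / 2 + n * Real.log 2 / 2 := by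
      simp only [hy']
      rw [Finset.sum_add_distrib, Finset.sum_const, Finset.card_univ, nsmul_eq_mul]
      ring
    rw [e1, Real.exp_add, ht]
    push_cast
    ring
  have hdet0 : 0 < |B.det| := by rw [hdet]; positivity
  have hB : B.det ≠ 0 := abs_pos.1 hdet0
  have hC1a : CB K ≤ C1 := by rw [hC1]; linarith
  have hC1b : Cdu n (CB K) ≤ C1 := by rw [hC1]; linarith
  have hbal : ∀ f : InfinitePlace K → ℕ, (∀ i, f i ≤ k) → Bal (CB K) (B * Dm (ew p f)) :=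
    fun f hf => bal_bmN hd hf hω h𝔟𝔠 y'
  have hb : ∀ f : InfinitePlace K → ℕ, (∀ i, f i ≤ k) → Bal C1 (B * Dm (ew p f)) :=
    fun f hf => (hbal f hf).mono hC1a
  have hd' : ∀ f : InfinitePlace K → ℕ, (∀ i, f i ≤ k) → Bal C1 (du B * Dm (ew p f)⁻¹) := by
    intro f hf
    have hne := ew_ne hd.hp.pos f
    rw [← du_mul_Dm B hne]
    exact (bal_du hCB (det_mul_Dm_ne hB hne) (hbal f hf)).mono hC1b
  set L : ℝ := C3 * ((p : ℝ) * k) ^ (15 * n) with hL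
  have hpk15 : (1 : ℝ) ≤ ((p : ℝ) * k) ^ (15 * n) := one_le_pow₀ hpk1
  have hCL : ∀ x : ℝ, x ≤ C3 → x ≤ L := fun x hx =>
    hx.trans (le_mul_of_one_le_right (by linarith) hpk15)
  have hCN2 : CN ^ 2 = Δ / dK K ^ 2 := by
    rw [hCN, div_pow, Real.sq_sqrt (by linarith)]
  have hNsq : |B.det|⁻¹ ^ 2 ≤ CN ^ 2 * (p : ℝ) ^ (n * k) := by
    rw [hdet, hCN2, inv_pow, div_mul_eq_mul_div, le_div_iff₀ (by positivity), inv_mul_eq_div,
      div_le_iff₀ (by positivity)]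
    calc dK K ^ 2 = dK K ^ 2 * 1 := (mul_one _).symm
      _ ≤ dK K ^ 2 * (Δ * Nc * (p : ℝ) ^ (n * k) * t ^ 2) := by gcongr
      _ ≤ dK K ^ 2 * (Δ * (Nc * Nc * (c2 * c2)) * (p : ℝ) ^ (n * k) * t ^ 2) := by
          have h1 : Nc * 1 * (1 * 1) ≤ Nc * Nc * (c2 * c2) := by gcongr
          rw [mul_one, mul_one, mul_one] at h1
          gcongr
      _ = _ := by ring
  rcases le_or_gt 1 |B.det|⁻¹ with hN1 | hN1
  · -- the main case
    have hkey := fun c => keyV hd.hp hp7 ha ha' hχp hB hC10 hb hd'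
      (L := L) (CN := CN) (hCL 1 hC31)
      (hCL _ (by rw [hC3]; linarith)) (by
        rw [hL]
        calc (p : ℝ) ^ (4 * n) ≤ (p : ℝ) ^ (15 * n) := pow_le_pow_right₀ hp1 (by omega)
          _ ≤ ((p : ℝ) * k) ^ (15 * n) := pow_le_pow_left₀ hp0.le hppk _
          _ = 1 * ((p : ℝ) * k) ^ (15 * n) := (one_mul _).symm
          _ ≤ C3 * ((p : ℝ) * k) ^ (15 * n) := by gcongr) (by
        rw [hL]
        calc ((k : ℝ) + 1) ^ (3 * n) ≤ ((p : ℝ) * k) ^ (3 * n) := by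
              refine pow_le_pow_left₀ (by positivity) ?_ _
              have : (2 : ℝ) ≤ p := by exact_mod_cast hd.hp.two_le
              nlinarith
          _ ≤ ((p : ℝ) * k) ^ (15 * n) := pow_le_pow_right₀ hpk1 (by omega)
          _ = 1 * ((p : ℝ) * k) ^ (15 * n) := (one_mul _).symm
          _ ≤ C3 * ((p : ℝ) * k) ^ (15 * n) := by gcongr) (hCL _ (by
            have : 0 ≤ C1 * 2 ^ n := by positivity
            rw [hC3]; linarith)) hCN0 (by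
        rw [hL]
        have h1 : CN ≤ C3 := by
          have : 0 ≤ C1 * 2 ^ n := by positivity
          rw [hC3]; linarith
        gcongr) hNsq hN1 c
    set Y : ℝ := 5 * L ^ 5 * (p : ℝ) ^ (n * a) * |B.det|⁻¹ with hY
    have hL0 : 0 ≤ L := le_trans zero_le_one (hCL 1 hC31)
    have hY0 : 0 ≤ Y := by positivity
    have hX : ∀ c, ‖ES (bm (fun i => (ω i : 𝓞 K)) y) 2 c
        (fun x => ∏ i, χ i ((x i : ℤ) : ZMod (p ^ k)))‖ ≤ Real.sqrt Y := by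
      intro c
      rw [← ES_scale, bm_shift]
      exact Real.le_sqrt_of_sq_le (hkey _)
    have h1 := th_leN hd hcop hM hs h𝔟 h𝔠 hω hχ he y hX
    have h2 : ‖th e (Pk η κ 𝔟) y‖ ^ 2 ≤ (Nc * (4 ^ n * Real.sqrt Y)) ^ 2 :=
      pow_le_pow_left₀ (norm_nonneg _) h1 2
    refine h2.trans ?_
    rw [mul_pow, mul_pow, Real.sq_sqrt hY0]
    have h3 : |B.det|⁻¹ ≤ (t * dK K)⁻¹ := by
      rw [hdet]
      refine inv_anti₀ (by positivity) ?_
      calc t * dK K = t * 1 * dK K * 1 := by ring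
        _ ≤ t * c2 * dK K * Nc := by gcongr
    have e4 : ((4 : ℝ) ^ n) ^ 2 = 16 ^ n := by rw [← pow_mul, mul_comm, pow_mul]; norm_num
    have e5 : L ^ 5 = C3 ^ 5 * ((p : ℝ) * k) ^ (75 * n) := by
      rw [hL, mul_pow, ← pow_mul]
      congr 2
      ring
    calc Nc ^ 2 * ((4 ^ n) ^ 2 * Y) ≤ Nc ^ 2 * ((4 ^ n) ^ 2 *
          (5 * L ^ 5 * (p : ℝ) ^ (n * a) * (t * dK K)⁻¹)) := by
          rw [hY]
          gcongr
      _ = Ca * Nc ^ 2 * ((p : ℝ) * k) ^ (75 * n) * (p : ℝ) ^ (n * a) / t := by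
          rw [e4, hCa, e5]
          field_simp
      _ ≤ _ := by
          have hCb0 : 0 ≤ Cb := by positivity
          have : Ca ≤ 1 + Ca + Cb := by linarith
          gcongr
  · -- the trivial bound
    have h1 := th_triv (hd.deg1 (Classical.arbitrary _)) hM h𝔟 he y
    have e1 : Real.exp ((∑ w, y w) / 2) * dK K * (Ideal.absNorm 𝔟 : ℝ) = t * dK K := by
      rw [ht]; ring
    rw [e1, ← hn] at h1
    have h2 : ‖th e (Pk η κ 𝔟) y‖ ^ 2 ≤ (CB K * 2 ^ n / (t * dK K)) ^ 2 :=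
      pow_le_pow_left₀ (norm_nonneg _) h1 2
    refine h2.trans ?_
    have h3 : 1 ≤ t * c2 * dK K * Nc := by
      rw [← hdet]
      have h4 := inv_lt_one_iff₀.1 hN1
      rcases h4 with h4 | h4
      · linarith
      · exact h4.le
    calc (CB K * 2 ^ n / (t * dK K)) ^ 2 = (CB K * 2 ^ n) ^ 2 / (t * dK K) ^ 2 * 1 := by
          rw [div_pow, mul_one]
      _ ≤ (CB K * 2 ^ n) ^ 2 / (t * dK K) ^ 2 * (t * c2 * dK K * Nc) := by gcongr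
      _ = Cb * Nc * 1 * 1 / t := by
          rw [hCb]
          field_simp
      _ ≤ Cb * Nc ^ 2 * ((p : ℝ) * k) ^ (75 * n) * (p : ℝ) ^ (n * a) / t := by
          have h5 : Nc ≤ Nc ^ 2 := le_self_pow₀ hN𝔠 (by norm_num)
          have h6 : (1 : ℝ) ≤ ((p : ℝ) * k) ^ (75 * n) := one_le_pow₀ hpk1
          have hCb0 : 0 ≤ Cb := by positivity
          gcongr
      _ ≤ _ := by
          have hCa0 : 0 ≤ Ca := by positivity
          have : Cb ≤ 1 + Ca + Cb := by linarith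
          gcongr

end Pool.Agent.J4H31.V
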