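import Pool.Agent.J4H31.V.V16
import Pool.Agent.N786.Pro
import Pool.Agent.Y772.TW.Pos

/-!
Twists by Dirichlet characters of prime power conductor.
-/

set_option autoImplicit false
set_option linter.unusedSectionVars false

open NumberField
open Pool.Agent.Y767
open Pool.Agent.Y773 (TPos)

namespace Pool.Agent.J4H31.V

section norm

variable {K : Type} [Field K] [NumberField K]
variable {ι : Type} [Fintype ι] [DecidableEq ι]

lemma Split.prod_pow {p : ℕ} {𝔭 : ι → Ideal (𝓞 K)} (h : Split p 𝔭) (k : ℕ) :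
    ∏ i, 𝔭 i ^ k = Ideal.span {((p ^ k : ℕ) : 𝓞 K)} := by
  rw [Finset.prod_pow, h.prod_eq, Ideal.span_singleton_pow]
  push_cast
  rfl

/-- the norm modulo `p ^ k` is the product of the residues -/
theorem norm_res {p : ℕ} {𝔭 : ι → Ideal (𝓞 K)} (h : Split p 𝔭) {k : ℕ} (hk : 1 ≤ k)
    {z : 𝓞 K} {x : ι → ℤ} (hx : ∀ i, z - x i ∈ 𝔭 i ^ k) :
    ((Algebra.norm ℤ z : ℤ) : ZMod (p ^ k)) = ∏ i, ((x i : ℤ) : ZMod (p ^ k)) := by
  classical
  have hc : Fintype.card (Module.Free.ChooseBasisIndex ℤ (𝓞 K)) = Fintype.card ι := by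
    rw [← Module.finrank_eq_card_chooseBasisIndex, RingOfIntegers.rank, h.card]
  set b0 : Module.Basis ι ℤ (𝓞 K) :=
    (RingOfIntegers.basis K).reindex (Fintype.equivOfCardEq hc) with hb0
  have htop : (⊤ : Ideal (𝓞 K)) ≠ ⊥ := top_ne_bot
  obtain ⟨ω, hω⟩ := adaptedN h hk htop b0 Finset.univ
  set b : Module.Basis ι ℤ (𝓞 K) :=
    ω.map ((Submodule.topEquiv (R := 𝓞 K) (M := 𝓞 K)).restrictScalars ℤ) with hb
  have hbω : ∀ i, b i = (ω i : 𝓞 K) := fun i => by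
    rw [hb, Module.Basis.map_apply]
    rfl
  have hdiv : ∀ j, ∃ w : 𝓞 K, (z - x j) * b j = ((p ^ k : ℕ) : 𝓞 K) * w := by
    intro j
    have h1 : (z - x j) * b j ∈ (⊤ : Ideal (𝓞 K)) * ∏ i ∈ Finset.univ, 𝔭 i ^ k := by
      refine mem_prod h htop Finset.univ (fun _ => k) Submodule.mem_top fun i hi => ?_
      rw [Ideal.top_mul]
      by_cases hij : j = i
      · subst hij
        exact Ideal.mul_mem_right _ _ (hx j)
      · have h2 := (hω i hi).2 j hij
        rw [Ideal.top_mul] at h2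
        rw [hbω]
        exact Ideal.mul_mem_left _ _ h2
    rw [Ideal.top_mul, h.prod_pow, Ideal.mem_span_singleton'] at h1
    obtain ⟨w, hw⟩ := h1
    exact ⟨w, by rw [← hw, mul_comm]⟩
  choose w hw using hdiv
  rw [Algebra.norm_eq_matrix_det b]
  have e1 : (((Algebra.leftMulMatrix b z).det : ℤ) : ZMod (p ^ k)) =
      ((Algebra.leftMulMatrix b z).map (Int.castRingHom (ZMod (p ^ k)))).det := by
    rw [← RingHom.mapMatrix_apply, ← RingHom.map_det]
    rfl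
  have e2 : (Algebra.leftMulMatrix b z).map (Int.castRingHom (ZMod (p ^ k))) =
      Matrix.diagonal fun i => ((x i : ℤ) : ZMod (p ^ k)) := by
    ext i j
    rw [Matrix.map_apply, Algebra.leftMulMatrix_eq_repr_mul, Matrix.diagonal_apply]
    have e3 : z * b j = (x j) • b j + ((p ^ k : ℕ) : ℤ) • w j := by
      rw [zsmul_eq_mul, zsmul_eq_mul]
      push_cast
      have := hw j
      push_cast at this
      linear_combination this
    rw [e3, map_add, map_smul, map_smul, Module.Basis.repr_self, Finsupp.add_apply,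
      Finsupp.smul_apply, Finsupp.smul_apply, Finsupp.single_apply, map_add, smul_eq_mul, smul_eq_mul,
      map_mul, map_mul]
    have e4 : (Int.castRingHom (ZMod (p ^ k))) ((p ^ k : ℕ) : ℤ) = 0 := by
      rw [eq_intCast, Int.cast_natCast]
      exact ZMod.natCast_self _
    rw [e4, zero_mul, add_zero]
    by_cases hij : i = j
    · subst hij
      simp
    · rw [if_neg hij, if_neg (Ne.symm hij)]
      simp
  rw [e1, e2, Matrix.det_diagonal]

end norm

section nch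

variable {K : Type} [Field K] [NumberField K]

/-- the composition of a Dirichlet character with the norm -/
noncomputable def nch {q : ℕ} (χ : DirichletCharacter ℂ q) : Ideal (𝓞 K) →*₀ ℂ where
  toFun 𝔞 := if 𝔞 = 0 then 0 else χ ((Ideal.absNorm 𝔞 : ℕ) : ZMod q)
  map_zero' := by rw [if_pos rfl]
  map_one' := by
    rw [if_neg one_ne_zero]
    simp
  map_mul' 𝔞 𝔟 := by
    by_cases ha : 𝔞 = 0
    · rw [ha, zero_mul]
      simp
    by_cases hb : 𝔟 = 0
    · rw [hb, mul_zero]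
      simp
    rw [if_neg ha, if_neg hb, if_neg (mul_ne_zero ha hb), map_mul, Nat.cast_mul, map_mul]

lemma nch_apply {q : ℕ} (χ : DirichletCharacter ℂ q) {𝔞 : Ideal (𝓞 K)} (h : 𝔞 ≠ ⊥) :
    nch χ 𝔞 = χ ((Ideal.absNorm 𝔞 : ℕ) : ZMod q) := if_neg h

lemma nch_tpos {q : ℕ} (χ : DirichletCharacter ℂ q) {x : 𝓞 K} (hx0 : x ≠ 0) (hx : TPos K x) :
    nch χ (Ideal.span {x}) = χ ((Algebra.norm ℤ x : ℤ) : ZMod q) := by
  have h0 : Ideal.span {x} ≠ ⊥ := by
    rw [Ne, Ideal.span_singleton_eq_bot]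
    exact hx0
  rw [nch_apply χ h0, ← Pool.Agent.Y772.TW.absNorm_tpos hx0 hx]
  push_cast
  rfl

lemma ax_zero (x : K) : ax (0 : InfinitePlace K → ℝ) x = 1 := by
  unfold ax
  simp

/-- witnesses for the primitivity of a Dirichlet character -/
lemma prim_wit {p k : ℕ} (hp : p.Prime) (hk : 1 ≤ k) {χ : DirichletCharacter ℂ (p ^ k)}
    (hχ : χ.IsPrimitive) : ∃ u : ℤ, (p : ℤ) ^ (k - 1) ∣ u - 1 ∧ ¬ (p : ℤ) ∣ u ∧
      χ ((u : ℤ) : ZMod (p ^ k)) ≠ 1 := by
  have : NeZero (p ^ k) := ⟨pow_ne_zero _ hp.ne_zero⟩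
  have hdvd : p ^ (k - 1) ∣ p ^ k := pow_dvd_pow _ (by omega)
  have hnf : ¬ χ.FactorsThrough (p ^ (k - 1)) := by
    intro hf
    have h1 := DirichletCharacter.conductor_dvd_of_mem_conductorSet χ
      (show p ^ (k - 1) ∈ χ.conductorSet from hf)
    have h2 : χ.conductor = p ^ k := hχ
    rw [h2] at h1
    have h3 := (Nat.pow_dvd_pow_iff_le_right hp.one_lt).1 h1
    omega
  rw [DirichletCharacter.factorsThrough_iff_ker_unitsMap hdvd] at hnf
  obtain ⟨g, hg1, hg2⟩ := SetLike.not_le_iff_exists.1 hnf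
  rw [MonoidHom.mem_ker] at hg1 hg2
  set u : ℤ := ((g : ZMod (p ^ k)).cast : ℤ) with hu
  have hug : ((u : ℤ) : ZMod (p ^ k)) = g := ZMod.intCast_zmod_cast _
  refine ⟨u, ?_, ?_, ?_⟩
  · have h1 := congrArg Units.val hg1
    rw [ZMod.unitsMap_val, Units.val_one, ← hug] at h1
    have h2 : (((u : ZMod (p ^ k)).cast : ZMod (p ^ (k - 1)))) = (u : ZMod (p ^ (k - 1))) := by
      have := ZMod.cast_intCast hdvd u (R := ZMod (p ^ (k - 1)))
      exact this
    rw [h2] at h1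
    have h3 : ((u - 1 : ℤ) : ZMod (p ^ (k - 1))) = 0 := by
      push_cast
      rw [h1, sub_self]
    rw [ZMod.intCast_zmod_eq_zero_iff_dvd] at h3
    exact_mod_cast h3
  · intro hd
    have h1 := Pool.Agent.Y779.R3.not_unit_pi hp (r := k) (by omega) (u / (p : ℤ))
    obtain ⟨m, hm⟩ := hd
    apply h1
    have h2 : (p : ZMod (p ^ k)) * ((u / (p : ℤ) : ℤ) : ZMod (p ^ k)) = g := by
      rw [← hug, hm]
      have hp0 : (p : ℤ) ≠ 0 := by exact_mod_cast hp.ne_zero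
      rw [Int.mul_ediv_cancel_left _ hp0]
      push_cast
      rfl
    rw [h2]
    exact g.isUnit
  · intro h1
    rw [hug] at h1
    apply hg2
    apply Units.ext
    rw [MulChar.coe_toUnitHom, h1, Units.val_one]

end nch

section hecke

variable {K : Type} [Field K] [NumberField K] [IsTotallyReal K]
variable {ι : Type} [Fintype ι] [DecidableEq ι]

/-- **the composition of a primitive Dirichlet character with the norm is primitive** -/
theorem nch_isHecke {p : ℕ} {𝔭 : ι → Ideal (𝓞 K)} (h : Split p 𝔭) {k : ℕ} (hk : 1 ≤ k)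
    {χ : DirichletCharacter ℂ (p ^ k)} (hχ : χ.IsPrimitive) :
    IsHecke K (∏ i, 𝔭 i ^ k) 0 (nch χ) := by
  have : NeZero (p ^ k) := ⟨pow_ne_zero _ h.hp.ne_zero⟩
  have hbot : ∏ i, 𝔭 i ^ k ≠ ⊥ := by
    have h1 : ∏ i, 𝔭 i ^ k ≠ 0 := Finset.prod_ne_zero_iff.2 fun i _ => pow_ne_zero _ (h.ne_bot i)
    exact h1
  have hpos : 0 < p ^ k := pow_pos h.hp.pos k
  refine ⟨⟨hbot, ?_, ?_⟩, ?_⟩
  · intro 𝔞 h𝔞
    rw [nch_apply χ h𝔞, h.prod_pow, Pool.Agent.Y772.TW.coprime_q, ← ZMod.isUnit_iff_coprime]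
    constructor
    · intro h1
      by_contra h2
      exact h1 (χ.map_nonunit h2)
    · intro h1 h2
      have h3 : IsUnit (χ ((Ideal.absNorm 𝔞 : ℕ) : ZMod (p ^ k))) := h1.map χ
      rw [h2] at h3
      exact not_isUnit_zero h3
  · intro x hx hx1
    have hx0 : x ≠ 0 := by
      rintro rfl
      have := hx1
      obtain ⟨w⟩ : Nonempty (InfinitePlace K) := inferInstance
      have h2 := this (Pool.Agent.Y773.rl w)
      simp at h2
    rw [nch_tpos χ hx0 hx1, ax_zero]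
    have h2 : ((Algebra.norm ℤ x : ℤ) : ZMod (p ^ k)) = ((Algebra.norm ℤ (1 : 𝓞 K) : ℤ) : ZMod (p ^ k)) := by
      refine Pool.Agent.Y772.TW.norm_eq_of_sub ?_
      rw [← h.prod_pow]
      exact hx
    rw [h2, map_one, Int.cast_one, map_one]
  · intro 𝔤 hg hne
    obtain ⟨𝔥, hgh⟩ := hg
    have h𝔥 : 𝔥 ≠ ⊤ := by
      rintro rfl
      exact hne (by rw [hgh, ← Ideal.one_eq_top, mul_one])
    obtain ⟨𝔮, hmax, hle⟩ := Ideal.exists_le_maximal 𝔥 h𝔥
    obtain ⟨𝔥', hh'⟩ := Ideal.dvd_iff_le.mpr hle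
    have hg0 : 𝔤 * (𝔮 * 𝔥') = ∏ i, 𝔭 i ^ k := by rw [hgh, hh']
    have hp0 : 𝔮 ≠ ⊥ := by
      rintro h1
      have h0' : (⊥ : Ideal (𝓞 K)) = 0 := rfl
      exact hbot (by rw [← hg0, h1, h0', zero_mul, mul_zero])
    have hprime : Prime 𝔮 := Ideal.prime_of_isPrime hp0 hmax.isPrime
    have hdvd : 𝔮 ∣ ∏ i, 𝔭 i ^ k := by
      rw [← hg0]
      exact Dvd.intro (𝔤 * 𝔥') (by ring)
    obtain ⟨i, -, hi⟩ := (Prime.dvd_finsetProd_iff hprime _).1 hdvd
    have hi' : 𝔮 ∣ 𝔭 i := hprime.dvd_of_dvd_pow hi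
    have hqi : 𝔭 i = 𝔮 := by
      have h1 : 𝔭 i ≤ 𝔮 := Ideal.dvd_iff_le.1 hi'
      exact (h.isMaximal i).eq_of_le hmax.ne_top h1
    -- the witness
    obtain ⟨u, hu1, hu2, hu3⟩ := prim_wit h.hp hk hχ
    have hcop : IsCoprime (𝔭 i ^ k) (∏ j ∈ Finset.univ.erase i, 𝔭 j ^ k) :=
      IsCoprime.prod_right fun j hj => (h.coprime (Finset.ne_of_mem_erase hj).symm).pow
    obtain ⟨f, hf, e, he, hfe⟩ := Ideal.isCoprime_iff_exists.1 hcop
    obtain ⟨l, hl1, hl2⟩ := Pool.Agent.Y772.TW.exists_tpos (1 + (u - 1 : ℤ) * e : 𝓞 K) hpos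
    set x : 𝓞 K := 1 + (u - 1 : ℤ) * e + (l : 𝓞 K) * ((p ^ k : ℕ) : 𝓞 K) with hx
    have hpk : ∀ j, ((p ^ k : ℕ) : 𝓞 K) ∈ 𝔭 j ^ k := fun j => by
      push_cast
      exact Ideal.pow_mem_pow (h.deg1 j).mem k
    have hxj : ∀ j, x - (if j = i then u else 1 : ℤ) ∈ 𝔭 j ^ k := by
      intro j
      by_cases hj : j = i
      · subst hj
        rw [if_pos rfl]
        have e1 : x - (u : 𝓞 K) = (l : 𝓞 K) * ((p ^ k : ℕ) : 𝓞 K) + (1 - (u : 𝓞 K)) * f := by
          rw [hx]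
          push_cast
          linear_combination (1 - (u : 𝓞 K)) * (-hfe)
        rw [e1]
        exact Ideal.add_mem _ (Ideal.mul_mem_left _ _ (hpk _)) (Ideal.mul_mem_left _ _ hf)
      · rw [if_neg hj]
        have e1 : x - ((1 : ℤ) : 𝓞 K) = (l : 𝓞 K) * ((p ^ k : ℕ) : 𝓞 K) + ((u : 𝓞 K) - 1) * e := by
          rw [hx]
          push_cast
          ring
        rw [e1]
        have h1 : e ∈ 𝔭 j ^ k := by
          have h2 : 𝔭 j ^ k ∣ ∏ j ∈ Finset.univ.erase i, 𝔭 j ^ k :=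
            Finset.dvd_prod_of_mem (fun j => 𝔭 j ^ k) (Finset.mem_erase.2 ⟨hj, Finset.mem_univ j⟩)
          exact (Ideal.dvd_iff_le.1 h2) he
        exact Ideal.add_mem _ (Ideal.mul_mem_left _ _ (hpk _)) (Ideal.mul_mem_left _ _ h1)
    have hnorm : ((Algebra.norm ℤ x : ℤ) : ZMod (p ^ k)) = ((u : ℤ) : ZMod (p ^ k)) := by
      rw [norm_res h hk hxj]
      rw [Finset.prod_eq_single i]
      · rw [if_pos rfl]
      · intro j _ hj
        rw [if_neg hj, Int.cast_one]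
      · intro hi
        exact absurd (Finset.mem_univ i) hi
    refine ⟨x, ?_, hl1, ?_, ?_⟩
    · -- membership in 𝔤
      have h1 : x - 1 ∈ (⊤ : Ideal (𝓞 K)) * ∏ j ∈ Finset.univ, 𝔭 j ^ (if j = i then k - 1 else k) := by
        refine mem_prod h top_ne_bot Finset.univ _ Submodule.mem_top fun j _ => ?_
        rw [Ideal.top_mul]
        have h2 := hxj j
        by_cases hj : j = i
        · rw [if_pos hj] at h2 ⊢
          have e1 : x - 1 = (x - (u : 𝓞 K)) + ((u - 1 : ℤ) : 𝓞 K) := by push_cast; ring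
          rw [e1]
          refine Ideal.add_mem _ (Ideal.pow_le_pow_right (by omega) h2) ?_
          rw [(h.deg1 j).int_mem]
          exact hu1
        · rw [if_neg hj] at h2 ⊢
          rw [Int.cast_one] at h2
          exact h2
      rw [Ideal.top_mul] at h1
      have h3 : 𝔤 ∣ ∏ j ∈ Finset.univ, 𝔭 j ^ (if j = i then k - 1 else k) := by
        have e2 : 𝔭 i * ∏ j ∈ Finset.univ, 𝔭 j ^ (if j = i then k - 1 else k) =
            𝔭 i * (𝔤 * 𝔥') := by
          have e3 : 𝔭 i * (𝔤 * 𝔥') = ∏ i, 𝔭 i ^ k := by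
            rw [← hg0, hqi]
            ring
          rw [e3, ← Finset.mul_prod_erase _ _ (Finset.mem_univ i), if_pos rfl, ← mul_assoc,
            ← pow_succ', Nat.sub_add_cancel hk, ← Finset.mul_prod_erase _ _ (Finset.mem_univ i)]
          congr 1
          refine Finset.prod_congr rfl fun j hj => ?_
          rw [if_neg (Finset.ne_of_mem_erase hj)]
        have e4 := mul_left_cancel₀ (h.ne_bot i) e2
        rw [e4]
        exact dvd_mul_right _ _
      exact (Ideal.dvd_iff_le.1 h3) h1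
    · have h1 : Ideal.span {x} ≠ ⊥ := by
        rw [Ne, Ideal.span_singleton_eq_bot]
        exact hl2
      rw [h.prod_pow, Pool.Agent.Y772.TW.coprime_q, ← ZMod.isUnit_iff_coprime]
      have h2 : ((Ideal.absNorm (Ideal.span {x}) : ℕ) : ZMod (p ^ k)) = ((u : ℤ) : ZMod (p ^ k)) := by
        rw [← hnorm, ← Pool.Agent.Y772.TW.absNorm_tpos hl2 hl1]
        push_cast
        rfl
      rw [h2]
      exact Pool.Agent.Y779.R3.unit_int (r := k) h.hp hu2
    · rw [nch_tpos χ hl2 hl1, ax_zero, hnorm]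
      exact hu3

/-- **twists** -/
theorem twist_isHecke {p : ℕ} {𝔭 : ι → Ideal (𝓞 K)} (h : Split p 𝔭) {k : ℕ} (hk : 1 ≤ k)
    {𝔠 : Ideal (𝓞 K)} (hcop : ∀ i, IsCoprime 𝔠 (𝔭 i)) {ν : InfinitePlace K → ℝ}
    {ψ : Ideal (𝓞 K) →*₀ ℂ} (hψ : IsHecke K 𝔠 ν ψ)
    {χ : DirichletCharacter ℂ (p ^ k)} (hχ : χ.IsPrimitive) :
    IsHecke K (𝔠 * ∏ i, 𝔭 i ^ k) ν (Pool.Agent.N786.pr ψ (nch χ)) := by
  have h1 := Pool.Agent.N786.pr_isHecke
    (IsCoprime.prod_right fun i _ => (hcop i).pow_right : IsCoprime 𝔠 (∏ i, 𝔭 i ^ k)) hψ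
    (nch_isHecke h hk hχ)
  rwa [add_zero] at h1

end hecke

end Pool.Agent.J4H31.V
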