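import Pool.Agent.J4H31.A5

/-!
Scaling of all coordinates: matrices, residue classes, the sum over non-trivial frequencies.
-/

set_option autoImplicit false
set_option linter.unusedSectionVars false

open MeasureTheory Matrix Complex
open Pool.Agent.Y766.R3 (eu)
open scoped ENNReal

namespace Pool.Agent.J4H31.V

variable {ι : Type} [Fintype ι] [DecidableEq ι]

/-- the diagonal matrix -/
noncomputable def Dm (a : ι → ℝ) : Matrix ι ι ℝ := Matrix.diagonal a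

/-- natural numbers as integers -/
def cz (D : ι → ℕ) : ι → ℤ := fun i => (D i : ℤ)

/-- natural numbers as real numbers -/
def cr (D : ι → ℕ) : ι → ℝ := fun i => (D i : ℝ)

lemma det_Dm (a : ι → ℝ) : (Dm a).det = ∏ i, a i := Matrix.det_diagonal

lemma Dm_mul (a b : ι → ℝ) : Dm a * Dm b = Dm (a * b) := by
  unfold Dm; rw [Matrix.diagonal_mul_diagonal]; rfl

lemma Dm_one : Dm (1 : ι → ℝ) = 1 := Matrix.diagonal_one

lemma det_mul_Dm (M : Matrix ι ι ℝ) (a : ι → ℝ) : (M * Dm a).det = M.det * ∏ i, a i := by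
  rw [Matrix.det_mul, det_Dm]

lemma det_mul_Dm_ne {M : Matrix ι ι ℝ} (h : M.det ≠ 0) {a : ι → ℝ} (ha : ∀ i, a i ≠ 0) :
    (M * Dm a).det ≠ 0 := by
  rw [det_mul_Dm]; exact mul_ne_zero h (Finset.prod_ne_zero_iff.2 fun i _ => ha i)

lemma mul_Dm_mul (M : Matrix ι ι ℝ) (a b : ι → ℝ) : M * Dm a * Dm b = M * Dm (a * b) := by
  rw [Matrix.mul_assoc, Dm_mul]

lemma du_mul_Dm (M : Matrix ι ι ℝ) {a : ι → ℝ} (ha : ∀ i, a i ≠ 0) :
    du (M * Dm a) = du M * Dm a⁻¹ := by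
  have h1 : (Dm a)⁻¹ = Dm a⁻¹ := by
    apply Matrix.inv_eq_right_inv
    rw [Dm_mul]
    have : a * a⁻¹ = 1 := by
      funext i
      simp [ha i]
    rw [this, Dm_one]
  have h2 : (Dm a⁻¹)ᵀ = Dm a⁻¹ := by
    unfold Dm
    rw [Matrix.diagonal_transpose]
  unfold du
  rw [Matrix.mul_inv_rev, Matrix.transpose_mul, h1, h2]

omit [DecidableEq ι] in
lemma Dm_mulVec [DecidableEq ι] (a : ι → ℝ) (x : ι → ℝ) : Dm a *ᵥ x = a * x := by
  funext i
  unfold Dm
  rw [Matrix.mulVec_diagonal]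
  rfl

lemma lp_dv (D : ι → ℤ) (z : ι → ℤ) : rc (D * z) = Dm (rc D) *ᵥ rc z := by
  rw [Dm_mulVec]
  funext i
  simp [rc]

lemma lp_sv (D u : ι → ℤ) (z : ι → ℤ) : rc (u + D * z) = Dm (rc D) *ᵥ rc z + rc u := by
  rw [Dm_mulVec]
  funext i
  simp [rc]
  ring

lemma gw_dv (M : Matrix ι ι ℝ) (lam : ℝ) (v : ι → ℝ) (D z : ι → ℤ) :
    gw M lam v (D * z) = gw (M * Dm (rc D)) lam v z := by
  unfold gw gz
  rw [lp_dv, Matrix.mulVec_mulVec]

lemma gw_sv (M : Matrix ι ι ℝ) (lam : ℝ) (v : ι → ℝ) (D u z : ι → ℤ) :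
    gw M lam v (u + D * z) = gw (M * Dm (rc D)) lam (v - M *ᵥ rc u) z := by
  unfold gw gz
  rw [lp_sv, Matrix.mulVec_add, Matrix.mulVec_mulVec]
  have e : (M * Dm (rc D)) *ᵥ rc z + M *ᵥ rc u - v =
      (M * Dm (rc D)) *ᵥ rc z - (v - M *ᵥ rc u) := by abel
  rw [e]

omit [Fintype ι] [DecidableEq ι] in
lemma rc_cz (D : ι → ℕ) : rc (cz D) = cr D := by
  funext i
  simp [rc, cz, cr]

omit [Fintype ι] [DecidableEq ι] in
lemma cr_ne {D : ι → ℕ} (hD : ∀ i, 0 < D i) (i : ι) : cr D i ≠ 0 := by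
  unfold cr
  exact_mod_cast (hD i).ne'

omit [Fintype ι] [DecidableEq ι] in
lemma cz_ne {D : ι → ℕ} (hD : ∀ i, 0 < D i) (i : ι) : cz D i ≠ 0 := by
  unfold cz
  exact_mod_cast (hD i).ne'

/-- the box of residues -/
noncomputable def box (D : ι → ℕ) : Finset (ι → ℤ) := Fintype.piFinset fun i => Finset.Ico (0 : ℤ) (D i)

lemma mem_box {D : ι → ℕ} {u : ι → ℤ} : u ∈ box D ↔ ∀ i, 0 ≤ u i ∧ u i < D i := by
  unfold box
  rw [Fintype.mem_piFinset]
  simp only [Finset.mem_Ico]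

lemma card_box (D : ι → ℕ) : (box D).card = ∏ i, D i := by
  unfold box
  rw [Fintype.card_piFinset]
  refine Finset.prod_congr rfl fun i _ => ?_
  simp

/-- the equivalence given by residue classes -/
def svE {D : ι → ℕ} (hD : ∀ i, 0 < D i) : {u // u ∈ box D} × (ι → ℤ) ≃ (ι → ℤ) where
  toFun x := x.1.1 + cz D * x.2
  invFun k := (⟨fun i => k i % (D i : ℤ), mem_box.2 fun i => ⟨Int.emod_nonneg _ (by
      exact_mod_cast (hD i).ne'), Int.emod_lt_of_pos _ (by exact_mod_cast hD i)⟩⟩,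
    fun i => k i / (D i : ℤ))
  left_inv x := by
    obtain ⟨⟨u, hu⟩, z⟩ := x
    have hu' := mem_box.1 hu
    refine Prod.ext (Subtype.ext (funext fun i => ?_)) (funext fun i => ?_)
    · simp only [Pi.add_apply, Pi.mul_apply, cz]
      rw [Int.add_mul_emod_self_left, Int.emod_eq_of_lt (hu' i).1 (hu' i).2]
    · have hDi : (D i : ℤ) ≠ 0 := by exact_mod_cast (hD i).ne'
      simp only [Pi.add_apply, Pi.mul_apply, cz]
      rw [Int.add_mul_ediv_left _ _ hDi, Int.ediv_eq_zero_of_lt (hu' i).1 (hu' i).2, zero_add]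
  right_inv k := by
    funext i
    simp only [Pi.add_apply, Pi.mul_apply, cz]
    exact Int.emod_add_mul_ediv (k i) _

omit [Fintype ι] [DecidableEq ι] in
lemma sv_inj {D : ι → ℤ} (hD : ∀ i, D i ≠ 0) (u : ι → ℤ) :
    Function.Injective fun z : ι → ℤ => u + D * z := by
  intro z z' h
  have h1 := add_left_cancel h
  funext i
  have h2 := congrFun h1 i
  simp only [Pi.mul_apply] at h2
  exact mul_left_cancel₀ (hD i) h2

omit [Fintype ι] [DecidableEq ι] in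
lemma dv_inj {D : ι → ℤ} (hD : ∀ i, D i ≠ 0) : Function.Injective fun z : ι → ℤ => D * z := by
  intro z z' h
  funext i
  have h2 := congrFun h i
  simp only [Pi.mul_apply] at h2
  exact mul_left_cancel₀ (hD i) h2

omit [Fintype ι] [DecidableEq ι] in
lemma dv_eq_zero {D : ι → ℤ} (hD : ∀ i, D i ≠ 0) {z : ι → ℤ} : D * z = 0 ↔ z = 0 := by
  constructor
  · intro h
    exact dv_inj hD (by simpa using h)
  · rintro rfl
    simp

omit [Fintype ι] [DecidableEq ι] in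
lemma summable_sv {E : Type} [NormedAddCommGroup E] [CompleteSpace E] {D : ι → ℕ}
    (hD : ∀ i, 0 < D i) {f : (ι → ℤ) → E} (hf : Summable f) (u : ι → ℤ) :
    Summable fun z => f (u + cz D * z) := hf.comp_injective (sv_inj (cz_ne hD) u)

/-- splitting into residue classes -/
lemma tsum_clsv {E : Type} [NormedAddCommGroup E] [CompleteSpace E] {D : ι → ℕ}
    (hD : ∀ i, 0 < D i) {f : (ι → ℤ) → E} (hf : Summable f) :
    ∑' k, f k = ∑ u ∈ box D, ∑' z, f (u + cz D * z) := by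
  have h1 : Summable (fun x : {u // u ∈ box D} × (ι → ℤ) => f (svE hD x)) :=
    (svE hD).summable_iff.2 hf
  rw [← (svE hD).tsum_eq, h1.tsum_prod, tsum_fintype]
  exact Finset.sum_coe_sort (box D) (fun u => ∑' z, f (u + cz D * z))

lemma sv_ne_zero {D : ι → ℕ} {u : ι → ℤ} (hu : u ∈ box D) (hu0 : u ≠ 0) (z : ι → ℤ) :
    u + cz D * z ≠ 0 := by
  intro h
  apply hu0
  funext i
  have h1 := congrFun h i
  have h2 := mem_box.1 hu i
  simp only [Pi.add_apply, Pi.mul_apply, Pi.zero_apply, cz] at h1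
  have h3 : (D i : ℤ) ∣ u i := ⟨-z i, by linarith⟩
  exact Int.eq_zero_of_dvd_of_nonneg_of_lt h2.1 h2.2 h3

/-- the frequencies -/
noncomputable def fr (q : ι → ℕ) (b : ι → ℤ) : ι → ℝ := fun i => (b i : ℝ) / q i

/-- **the sum over the non-trivial frequencies** -/
lemma sum_TTv {M : Matrix ι ι ℝ} (h : M.det ≠ 0) {lam : ℝ} (hl : 0 < lam) {C : ℝ} {q : ι → ℕ}
    (hq : ∀ i, 0 < q i) (hB : Bal C (du M * Dm (cr q)⁻¹)) :
    ∑ b ∈ (box q).erase 0, TT M lam (fr q b) ≤ C * ∏ i, (q i : ℝ) := by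
  have hq0 : ∀ i, (0 : ℝ) < q i := fun i => by exact_mod_cast hq i
  have hqi : ∀ i, (cr q)⁻¹ i ≠ 0 := fun i => by
    simp only [Pi.inv_apply]; exact inv_ne_zero (cr_ne hq i)
  have hP : 0 < ∏ i, (q i : ℝ) := Finset.prod_pos fun i _ => hq0 i
  have hdet : (du M * Dm (cr q)⁻¹).det ≠ 0 := det_mul_Dm_ne (det_du_ne h) hqi
  have hl' : 0 < lam⁻¹ := inv_pos.2 hl
  have h1 : ∀ b : ι → ℤ, ∑' k : ι → ℤ, gz (du M) lam⁻¹ 0 (fr q b - rc k) =
      ∑' z : ι → ℤ, gw (du M * Dm (cr q)⁻¹) lam⁻¹ 0 (b + cz q * z) := by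
    intro b
    rw [← (Equiv.neg (ι → ℤ)).tsum_eq]
    refine tsum_congr fun z => ?_
    unfold gw gz
    rw [← Matrix.mulVec_mulVec]
    have e1 : fr q b - rc ((Equiv.neg (ι → ℤ)) z) = Dm (cr q)⁻¹ *ᵥ rc (b + cz q * z) := by
      rw [Dm_mulVec]
      funext i
      have := (hq0 i).ne'
      simp only [fr, rc, cr, cz, Pi.sub_apply, Pi.mul_apply, Pi.inv_apply, Pi.add_apply,
        Equiv.neg_apply, Pi.neg_apply]
      push_cast
      field_simp
      ring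
    rw [e1]
  have h2 : ∑ b ∈ (box q).erase 0, ∑' z : ι → ℤ,
      gw (du M * Dm (cr q)⁻¹) lam⁻¹ 0 (b + cz q * z) ≤ th1 (du M * Dm (cr q)⁻¹) lam⁻¹ := by
    unfold th1
    rw [tsum_clsv hq (summable_th1 hdet hl')]
    refine le_trans (le_of_eq ?_) (Finset.sum_le_sum_of_subset_of_nonneg (Finset.erase_subset 0 _)
      fun b _ _ => tsum_nonneg fun x => by
        split_ifs
        · exact le_rfl
        · exact (gw_pos _ _ _ _).le)
    refine Finset.sum_congr rfl fun b hb => ?_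
    rw [Finset.mem_erase] at hb
    refine tsum_congr fun z => ?_
    rw [if_neg (sv_ne_zero hb.2 hb.1 z)]
  unfold TT
  rw [← Finset.mul_sum]
  simp_rw [h1]
  have h3 := hB lam⁻¹ hl'
  have hd0 : 0 < |M.det| := abs_pos.2 h
  have hln : 0 < lam ^ (-(Fintype.card ι : ℝ) / 2) := Real.rpow_pos_of_pos hl _
  have h4 : (lam⁻¹) ^ (-(Fintype.card ι : ℝ) / 2) = (lam ^ (-(Fintype.card ι : ℝ) / 2))⁻¹ :=
    Real.inv_rpow hl.le _
  have h5 : ∏ i, (cr q)⁻¹ i = (∏ i, (q i : ℝ))⁻¹ := by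
    simp only [Pi.inv_apply, cr]
    rw [Finset.prod_inv_distrib]
  rw [det_mul_Dm, det_du, h4, h5, abs_mul, abs_inv, abs_of_pos (inv_pos.2 hP)] at h3
  calc _ ≤ |M.det|⁻¹ * lam ^ (-(Fintype.card ι : ℝ) / 2) *
        (C * (lam ^ (-(Fintype.card ι : ℝ) / 2))⁻¹ / (|M.det|⁻¹ * (∏ i, (q i : ℝ))⁻¹)) :=
        mul_le_mul_of_nonneg_left (h2.trans h3) (by positivity)
    _ = C * ∏ i, (q i : ℝ) := by field_simp

end Pool.Agent.J4H31.V
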