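import Pool.Agent.J4H31.V.V9

/-!
The character sum over the lattice, in several coordinates: reductions and numerology.
-/

set_option autoImplicit false
set_option linter.unusedSectionVars false

open MeasureTheory Matrix Complex
open Pool.Agent.Y766.R3 (eu KL FF FH S_PHI S_KLO)
open Pool.Agent.Y766.R7
open Pool.Agent.H442R2
open scoped ENNReal

namespace Pool.Agent.J4H31.V

variable {ι : Type} [Fintype ι] [DecidableEq ι]

/-- splitting into classes modulo the small periods -/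
lemma redv {D : ι → ℕ} (hD : ∀ i, 0 < D i) {B : Matrix ι ι ℝ} (hB : B.det ≠ 0) {lam : ℝ}
    (hl : 0 < lam) (c : ι → ℝ) {F g : ι → ℤ → ℂ} (hF1 : ∀ i x, ‖F i x‖ ≤ 1)
    (h : ∀ i (x0 : ℤ), 0 ≤ x0 → x0 < D i → ∃ κ : ℂ, ‖κ‖ ≤ 1 ∧
      ∀ y : ℤ, F i (x0 + D i * y) = κ * g i y) :
    ‖ES B lam c (fun x => ∏ i, F i (x i))‖ₑ ≤ ∑ x0 ∈ box D,
      ‖ES (B * Dm (cr D)) lam (c - B *ᵥ rc x0) (fun x => ∏ i, g i (x i))‖ₑ := by
  have hs : Summable fun x : ι → ℤ => (∏ i, F i (x i)) * ((gw B lam c x : ℝ) : ℂ) := by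
    refine Summable.of_norm_bounded (summable_gw hB hl c) fun x => ?_
    rw [norm_mul, Complex.norm_real, Real.norm_of_nonneg (gw_pos _ _ _ _).le, norm_prod]
    exact mul_le_of_le_one_left (gw_pos _ _ _ _).le
      (Finset.prod_le_one (fun _ _ => norm_nonneg _) fun i _ => hF1 i _)
  unfold ES
  rw [tsum_clsv hD hs]
  refine (enorm_sum_le _ _).trans (Finset.sum_le_sum fun x0 hx0 => ?_)
  rw [mem_box] at hx0
  have hex := fun i => h i (x0 i) (hx0 i).1 (hx0 i).2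
  choose κ hκ1 hκ2 using hex
  have e1 : ∀ z : ι → ℤ, (∏ i, F i ((x0 + cz D * z) i)) *
      ((gw B lam c (x0 + cz D * z) : ℝ) : ℂ) = (∏ i, κ i) * ((∏ i, g i (z i)) *
        ((gw (B * Dm (cr D)) lam (c - B *ᵥ rc x0) z : ℝ) : ℂ)) := by
    intro z
    rw [gw_sv, rc_cz, ← mul_assoc, ← Finset.prod_mul_distrib]
    congr 1
    exact Finset.prod_congr rfl fun i _ => hκ2 i (z i)
  simp_rw [e1]
  rw [tsum_mul_left, enorm_mul]
  refine mul_le_of_le_one_left zero_le ?_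
  rw [← ofReal_norm, norm_prod]
  have : ∏ i, ‖κ i‖ ≤ 1 := Finset.prod_le_one (fun _ _ => norm_nonneg _) fun i _ => hκ1 i
  simpa using ENNReal.ofReal_le_ofReal this

/-! ### numerology -/

/-- the exponents of the shifts -/
lemma numD {α ν M s β1 β2 β3 mi : ℕ} (hα : 1 ≤ α) (hs : s + 3 * M = α * ν) (hs1 : 1 ≤ s)
    (h19 : 19 * (α * ν) ≤ 58 * M) (hν : 30 ≤ ν)
    (h1 : M + 8 * s ≤ 3 * (α * β1)) (h1' : 3 * (α * β1) < M + 8 * s + 3 * α)
    (h2 : M + 5 * s ≤ 3 * (α * β2)) (h2' : 3 * (α * β2) < M + 5 * s + 3 * α)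
    (h3 : M ≤ 3 * (α * β3) + s) (h3' : 3 * (α * β3) + s < M + 3 * α)
    (hm : 19 * ν ≤ 58 * mi) (hm2 : 2 * mi < ν) :
    1 ≤ β3 ∧ β3 ≤ β2 ∧ β3 ≤ β1 ∧ ν - mi ≤ 7 * β3 ∧ ν - 3 * mi ≤ β3 ∧
      β1 + β2 + β3 ≤ ν - mi := by
  have hMs : 19 * s ≤ M := by omega
  have c1 : 19 * (α * ν) ≤ 58 * (α * mi) := by nlinarith
  have c2 : 2 * (α * mi) + α ≤ α * ν := by nlinarith
  have key : ∀ {x y : ℕ}, α * x ≤ α * y → x ≤ y := fun h => Nat.le_of_mul_le_mul_left h hα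
  have key' : ∀ {x y : ℕ}, α * x < α * y + α → x ≤ y := by
    intro x y h
    have h1 : α * x < α * (y + 1) := by linarith
    have := Nat.lt_of_mul_lt_mul_left h1
    omega
  have c3 : α * 30 ≤ α * ν := Nat.mul_le_mul_left _ hν
  refine ⟨?_, ?_, ?_, ?_, ?_, ?_⟩
  · rcases Nat.eq_zero_or_pos β3 with h | h
    · subst h; omega
    · exact h
  · apply key'; omega
  · apply key'; omega
  · apply key
    have e1 : α * (7 * β3) = 7 * (α * β3) := by ring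
    have e2 : α * (ν - mi) = α * ν - α * mi := Nat.mul_sub _ _ _
    rw [e1, e2]
    omega
  · apply key
    have e2 : α * (ν - 3 * mi) = α * ν - 3 * (α * mi) := by
      rw [Nat.mul_sub]; congr 1; ring
    rw [e2]
    omega
  · apply key'
    have e1 : α * (β1 + β2 + β3) = α * β1 + α * β2 + α * β3 := by ring
    have e2 : α * (ν - mi) = α * ν - α * mi := Nat.mul_sub _ _ _
    rw [e1, e2]
    have h5 : 3 * (α * β1) + 3 * (α * β2) + 3 * (α * β3) < 3 * M + 12 * s + 9 * α := by omega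
    omega

lemma ceil_ex (x α : ℕ) (hα : 1 ≤ α) : ∃ β, x ≤ 3 * (α * β) ∧ 3 * (α * β) < x + 3 * α := by
  refine ⟨(x + 3 * α - 1) / (3 * α), ?_, ?_⟩
  · have h1 := Nat.lt_div_mul_add (a := x + 3 * α - 1) (b := 3 * α) (by omega)
    have e : 3 * (α * ((x + 3 * α - 1) / (3 * α))) = (x + 3 * α - 1) / (3 * α) * (3 * α) := by ring
    rw [e]
    omega
  · have h1 := Nat.div_mul_le_self (x + 3 * α - 1) (3 * α)
    have e : 3 * (α * ((x + 3 * α - 1) / (3 * α))) = (x + 3 * α - 1) / (3 * α) * (3 * α) := by ring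
    rw [e]
    omega

lemma H_bound {p : ℕ} (hp : 0 < p) {N CN L : ℝ} (hCN : 0 ≤ CN) {E R K t : ℕ}
    (hN : N ^ 2 ≤ CN ^ 2 * (p : ℝ) ^ K) (h : 2 * E + K ≤ 2 * R + 2 * t)
    (hL : CN * (p : ℝ) ^ t ≤ L) : (p : ℝ) ^ E * (N * ((p : ℝ) ^ R)⁻¹) ≤ L := by
  have hp0 : (0 : ℝ) < p := by exact_mod_cast hp
  have hp1 : (1 : ℝ) ≤ p := by exact_mod_cast hp
  refine le_trans ?_ hL
  refine le_of_sq_le_sq ?_ (by positivity)
  calc ((p : ℝ) ^ E * (N * ((p : ℝ) ^ R)⁻¹)) ^ 2 =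
      N ^ 2 * ((p : ℝ) ^ (2 * E) * ((p : ℝ) ^ (2 * R))⁻¹) := by
        rw [mul_comm 2 E, mul_comm 2 R, pow_mul, pow_mul, ← inv_pow]
        ring
    _ ≤ CN ^ 2 * (p : ℝ) ^ K * ((p : ℝ) ^ (2 * E) * ((p : ℝ) ^ (2 * R))⁻¹) := by gcongr
    _ = CN ^ 2 * ((p : ℝ) ^ (2 * E + K) * ((p : ℝ) ^ (2 * R))⁻¹) := by
        rw [pow_add]
        ring
    _ ≤ CN ^ 2 * ((p : ℝ) ^ (2 * R + 2 * t) * ((p : ℝ) ^ (2 * R))⁻¹) := by
        have := pow_le_pow_right₀ hp1 h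
        gcongr
    _ = (CN * (p : ℝ) ^ t) ^ 2 := by
        rw [pow_add, mul_pow, ← pow_mul, mul_comm t 2]
        field_simp

lemma P_bound {p : ℕ} (hp : 0 < p) {N : ℝ} (hN : 0 ≤ N) {E R S s : ℕ}
    (h : 2 * E + 2 * S ≤ 2 * R + s) :
    (p : ℝ) ^ E * ((N * ((p : ℝ) ^ R)⁻¹) * ((p : ℝ) ^ S / Real.sqrt ((p : ℝ) ^ s))) ≤ N := by
  have hp0 : (0 : ℝ) < p := by exact_mod_cast hp
  have hp1 : (1 : ℝ) ≤ p := by exact_mod_cast hp
  have hsp : 0 < Real.sqrt ((p : ℝ) ^ s) := Real.sqrt_pos.2 (by positivity)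
  have h1 : (p : ℝ) ^ E * (p : ℝ) ^ S ≤ (p : ℝ) ^ R * Real.sqrt ((p : ℝ) ^ s) := by
    refine le_of_sq_le_sq ?_ (by positivity)
    rw [mul_pow ((p : ℝ) ^ R), Real.sq_sqrt (by positivity), ← pow_add, ← pow_mul, ← pow_mul,
      ← pow_add]
    exact pow_le_pow_right₀ hp1 (by omega)
  calc _ = N * (((p : ℝ) ^ E * (p : ℝ) ^ S) / ((p : ℝ) ^ R * Real.sqrt ((p : ℝ) ^ s))) := by
        field_simp
    _ ≤ N * 1 := by
        gcongr
        exact (div_le_one (by positivity)).2 h1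
    _ = N := mul_one _

end Pool.Agent.J4H31.V
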