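import Pool.Agent.J4H31.V.V10

/-!
The contribution of one type of shifts.
-/

set_option autoImplicit false
set_option linter.unusedSectionVars false

open MeasureTheory Matrix Complex
open Pool.Agent.Y766.R3 (eu KL FF FH S_PHI S_KLO)
open Pool.Agent.Y766.R7
open Pool.Agent.H442R2
open scoped ENNReal

namespace Pool.Agent.J4H31.V

variable {ι : Type} [Fintype ι] [DecidableEq ι]

/-- extension by zero to the inactive coordinates -/
def ac (S : ι → Prop) [DecidablePred S] (e : ι → ℕ) : ι → ℕ := fun i => if S i then e i else 0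

lemma sum_ac (S : ι → Prop) [DecidablePred S] (e : ι → ℕ) :
    ∑ i, ac S e i = ∑ i ∈ Finset.univ.filter S, e i := by
  unfold ac
  rw [Finset.sum_filter]

lemma inv_mul_ew {p : ℕ} (hp : 0 < p) {e f g h : ι → ℕ} (he : e + f = g + h) :
    (ew p e)⁻¹ * ew p g = (ew p h)⁻¹ * ew p f := by
  funext i
  have h1 : e i + f i = g i + h i := congrFun he i
  have e1 := ew_ne hp e i
  have e2 := ew_ne hp h i
  simp only [Pi.mul_apply, Pi.inv_apply]
  rw [inv_mul_eq_div, inv_mul_eq_div, div_eq_div_iff e1 e2]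
  unfold ew
  rw [← pow_add, ← pow_add, ← h1]
  ring

lemma ew_zero (p : ℕ) : ew p (0 : ι → ℕ) = 1 := by funext i; simp [ew]

open Classical in
/-- **one type** -/
theorem typ_bd (hsq : S_SQ) (htd : S_TD) (hvar : S_VAR) (hinj : S_INJ) (hbr : S_BR)
    (hklo : S_KLO) (hPhi : S_PHI) {p ν a c : ℕ} (hp : p.Prime) (hp7 : 7 ≤ p) (hν : 30 ≤ ν)
    (ha : 19 * ν ≤ 58 * a) (hc : c = (ν + 1) / 2) {χ : ι → DirichletCharacter ℂ (p ^ ν)}
    (hχ : ∀ i, (χ i).IsPrimitive) {B : Matrix ι ι ℝ} (hB : B.det ≠ 0) {C0 L CN : ℝ} (hC0 : 0 ≤ C0)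
    (hb : ∀ e : ι → ℕ, (∀ i, e i ≤ ν) → Bal C0 (B * Dm (ew p e)))
    (hd : ∀ e : ι → ℕ, (∀ i, e i ≤ ν) → Bal C0 (du B * Dm (ew p e)⁻¹))
    (hL1 : 1 ≤ L) (hL2 : C0 * 2 ^ (Fintype.card ι) ≤ L)
    (hL3 : (p : ℝ) ^ (4 * Fintype.card ι) ≤ L) (hL4 : ((ν : ℝ) + 1) ^ (3 * Fintype.card ι) ≤ L)
    (hL5 : C0 ≤ L) (hCN : 0 ≤ CN) (hL6 : CN * (p : ℝ) ^ (15 * Fintype.card ι) ≤ L)
    (hN : |B.det|⁻¹ ^ 2 ≤ CN ^ 2 * (p : ℝ) ^ (Fintype.card ι * ν)) {m : ι → ℕ}
    (hm : ∀ i, a ≤ m i ∧ m i ≤ c) (hA : ∃ i, m i < c) (cc : (ι → ℤ) → ι → ℝ) :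
    ∑' y : ι → ℤ, ENNReal.ofReal (if (∀ i, m i < c → ¬ (p : ℤ) ∣ y i) ∧ y ≠ 0 then
        gw (B * Dm (ew p m)) (1 / 2) 0 y else 0) *
      ‖ES B 2 (cc y) (fun x => ∏ i, FF (χ i) ((p : ℤ) ^ m i * y i) (x i))‖ₑ ≤
      ENNReal.ofReal (3 * L ^ 4 * |B.det|⁻¹) := by
  have hp0 : (0 : ℝ) < p := by exact_mod_cast hp.pos
  have hp1 : (1 : ℝ) ≤ p := by exact_mod_cast hp.one_le
  set n := Fintype.card ι with hn
  obtain ⟨ρ, hρ⟩ : ∃ ρ, ρ = ν - c := ⟨_, rfl⟩
  set S : ι → Prop := fun i => m i < c with hS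
  set r : ι → ℕ := ac S (fun i => ν - m i) with hr
  set ρI : ι → ℕ := fun i => if S i then 0 else ρ with hρI
  set f : ι → ℤ → ℤ → ℂ := fun i l x =>
    if S i then FF (χ i) ((p : ℤ) ^ m i * l) x else 1 with hf
  obtain ⟨P, hP⟩ : ∃ P : ι → ℤ → Prop, P = fun i l => m i < c → ¬ (p : ℤ) ∣ l := ⟨_, rfl⟩
  have hPi : ∀ i l, P i l ↔ (m i < c → ¬ (p : ℤ) ∣ l) := fun i l => by rw [hP]
  set A : Finset ι := Finset.univ.filter S with hAd
  obtain ⟨α, hα⟩ : ∃ α, α = A.card := ⟨_, rfl⟩
  obtain ⟨γ, hγ⟩ : ∃ γ, γ = (Finset.univ.filter fun i => ¬ S i).card := ⟨_, rfl⟩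
  have hαγ : α + γ = n := by
    rw [hα, hγ, hn]
    exact Finset.card_filter_add_card_filter_not (s := Finset.univ) S
  obtain ⟨M, hM⟩ : ∃ M, M = ∑ i ∈ A, m i := ⟨_, rfl⟩
  have hα1 : 1 ≤ α := by
    obtain ⟨i, hi⟩ := hA
    rw [hα]
    exact Finset.card_pos.2 ⟨i, Finset.mem_filter.2 ⟨Finset.mem_univ _, hi⟩⟩
  have hSi : ∀ i, S i → 2 * m i < ν := fun i hi => by
    have h1 : m i < c := hi
    omega
  have hnS : ∀ i, ¬ S i → m i = c := fun i hi => by
    have h1 : ¬ m i < c := hi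
    have := (hm i).2
    omega
  have h19i : ∀ i, 19 * ν ≤ 58 * m i := fun i => by
    have := (hm i).1
    omega
  have hMA : ∀ i ∈ A, S i := fun i hi => (Finset.mem_filter.1 hi).2
  -- sums of exponents
  have hsumr : ∑ i, r i = α * ν - M := by
    rw [hr, sum_ac, hM, hα, Finset.sum_tsub_distrib]
    · rw [Finset.sum_const, smul_eq_mul]
    · intro i hi
      have := hSi i (hMA i hi)
      omega
  have hMle : 2 * M + α ≤ α * ν := by
    have h1 : ∑ i ∈ A, (2 * m i + 1) ≤ ∑ i ∈ A, ν :=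
      Finset.sum_le_sum fun i hi => hSi i (hMA i hi)
    rw [Finset.sum_add_distrib, ← Finset.mul_sum, ← hM, Finset.sum_const, Finset.sum_const,
      smul_eq_mul, smul_eq_mul, ← hα, mul_one] at h1
    exact h1
  have h19 : 19 * (α * ν) ≤ 58 * M := by
    have h1 : ∑ i ∈ A, 19 * ν ≤ ∑ i ∈ A, 58 * m i := Finset.sum_le_sum fun i _ => h19i i
    rw [← Finset.mul_sum, ← Finset.mul_sum, ← hM, Finset.sum_const, smul_eq_mul, ← hα] at h1
    exact h1
  have hsumm : ∑ i, m i = M + γ * c := by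
    rw [← Finset.sum_filter_add_sum_filter_not Finset.univ S, ← hM]
    congr 1
    rw [Finset.sum_congr rfl fun i hi => hnS i (Finset.mem_filter.1 hi).2, Finset.sum_const,
      smul_eq_mul, ← hγ]
  have hsumρ : ∑ i, ρI i = γ * ρ := by
    rw [← Finset.sum_filter_add_sum_filter_not Finset.univ S]
    have e1 : ∑ i ∈ Finset.univ.filter S, ρI i = 0 :=
      Finset.sum_eq_zero fun i hi => by
        have := (Finset.mem_filter.1 hi).2
        simp only [hρI]
        rw [if_pos this]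
    have e2 : ∑ i ∈ Finset.univ.filter (fun i => ¬ S i), ρI i = γ * ρ := by
      rw [Finset.sum_congr rfl fun i hi => (show ρI i = ρ from by
        have := (Finset.mem_filter.1 hi).2
        simp only [hρI]
        rw [if_neg this]), Finset.sum_const, smul_eq_mul, ← hγ]
    rw [e1, e2, zero_add]
  -- matrices
  set M1 := B * Dm (ew p m) with hM1
  set B' := B * Dm (ew p ρI) with hB'
  set M2 := du B' * Dm (ew p r)⁻¹ with hM2
  have hM1d : M1.det ≠ 0 := det_mul_Dm_ne hB (ew_ne hp.pos _)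
  have hB'd : B'.det ≠ 0 := det_mul_Dm_ne hB (ew_ne hp.pos _)
  have hM2d : M2.det ≠ 0 := det_mul_Dm_ne (det_du_ne hB'd) (ew_inv_ne hp.pos _)
  have hduB' : du B' = du B * Dm (ew p ρI)⁻¹ := du_mul_Dm B (ew_ne hp.pos _)
  set δ := |B.det| with hδ
  have hδ0 : 0 < δ := abs_pos.2 hB
  have hM1a : |M1.det| = δ * (p : ℝ) ^ ∑ i, m i := by
    rw [hM1, det_mul_Dm, prod_ew, abs_mul, abs_of_pos (by positivity : (0 : ℝ) < (p : ℝ) ^ ∑ i, m i)]
  have hM2a : |M2.det| = δ⁻¹ * ((p : ℝ) ^ (∑ i, ρI i + ∑ i, r i))⁻¹ := by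
    rw [hM2, hduB', det_mul_Dm, det_mul_Dm, det_du, prod_ew_inv, prod_ew_inv, abs_mul, abs_mul,
      abs_inv, abs_of_pos (inv_pos.2 (by positivity : (0 : ℝ) < (p : ℝ) ^ ∑ i, ρI i)),
      abs_of_pos (inv_pos.2 (by positivity : (0 : ℝ) < (p : ℝ) ^ ∑ i, r i)), pow_add, mul_inv,
      mul_assoc]
  have hM1i : |M1.det|⁻¹ = δ⁻¹ * ((p : ℝ) ^ ∑ i, m i)⁻¹ := by rw [hM1a, _root_.mul_inv]
  -- bounds for exponents
  have hri : ∀ i, r i ≤ ν - m i := fun i => by
    simp only [hr, ac]
    split_ifs <;> omega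
  have hρr : ∀ i, ρI i + r i ≤ ν := fun i => by
    simp only [hρI, hr, ac]
    split_ifs <;> omega
  -- balance
  have bal1 : Bal C0 M1 := hb m fun i => by have := (hm i).2; omega
  have bal2 : ∀ e : ι → ℕ, e ≤ r → Bal C0 (M2 * Dm (ew p e)) := by
    intro e he
    have e1 : M2 * Dm (ew p e) = du B * Dm (ew p (ρI + r - e))⁻¹ := by
      rw [hM2, hduB', mul_Dm_mul, mul_Dm_mul]
      congr 2
      have h1 := inv_mul_ew hp.pos (e := r) (f := 0) (g := e) (h := r - e) (by
        funext i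
        have : e i ≤ r i := he i
        simp only [Pi.add_apply, Pi.zero_apply, Pi.sub_apply]
        omega)
      rw [h1, ew_zero, mul_one]
      have h2 : ρI + r - e = ρI + (r - e) := by
        funext i
        have : e i ≤ r i := he i
        simp only [Pi.add_apply, Pi.sub_apply]
        omega
      rw [h2, ew_add, _root_.mul_inv]
    rw [e1]
    refine hd _ fun i => ?_
    have := hρr i
    simp only [Pi.sub_apply, Pi.add_apply]
    omega
  have bald1 : ∀ e : ι → ℕ, e ≤ r → Bal C0 (du M1 * Dm (ew p e)⁻¹) := by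
    intro e he
    have e1 : du M1 * Dm (ew p e)⁻¹ = du B * Dm (ew p (m + e))⁻¹ := by
      rw [hM1, du_mul_Dm B (ew_ne hp.pos _), mul_Dm_mul, ew_add, _root_.mul_inv]
    rw [e1]
    refine hd _ fun i => ?_
    have h1 := hri i
    have h2 : e i ≤ r i := he i
    have h3 := (hm i).2
    simp only [Pi.add_apply]
    omega
  have bald2 : ∀ e : ι → ℕ, e ≤ r → Bal C0 (du M2 * Dm (ew p e)⁻¹) := by
    intro e he
    have e1 : du M2 * Dm (ew p e)⁻¹ = B * Dm (ew p (ρI + (r - e))) := by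
      rw [hM2, du_mul_Dm _ (ew_inv_ne hp.pos _), du_du hB'd, inv_inv, hB', mul_Dm_mul, mul_Dm_mul]
      congr 2
      have h1 := inv_mul_ew hp.pos (e := e) (f := r - e) (g := r) (h := 0) (by
        funext i
        have : e i ≤ r i := he i
        simp only [Pi.add_apply, Pi.zero_apply, Pi.sub_apply]
        omega)
      rw [mul_comm (ew p r), h1, ew_zero, inv_one, one_mul, ew_add]
    rw [e1]
    refine hb _ fun i => ?_
    have := hρr i
    simp only [Pi.add_apply, Pi.sub_apply]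
    omega
  -- reduction
  have hred : ∀ y : ι → ℤ, (∀ i, P i (y i)) →
      ‖ES B 2 (cc y) (fun x => ∏ i, FF (χ i) ((p : ℤ) ^ m i * y i) (x i))‖ₑ ≤
      ∑ x0 ∈ box (pw p ρI), ‖ES B' 2 (cc y - B *ᵥ rc x0) (fun x => ∏ i, f i (y i) (x i))‖ₑ := by
    intro y hy
    have h1 := redv (D := pw p ρI) (pw_pos hp.pos _) hB (lam := 2) two_pos (cc y)
      (F := fun i x => FF (χ i) ((p : ℤ) ^ m i * y i) x) (g := fun i x => f i (y i) x)
      (fun i x => Pool.Agent.Y766.R3.FF_norm _ _ _) ?_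
    · rw [cr_pw] at h1
      exact h1
    · intro i x0 hx0 hx1
      by_cases hi : S i
      · have e0 : pw p ρI i = 1 := by
          simp only [pw, hρI]
          rw [if_pos hi, pow_zero]
        rw [e0] at hx1 ⊢
        have e1 : x0 = 0 := by
          push_cast at hx1
          omega
        refine ⟨1, by simp, fun y' => ?_⟩
        simp only [hf]
        rw [if_pos hi, e1, one_mul]
        congr 1
        push_cast
        ring
      · have e0 : pw p ρI i = p ^ ρ := by
          simp only [pw, hρI]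
          rw [if_neg hi]
        rw [e0]
        refine ⟨FF (χ i) ((p : ℤ) ^ m i * y i) x0, Pool.Agent.Y766.R3.FF_norm _ _ _, fun y' => ?_⟩
        simp only [hf]
        rw [if_neg hi, mul_one, hnS i hi]
        have h2 := FF_per (c := c) (ρ := ρ) hp (ν := ν) (by omega) (by omega) (χ i) (y i) x0 y'
        push_cast
        exact h2
  -- data
  have hper : ∀ i l, P i l → ∀ x k : ℤ, f i l (x + (p ^ r i : ℕ) * k) = f i l x := by
    intro i l hl x k
    simp only [hf, hr, ac]
    by_cases hi : S i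
    · rw [if_pos hi, if_pos hi, if_pos hi]
      exact (act_data hklo hPhi hp (by omega) (m := m i) (by have := h19i i; omega) (hSi i hi)
        (by have := h19i i; omega) (hχ i) ((hPi i _).1 hl hi)).1 x k
    · rw [if_neg hi, if_neg hi]
  have hf1 : ∀ i l x, ‖f i l x‖ ≤ 1 := by
    intro i l x
    simp only [hf]
    split_ifs
    · exact Pool.Agent.Y766.R3.FF_norm _ _ _
    · simp
  have hrex : ∃ i, 0 < r i := by
    obtain ⟨i, hi⟩ := hA
    refine ⟨i, ?_⟩
    simp only [hr, ac]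
    rw [if_pos (show S i from hi)]
    have := hSi i hi
    omega
  have hP0 : ∃ i, ¬ P i 0 := by
    obtain ⟨i, hi⟩ := hA
    exact ⟨i, fun h => (hPi i _).1 h hi (dvd_zero _)⟩
  -- the bound for one class
  have hL2n : (p : ℝ) ^ (2 * n) ≤ L := (pow_le_pow_right₀ hp1 (by omega)).trans hL3
  have hrp : ((∏ i, (r i + 1) : ℕ) : ℝ) ^ 3 ≤ L := by
    refine le_trans ?_ hL4
    rw [mul_comm 3 n, pow_mul]
    refine pow_le_pow_left₀ (Nat.cast_nonneg _) ?_ 3
    have h1 : ∏ i, (r i + 1) ≤ ∏ _i : ι, (ν + 1) :=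
      Finset.prod_le_prod (fun _ _ => Nat.zero_le _) fun i _ => by have := hri i; omega
    rw [Finset.prod_const, Finset.card_univ] at h1
    exact_mod_cast h1
  have h2p : (2 * (p : ℝ) ^ 3) ^ n ≤ L := by
    refine le_trans ?_ hL3
    rw [pow_mul]
    refine pow_le_pow_left₀ (by positivity) ?_ n
    have : (2 : ℝ) ≤ p := by exact_mod_cast hp.two_le
    nlinarith [pow_pos hp0 3]
  have hcls : ∀ dd : (ι → ℤ) → ι → ℝ, ((box (pw p ρI)).card : ℝ≥0∞) * ∑' z : ι → ℤ,
      ENNReal.ofReal (if ∀ i, P i (z i) then gw M1 (1 / 2) 0 z else 0) *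
        ‖ES B' 2 (dd z) (fun x => ∏ i, f i (z i) (x i))‖ₑ ≤
      ENNReal.ofReal (3 * L ^ 4 * δ⁻¹) := by
    intro dd
    have hcard : ((box (pw p ρI)).card : ℝ≥0∞) = ENNReal.ofReal ((p : ℝ) ^ (γ * ρ)) := by
      rw [card_box, prod_pw, hsumρ, ← ENNReal.ofReal_natCast]
      push_cast
      rfl
    rw [hcard]
    rcases Nat.lt_or_ge (3 * M) (α * ν) with hcase | hcase
    · -- small shifts
      obtain ⟨s, hs⟩ : ∃ s, s = α * ν - 3 * M := ⟨_, rfl⟩
      have hs1 : s + 3 * M = α * ν := by omega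
      have hs19 : 19 * s ≤ M := by omega
      obtain ⟨β1, g1, g1'⟩ := ceil_ex (M + 8 * s) α hα1
      obtain ⟨β2, g2, g2'⟩ := ceil_ex (M + 5 * s) α hα1
      obtain ⟨β3, g3, g3'⟩ := ceil_ex (M - s) α hα1
      have hnum : ∀ i, S i → 1 ≤ β3 ∧ β3 ≤ β2 ∧ β3 ≤ β1 ∧ ν - m i ≤ 7 * β3 ∧
          ν - 3 * m i ≤ β3 ∧ β1 + β2 + β3 ≤ ν - m i := fun i hi =>
        numD hα1 hs1 (by omega) h19 hν g1 g1' g2 g2' (by omega) (by omega) (h19i i) (hSi i hi)
      have hsum : ∀ β : ℕ, ∑ i, ac S (fun _ => β) i = α * β := fun β => by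
        rw [sum_ac, Finset.sum_const, smul_eq_mul, ← hAd, ← hα]
      have hsb : ∀ i, ac S (fun _ => β1) i + ac S (fun _ => β2) i + ac S (fun _ => β3) i ≤ r i := by
        intro i
        simp only [hr, ac]
        by_cases hi : S i
        · simp only [if_pos hi]
          exact (hnum i hi).2.2.2.2.2
        · simp only [if_neg hi]
          omega
      have hCD : ∀ i, CD p (r i) (ac S (fun _ => β1) i) (ac S (fun _ => β2) i)
          (ac S (fun _ => β3) i) (fun l x => FH (p ^ r i) (f i l) x) (P i) := by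
        intro i
        by_cases hi : S i
        · obtain ⟨q1, q2, q3, q4, q5, q6⟩ := hnum i hi
          have h1 := cd_act hsq htd hvar hinj hbr hklo hPhi hp hp7 (m := m i) (b1 := β1) (b2 := β2)
            (b3 := β3) (by have := h19i i; omega) (hSi i hi) (by have := h19i i; omega) q1 q2 q3
            q4 q5 q6 (hχ i)
          have e1 : r i = ν - m i := by simp only [hr, ac]; rw [if_pos hi]
          have e2 : ∀ β : ℕ, ac S (fun _ => β) i = β := fun β => by simp only [ac]; rw [if_pos hi]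
          have e3 : P i = fun l => ¬ (p : ℤ) ∣ l := by
            funext l
            rw [eq_iff_iff, hPi]
            exact ⟨fun h => h hi, fun h _ => h⟩
          have e4 : f i = fun l x => FF (χ i) ((p : ℤ) ^ m i * l) x := by
            funext l x
            simp only [hf]
            rw [if_pos hi]
          rw [e1, e2, e2, e2, e3, e4]
          exact h1
        · have h1 := cd_one hp.pos
          have e1 : r i = 0 := by simp only [hr, ac]; rw [if_neg hi]
          have e2 : ∀ β : ℕ, ac S (fun _ => β) i = 0 := fun β => by simp only [ac]; rw [if_neg hi]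
          have e3 : P i = fun _ => True := by
            funext l
            rw [eq_iff_iff, hPi, iff_true]
            exact fun h => absurd h hi
          have e4 : f i = fun l x => 1 := by
            funext l x
            simp only [hf]
            rw [if_neg hi]
          rw [e1, e2, e2, e2, e3, e4]
          have e5 : (fun (l x : ℤ) => FH (p ^ 0) (fun _ => 1) x) = fun _ _ => 1 := by
            funext l x
            rw [pow_zero]
            exact FH_one x
          rw [e5]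
          exact h1
      have hγc : γ * c = γ * (ν - ρ) := by rw [hρ]; congr 1; omega
      have f1 : 2 * (γ * ρ) + γ ≥ γ * ν := by
        have : ν ≤ 2 * ρ + 1 := by omega
        nlinarith
      have f2 : γ * c ≤ γ * ρ + γ := by
        have : c ≤ ρ + 1 := by omega
        nlinarith
      have f3 : γ * ρ ≤ γ * c := Nat.mul_le_mul_left _ (by omega)
      have f4 : n * ν = α * ν + γ * ν := by rw [← hαγ]; ring
      have h1 := caseDv hp hsb hper hf1 hCD hrex hM1d hB'd hM2 hC0 bal1 bal2 bald1 bald2 hL1 hL2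
        hL2n hrp hL5 (s := s) ?_ ?_ ?_ ?_ ?_ dd
      · refine (mul_le_mul_right h1 _).trans ?_
        rw [← ENNReal.ofReal_mul (by positivity)]
        refine ENNReal.ofReal_le_ofReal ?_
        rw [hM1i]
        have hP' := P_bound hp.pos (N := δ⁻¹) (by positivity) (E := γ * ρ) (R := ∑ i, m i)
          (S := ∑ i, r i / 2) (s := s) (by
            have h2 : 2 * ∑ i, r i / 2 ≤ ∑ i, r i := by
              rw [Finset.mul_sum]
              exact Finset.sum_le_sum fun i _ => by omega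
            rw [hsumr] at h2
            rw [hsumm]
            omega)
        calc (p : ℝ) ^ (γ * ρ) * ((2 * (p : ℝ) ^ 3) ^ n * (3 * L ^ 3 * (δ⁻¹ * ((p : ℝ) ^ ∑ i, m i)⁻¹) *
              ((p : ℝ) ^ (∑ i, r i / 2) / Real.sqrt ((p : ℝ) ^ s)))) =
            (2 * (p : ℝ) ^ 3) ^ n * (3 * L ^ 3) * ((p : ℝ) ^ (γ * ρ) *
              (δ⁻¹ * ((p : ℝ) ^ ∑ i, m i)⁻¹ *
                ((p : ℝ) ^ (∑ i, r i / 2) / Real.sqrt ((p : ℝ) ^ s)))) := by ring
          _ ≤ L * (3 * L ^ 3) * δ⁻¹ := by gcongr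
          _ = _ := by ring
      · rw [hM2a, hsum]
        refine H_bound hp.pos hCN (K := n * ν) (t := 15 * n) hN ?_ hL6
        rw [hsumρ, hsumr]
        omega
      · rw [hM2a, hsum]
        refine H_bound hp.pos hCN (K := n * ν) (t := 15 * n) hN ?_ hL6
        rw [hsumρ, hsumr]
        omega
      · rw [hM2a, hsum]
        refine H_bound hp.pos hCN (K := n * ν) (t := 15 * n) hN ?_ hL6
        rw [hsumρ, hsumr]
        omega
      · have e1 : ∑ i, (r i - (ac S (fun _ => β1) i + ac S (fun _ => β2) i + ac S (fun _ => β3) i)) =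
            (α * ν - M) - (α * β1 + α * β2 + α * β3) := by
          rw [Finset.sum_tsub_distrib _ fun i _ => hsb i, Finset.sum_add_distrib,
            Finset.sum_add_distrib, hsum, hsum, hsum, hsumr]
        rw [e1, hM1a, hM2a]
        have e2 : δ * (p : ℝ) ^ (∑ i, m i) * (δ⁻¹ * ((p : ℝ) ^ (∑ i, ρI i + ∑ i, r i))⁻¹) =
            (p : ℝ) ^ (∑ i, m i) * ((p : ℝ) ^ (∑ i, ρI i + ∑ i, r i))⁻¹ := by
          field_simp
        rw [e2, ← mul_assoc, ← pow_add, ← div_eq_mul_inv, div_le_iff₀ (by positivity)]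
        calc _ ≤ (p : ℝ) ^ (4 * n + (∑ i, ρI i + ∑ i, r i)) := by
              refine pow_le_pow_right₀ hp1 ?_
              rw [hsumm, hsumρ, hsumr]
              omega
          _ = (p : ℝ) ^ (4 * n) * (p : ℝ) ^ (∑ i, ρI i + ∑ i, r i) := pow_add _ _ _
          _ ≤ _ := by gcongr
      · rw [Finset.sum_add_distrib, Finset.sum_add_distrib, hsum, hsum, hsum]
        calc _ ≤ (p : ℝ) ^ (4 * n + ∑ i, r i) := by
              refine pow_le_pow_right₀ hp1 ?_
              rw [hsumr]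
              omega
          _ = (p : ℝ) ^ (4 * n) * (p : ℝ) ^ (∑ i, r i) := pow_add _ _ _
          _ ≤ _ := by gcongr
    · -- middle shifts
      have h1 := caseCv hp hper hf1 (fun i l hl x => ?_) (fun i l hl hri0 => ?_) hrex hP0 hM1d hB'd
        hM2 hC0 bal1 (by
          have := bal2 0 (fun i => Nat.zero_le _)
          rwa [ew_zero, Dm_one, Matrix.mul_one] at this) hL1 hL2 dd
      · refine (mul_le_mul_right h1 _).trans ?_
        rw [← ENNReal.ofReal_mul (by positivity)]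
        refine ENNReal.ofReal_le_ofReal ?_
        rw [hM1i]
        have h3 : (p : ℝ) ^ (γ * ρ) * ((δ⁻¹ * ((p : ℝ) ^ ∑ i, m i)⁻¹) *
            (p : ℝ) ^ (∑ i, (r i + 1) / 2)) ≤ δ⁻¹ * (p : ℝ) ^ n := by
          have h4 : (p : ℝ) ^ (γ * ρ) * (p : ℝ) ^ (∑ i, (r i + 1) / 2) ≤
              (p : ℝ) ^ n * (p : ℝ) ^ ∑ i, m i := by
            rw [← pow_add, ← pow_add]
            refine pow_le_pow_right₀ hp1 ?_
            have h5 : 2 * ∑ i, (r i + 1) / 2 ≤ (α * ν - M) + α := by
              have e5 : ∀ i, (r i + 1) / 2 = ac S (fun i => (ν - m i + 1) / 2) i := by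
                intro i
                simp only [hr, ac]
                split_ifs <;> rfl
              simp_rw [e5]
              rw [sum_ac, Finset.mul_sum, ← hsumr, hr, sum_ac, ← hAd]
              have e6 : α = ∑ i ∈ A, 1 := by rw [hα, Finset.card_eq_sum_ones]
              rw [e6, ← Finset.sum_add_distrib]
              exact Finset.sum_le_sum fun i _ => by omega
            have f3 : γ * ρ ≤ γ * c := Nat.mul_le_mul_left _ (by omega)
            rw [hsumm]
            omega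
          calc _ = δ⁻¹ * ((p : ℝ) ^ (γ * ρ) * (p : ℝ) ^ (∑ i, (r i + 1) / 2)) *
                ((p : ℝ) ^ ∑ i, m i)⁻¹ := by ring
            _ ≤ δ⁻¹ * ((p : ℝ) ^ n * (p : ℝ) ^ ∑ i, m i) * ((p : ℝ) ^ ∑ i, m i)⁻¹ := by gcongr
            _ = _ := by
                have : (0 : ℝ) < (p : ℝ) ^ ∑ i, m i := by positivity
                field_simp
        have h2n : (2 : ℝ) ^ n * (p : ℝ) ^ n ≤ L := by
          refine le_trans ?_ hL2n
          rw [← mul_pow, pow_mul]
          refine pow_le_pow_left₀ (by positivity) ?_ n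
          have : (2 : ℝ) ≤ p := by exact_mod_cast hp.two_le
          nlinarith
        calc (p : ℝ) ^ (γ * ρ) * (2 ^ n * L ^ 2 * (δ⁻¹ * ((p : ℝ) ^ ∑ i, m i)⁻¹) *
              (p : ℝ) ^ (∑ i, (r i + 1) / 2)) =
            2 ^ n * L ^ 2 * ((p : ℝ) ^ (γ * ρ) * ((δ⁻¹ * ((p : ℝ) ^ ∑ i, m i)⁻¹) *
            (p : ℝ) ^ (∑ i, (r i + 1) / 2))) := by ring
          _ ≤ 2 ^ n * L ^ 2 * (δ⁻¹ * (p : ℝ) ^ n) := by gcongr
          _ = (2 ^ n * (p : ℝ) ^ n) * L ^ 2 * δ⁻¹ := by ring
          _ ≤ L * L ^ 2 * δ⁻¹ := by gcongr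
          _ ≤ 3 * L ^ 4 * δ⁻¹ := by
              have h6 : L * L ^ 2 ≤ 3 * L ^ 4 := by
                have : L ^ 3 ≤ L ^ 4 := pow_le_pow_right₀ hL1 (by norm_num)
                have h7 : 0 < L ^ 4 := by positivity
                nlinarith
              gcongr
      · simp only [hf, hr, ac]
        by_cases hi : S i
        · simp only [if_pos hi]
          exact (act_data hklo hPhi hp (by omega) (m := m i) (by have := h19i i; omega) (hSi i hi)
            (by have := h19i i; omega) (hχ i) ((hPi i _).1 hl hi)).2.1 x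
        · simp only [if_neg hi]
          rw [pow_zero, FH_one]
          simp
      · simp only [hf, hr, ac] at hri0 ⊢
        by_cases hi : S i
        · simp only [if_pos hi]
          exact (act_data hklo hPhi hp (by omega) (m := m i) (by have := h19i i; omega) (hSi i hi)
            (by have := h19i i; omega) (hχ i) ((hPi i _).1 hl hi)).2.2
        · rw [if_neg hi] at hri0
          exact absurd hri0 (lt_irrefl _)
  -- conclusion
  set G : (ι → ℤ) → ℝ≥0∞ := fun x0 => ∑' z : ι → ℤ,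
      ENNReal.ofReal (if ∀ i, P i (z i) then gw M1 (1 / 2) 0 z else 0) *
        ‖ES B' 2 (cc z - B *ᵥ rc x0) (fun x => ∏ i, f i (z i) (x i))‖ₑ with hG
  calc _ ≤ ∑' y : ι → ℤ, ∑ x0 ∈ box (pw p ρI),
        ENNReal.ofReal (if ∀ i, P i (y i) then gw M1 (1 / 2) 0 y else 0) *
        ‖ES B' 2 (cc y - B *ᵥ rc x0) (fun x => ∏ i, f i (y i) (x i))‖ₑ := by
        refine ENNReal.tsum_le_tsum fun y => ?_
        rw [← Finset.mul_sum]
        by_cases hy : ∀ i, P i (y i)
        · rw [if_pos hy]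
          refine mul_le_mul' (ENNReal.ofReal_le_ofReal ?_) (hred y hy)
          split_ifs
          · exact le_rfl
          · exact (gw_pos _ _ _ _).le
        · rw [if_neg hy, if_neg (fun h => hy fun i => (hPi i _).2 (h.1 i)), ENNReal.ofReal_zero,
            zero_mul, zero_mul]
    _ = ∑ x0 ∈ box (pw p ρI), G x0 := Summable.tsum_finsetSum fun _ _ => ENNReal.summable
    _ ≤ ENNReal.ofReal (3 * L ^ 4 * δ⁻¹) := by
        have hne : (box (pw p ρI)).Nonempty := by
          refine ⟨0, mem_box.2 fun i => ⟨le_rfl, ?_⟩⟩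
          have := pw_pos hp.pos ρI i
          simpa using this
        obtain ⟨x1, hx1, hmax⟩ := Finset.exists_max_image (box (pw p ρI)) G hne
        calc _ ≤ ∑ x0 ∈ box (pw p ρI), G x1 := Finset.sum_le_sum hmax
          _ = ((box (pw p ρI)).card : ℝ≥0∞) * G x1 := by rw [Finset.sum_const, nsmul_eq_mul]
          _ ≤ _ := hcls fun z => cc z - B *ᵥ rc x1

end Pool.Agent.J4H31.V
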