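import Pool.Agent.J4H31.V.V11
import Pool.Agent.Y870.R3.Phi
import Pool.Agent.Y155.R7.Sq
import Pool.Agent.Y924.R7.Br
import Pool.Agent.Y924.R7.Inj
import Pool.Agent.Y948.R7.Td
import Pool.Agent.Y948.R7.Var

/-!
The product of characters summed over the lattice with gaussian weight.
-/

set_option autoImplicit false
set_option linter.unusedSectionVars false

open MeasureTheory Matrix Complex
open Pool.Agent.Y766.R3 (eu KL FF FH S_PHI S_KLO)
open Pool.Agent.Y766.R7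
open Pool.Agent.H442R2
open scoped ENNReal

namespace Pool.Agent.J4H31.V

variable {ι : Type} [Fintype ι] [DecidableEq ι]

open Classical in
/-- large shifts in every coordinate -/
lemma typ_triv {B : Matrix ι ι ℝ} (hB : B.det ≠ 0) {M1 : Matrix ι ι ℝ} (hM1 : M1.det ≠ 0)
    {C0 L : ℝ} (hC0 : 0 ≤ C0) (hb0 : Bal C0 B) (hb : Bal C0 M1)
    (hL2 : C0 * 2 ^ (Fintype.card ι) ≤ L) (Q : (ι → ℤ) → Prop) (cc : (ι → ℤ) → ι → ℝ)
    {u : (ι → ℤ) → (ι → ℤ) → ℂ} (hu : ∀ z x, ‖u z x‖ ≤ 1) :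
    ∑' z : ι → ℤ, ENNReal.ofReal (if Q z ∧ z ≠ 0 then gw M1 (1 / 2) 0 z else 0) *
      ‖ES B 2 (cc z) (u z)‖ₑ ≤
      ENNReal.ofReal (L * |M1.det|⁻¹ * (1 + L * |B.det|⁻¹)) := by
  have ht1 : th1 M1 (1 / 2) ≤ L / |M1.det| := th1_le hM1 hC0 hb hL2 (by norm_num)
  have ht2 : th1 B 2 ≤ L / |B.det| := th1_le hB hC0 hb0 hL2 (by norm_num)
  have hL0 : 0 ≤ L := le_trans (by positivity) hL2
  have hpt : ∀ z : ι → ℤ, ‖ES B 2 (cc z) (u z)‖ₑ ≤ ENNReal.ofReal (1 + L * |B.det|⁻¹) := by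
    intro z
    rw [← ofReal_norm]
    refine ENNReal.ofReal_le_ofReal ((norm_ES_le hB two_pos _ (hu z)).trans ?_)
    rw [th0_eq hB two_pos, ← div_eq_mul_inv]
    linarith
  calc _ ≤ ∑' z : ι → ℤ, ENNReal.ofReal (if z = 0 then 0 else gw M1 (1 / 2) 0 z) *
        ENNReal.ofReal (1 + L * |B.det|⁻¹) := by
        refine ENNReal.tsum_le_tsum fun z => mul_le_mul' (ENNReal.ofReal_le_ofReal ?_) (hpt z)
        by_cases hz : z = 0
        · rw [if_pos hz, if_neg (fun h => h.2 hz)]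
        · rw [if_neg hz]
          split_ifs
          · exact le_rfl
          · exact (gw_pos _ _ _ _).le
    _ = ENNReal.ofReal (th1 M1 (1 / 2)) * ENNReal.ofReal (1 + L * |B.det|⁻¹) := by
        rw [ENNReal.tsum_mul_right]
        congr 1
        unfold th1
        rw [ENNReal.ofReal_tsum_of_nonneg ?_ (summable_th1 hM1 (by norm_num))]
        intro z
        split_ifs
        · exact le_rfl
        · exact (gw_pos _ _ _ _).le
    _ ≤ _ := by
        rw [← ENNReal.ofReal_mul (th1_nonneg _ _)]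
        refine ENNReal.ofReal_le_ofReal ?_
        rw [div_eq_mul_inv] at ht1
        exact mul_le_mul_of_nonneg_right ht1 (by positivity)

/-- **the product of characters over the lattice** -/
theorem keyV0 (hsq : S_SQ) (htd : S_TD) (hvar : S_VAR) (hinj : S_INJ) (hbr : S_BR)
    (hklo : S_KLO) (hPhi : S_PHI) {p ν a : ℕ} (hp : p.Prime) (hp7 : 7 ≤ p)
    (ha : 19 * ν ≤ 58 * a) (ha' : 58 * a < 19 * ν + 58) {χ : ι → DirichletCharacter ℂ (p ^ ν)}
    (hχ : ∀ i, (χ i).IsPrimitive) {B : Matrix ι ι ℝ} (hB : B.det ≠ 0) {C0 L CN : ℝ} (hC0 : 0 ≤ C0)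
    (hb : ∀ e : ι → ℕ, (∀ i, e i ≤ ν) → Bal C0 (B * Dm (ew p e)))
    (hd : ∀ e : ι → ℕ, (∀ i, e i ≤ ν) → Bal C0 (du B * Dm (ew p e)⁻¹))
    (hL1 : 1 ≤ L) (hL2 : C0 * 2 ^ (Fintype.card ι) ≤ L)
    (hL3 : (p : ℝ) ^ (4 * Fintype.card ι) ≤ L) (hL4 : ((ν : ℝ) + 1) ^ (3 * Fintype.card ι) ≤ L)
    (hL5 : C0 ≤ L) (hCN : 0 ≤ CN) (hL6 : CN * (p : ℝ) ^ (15 * Fintype.card ι) ≤ L)
    (hN : |B.det|⁻¹ ^ 2 ≤ CN ^ 2 * (p : ℝ) ^ (Fintype.card ι * ν)) (hN1 : 1 ≤ |B.det|⁻¹)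
    (v : ι → ℝ) :
    ‖ES B 1 v (fun x => ∏ i, χ i ((x i : ℤ) : ZMod (p ^ ν)))‖ ^ 2 ≤
      5 * L ^ 5 * (p : ℝ) ^ (Fintype.card ι * a) * |B.det|⁻¹ := by
  classical
  have hp0 : (0 : ℝ) < p := by exact_mod_cast hp.pos
  have hp1 : (1 : ℝ) ≤ p := by exact_mod_cast hp.one_le
  set n := Fintype.card ι with hn
  set N := |B.det|⁻¹ with hNd
  have hN0 : 0 < N := by linarith
  have hL0 : 0 < L := by linarith
  set u : (ι → ℤ) → ℂ := fun x => ∏ i, χ i ((x i : ℤ) : ZMod (p ^ ν)) with hu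
  have hu1 : ∀ x, ‖u x‖ ≤ 1 := fun x => by
    simp only [hu]
    rw [norm_prod]
    exact Finset.prod_le_one (fun _ _ => norm_nonneg _) fun i _ => (χ i).norm_le_one _
  have hb0 : Bal C0 B := by
    have := hb 0 fun i => Nat.zero_le _
    rwa [ew_zero, Dm_one, Matrix.mul_one] at this
  have hth : ∀ lam : ℝ, 1 / 4 ≤ lam → th0 B lam ≤ 2 * L * N := by
    intro lam hlam
    rw [th0_eq hB (by linarith)]
    have h2 := th1_le hB hC0 hb0 hL2 (lam := lam) hlam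
    rw [div_eq_mul_inv, ← hNd] at h2
    have : 1 ≤ L * N := by nlinarith
    linarith
  have hpna : (1 : ℝ) ≤ (p : ℝ) ^ (n * a) := one_le_pow₀ hp1
  rcases Nat.lt_or_ge ν 30 with hν | hν
  · have h1 : ‖ES B 1 v u‖ ≤ 2 * L * N := (norm_ES_le hB one_pos _ hu1).trans (hth 1 (by norm_num))
    have h2 : N ≤ L := by
      refine le_trans ?_ hL6
      refine le_of_sq_le_sq ?_ (by positivity)
      calc N ^ 2 ≤ CN ^ 2 * (p : ℝ) ^ (n * ν) := hN
        _ ≤ CN ^ 2 * (p : ℝ) ^ (15 * n * 2) := by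
            have : (p : ℝ) ^ (n * ν) ≤ (p : ℝ) ^ (15 * n * 2) := pow_le_pow_right₀ hp1 (by nlinarith)
            gcongr
        _ = _ := by rw [pow_mul (p : ℝ) (15 * n) 2]; ring
    calc _ ≤ (2 * L * N) ^ 2 := pow_le_pow_left₀ (norm_nonneg _) h1 2
      _ = 4 * L ^ 2 * N * N := by ring
      _ ≤ 4 * L ^ 2 * L * N := by gcongr
      _ = 4 * L ^ 3 * 1 * N := by ring
      _ ≤ 5 * L ^ 5 * (p : ℝ) ^ (n * a) * N := by
          have : L ^ 3 ≤ L ^ 5 := pow_le_pow_right₀ hL1 (by norm_num)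
          gcongr
          norm_num
  obtain ⟨c, hc⟩ : ∃ c, c = (ν + 1) / 2 := ⟨_, rfl⟩
  have hac : a ≤ c := by omega
  set W : (ι → ℤ) → ℝ≥0∞ := fun y =>
    ‖ES B (2 * 1) (v - (1 / 2 : ℝ) • (B *ᵥ rc y)) (Df y u)‖ₑ with hW
  have hW' : ∀ (m : ι → ℕ) (y : ι → ℤ), W (cz (pw p m) * y) =
      ‖ES B 2 (v - (1 / 2 : ℝ) • (B *ᵥ rc (cz (pw p m) * y)))
        (fun x => ∏ i, FF (χ i) ((p : ℤ) ^ m i * y i) (x i))‖ₑ := by
    intro m y
    simp only [hW]
    rw [mul_one]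
    congr 2
    funext x
    unfold Df
    simp only [hu]
    rw [map_prod, ← Finset.prod_mul_distrib]
    refine Finset.prod_congr rfl fun i _ => ?_
    unfold FF
    rw [Pi.add_apply, Pi.mul_apply, cz_pw_apply]
  have h1 := es_onev (D := pw p fun _ => a) (pw_pos hp.pos _) hB one_pos v hu1
  have hty := typesv (a := a) (c := c) hp hac B (1 / 2) W
  have hbd : ∀ m ∈ Fintype.piFinset (fun _ : ι => Finset.Icc a c), (∑' y : ι → ℤ,
        ENNReal.ofReal (if (∀ i, m i < c → ¬ (p : ℤ) ∣ y i) ∧ y ≠ 0 then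
          gw (B * Dm (ew p m)) (1 / 2) 0 y else 0) * W (cz (pw p m) * y)) ≤
      ENNReal.ofReal (3 * L ^ 4 * N) := by
    intro m hm
    rw [Fintype.mem_piFinset] at hm
    simp only [Finset.mem_Icc] at hm
    simp_rw [hW']
    by_cases hA : ∃ i, m i < c
    · exact typ_bd hsq htd hvar hinj hbr hklo hPhi hp hp7 hν ha hc hχ hB hC0 hb hd hL1 hL2 hL3 hL4
        hL5 hCN hL6 hN hm hA _
    · push Not at hA
      have hmc : m = fun _ => c := by
        funext i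
        exact le_antisymm (hm i).2 (hA i)
      have hM1 : (B * Dm (ew p m)).det ≠ 0 := det_mul_Dm_ne hB (ew_ne hp.pos _)
      have h2 := typ_triv hB hM1 hC0 hb0 (hb m fun i => by have := (hm i).2; omega) hL2
        (fun y => ∀ i, m i < c → ¬ (p : ℤ) ∣ y i)
        (fun y => v - (1 / 2 : ℝ) • (B *ᵥ rc (cz (pw p m) * y)))
        (u := fun y x => ∏ i, FF (χ i) ((p : ℤ) ^ m i * y i) (x i)) (fun y x => by
          rw [norm_prod]
          exact Finset.prod_le_one (fun _ _ => norm_nonneg _)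
            fun i _ => Pool.Agent.Y766.R3.FF_norm _ _ _)
      refine le_trans (le_of_eq ?_) (h2.trans (ENNReal.ofReal_le_ofReal ?_))
      · refine tsum_congr fun y => ?_
        congr 2
        congr
      · rw [det_mul_Dm, prod_ew, abs_mul, abs_of_pos (by positivity : (0 : ℝ) < (p : ℝ) ^ ∑ i, m i),
          _root_.mul_inv, ← hNd]
        have e1 : ∑ i, m i = n * c := by
          rw [hmc, Finset.sum_const, Finset.card_univ, smul_eq_mul]
        rw [e1]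
        have h5 : N ≤ CN * (p : ℝ) ^ (n * c) := by
          refine le_of_sq_le_sq ?_ (by positivity)
          calc N ^ 2 ≤ CN ^ 2 * (p : ℝ) ^ (n * ν) := hN
            _ ≤ CN ^ 2 * (p : ℝ) ^ (n * c * 2) := by
                have h6 : n * ν ≤ n * c * 2 := by
                  rw [mul_assoc]
                  exact Nat.mul_le_mul_left _ (by omega)
                have := pow_le_pow_right₀ hp1 h6
                gcongr
            _ = _ := by rw [pow_mul (p : ℝ) (n * c) 2]; ring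
        have h6 : N * ((p : ℝ) ^ (n * c))⁻¹ ≤ L := by
          rw [← div_eq_mul_inv, div_le_iff₀ (by positivity)]
          refine h5.trans ?_
          have : CN ≤ L := le_trans (le_mul_of_one_le_right hCN (one_le_pow₀ hp1)) hL6
          gcongr
        calc L * (N * ((p : ℝ) ^ (n * c))⁻¹) * (1 + L * N) ≤ L * L * (L * N + L * N) := by
              have : 1 ≤ L * N := by nlinarith
              gcongr
          _ = 2 * L ^ 3 * N := by ring
          _ ≤ 3 * L ^ 4 * N := by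
              have : L ^ 3 ≤ L ^ 4 := pow_le_pow_right₀ hL1 (by norm_num)
              gcongr
              norm_num
  have hcard : ((Fintype.piFinset (fun _ : ι => Finset.Icc a c)).card : ℝ) ≤ L := by
    rw [Fintype.card_piFinset, Finset.prod_const, Finset.card_univ, Nat.card_Icc]
    refine le_trans ?_ hL4
    push_cast
    calc ((c + 1 - a : ℕ) : ℝ) ^ n ≤ ((ν : ℝ) + 1) ^ n := by
          refine pow_le_pow_left₀ (Nat.cast_nonneg _) ?_ n
          have : c + 1 - a ≤ ν + 1 := by omega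
          exact_mod_cast this
      _ ≤ ((ν : ℝ) + 1) ^ (3 * n) := by
          refine pow_le_pow_right₀ ?_ (by omega)
          have : (0 : ℝ) ≤ ν := Nat.cast_nonneg _
          linarith
  have hsum : ∑' z : ι → ℤ, wv B (1 / 2) (pw p fun _ => a) z *
      W (cz (pw p fun _ => a) * z) ≤ ENNReal.ofReal (3 * L ^ 5 * N) := by
    refine hty.trans ((Finset.sum_le_sum hbd).trans ?_)
    rw [Finset.sum_const, nsmul_eq_mul, ← ENNReal.ofReal_natCast,
      ← ENNReal.ofReal_mul (Nat.cast_nonneg _)]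
    refine ENNReal.ofReal_le_ofReal ?_
    calc _ ≤ L * (3 * L ^ 4 * N) := by gcongr
      _ = _ := by ring
  have hprod : ((∏ i : ι, (pw p fun _ => a) i : ℕ) : ℝ≥0∞) = ENNReal.ofReal ((p : ℝ) ^ (n * a)) := by
    have e2 : ∏ i : ι, pw p (fun _ => a) i = p ^ (n * a) := by
      rw [prod_pw, Finset.sum_const, Finset.card_univ, smul_eq_mul]
    rw [e2, ← ENNReal.ofReal_natCast]
    push_cast
    rfl
  have h2 : ‖ES B 1 v u‖ₑ ^ 2 ≤ ENNReal.ofReal ((p : ℝ) ^ (n * a) * (2 * L * N + 3 * L ^ 5 * N)) := by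
    refine h1.trans ?_
    rw [ENNReal.ofReal_mul (by positivity), ENNReal.ofReal_add (by positivity) (by positivity),
      hprod]
    refine mul_le_mul' le_rfl (add_le_add (ENNReal.ofReal_le_ofReal ?_) hsum)
    rw [mul_one]
    exact hth 2 (by norm_num)
  rw [← ofReal_norm, ← ENNReal.ofReal_pow (norm_nonneg _)] at h2
  have h3 := (ENNReal.ofReal_le_ofReal_iff (by positivity)).1 h2
  refine h3.trans ?_
  have hLp : L ≤ L ^ 5 := le_self_pow₀ hL1 (by norm_num)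
  calc (p : ℝ) ^ (n * a) * (2 * L * N + 3 * L ^ 5 * N) ≤
      (p : ℝ) ^ (n * a) * (2 * L ^ 5 * N + 3 * L ^ 5 * N) := by gcongr
    _ = _ := by ring

/-- the estimate for the lattice sums without hypotheses -/
theorem keyV {p ν a : ℕ} (hp : p.Prime) (hp7 : 7 ≤ p)
    (ha : 19 * ν ≤ 58 * a) (ha' : 58 * a < 19 * ν + 58) {χ : ι → DirichletCharacter ℂ (p ^ ν)}
    (hχ : ∀ i, (χ i).IsPrimitive) {B : Matrix ι ι ℝ} (hB : B.det ≠ 0) {C0 L CN : ℝ} (hC0 : 0 ≤ C0)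
    (hb : ∀ e : ι → ℕ, (∀ i, e i ≤ ν) → Bal C0 (B * Dm (ew p e)))
    (hd : ∀ e : ι → ℕ, (∀ i, e i ≤ ν) → Bal C0 (du B * Dm (ew p e)⁻¹))
    (hL1 : 1 ≤ L) (hL2 : C0 * 2 ^ (Fintype.card ι) ≤ L)
    (hL3 : (p : ℝ) ^ (4 * Fintype.card ι) ≤ L) (hL4 : ((ν : ℝ) + 1) ^ (3 * Fintype.card ι) ≤ L)
    (hL5 : C0 ≤ L) (hCN : 0 ≤ CN) (hL6 : CN * (p : ℝ) ^ (15 * Fintype.card ι) ≤ L)
    (hN : |B.det|⁻¹ ^ 2 ≤ CN ^ 2 * (p : ℝ) ^ (Fintype.card ι * ν)) (hN1 : 1 ≤ |B.det|⁻¹)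
    (v : ι → ℝ) :
    ‖ES B 1 v (fun x => ∏ i, χ i ((x i : ℤ) : ZMod (p ^ ν)))‖ ^ 2 ≤
      5 * L ^ 5 * (p : ℝ) ^ (Fintype.card ι * a) * |B.det|⁻¹ := by
  have hsq := Pool.Agent.Y155.R7.sq_main
  exact keyV0 hsq (Pool.Agent.Y948.R7.td hsq) (Pool.Agent.Y948.R7.var hsq)
    (Pool.Agent.Y924.R7.Inj.inj hsq) (Pool.Agent.Y924.R7.Br.br hsq) Pool.Agent.Y779.R3.klo
    Pool.Agent.Y870.R3.phi hp hp7 ha ha' hχ hB hC0 hb hd hL1 hL2 hL3 hL4 hL5 hCN hL6 hN hN1 v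

end Pool.Agent.J4H31.V
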