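import Pool.Agent.J4H31.V.V12
import Pool.Agent.J4H31.A19

/-!
Prime numbers which split completely; adapted bases.
-/

set_option autoImplicit false
set_option linter.unusedSectionVars false

open NumberField Matrix
open Pool.Agent.Y773 (rl emb emb_injective card_Idx Idx)

namespace Pool.Agent.J4H31.V

section basis

variable {K : Type} [Field K] [NumberField K]
variable {ι : Type} [Fintype ι] [DecidableEq ι]

/-- the prime number `p` splits completely into the `𝔭 i` -/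
structure Split (p : ℕ) (𝔭 : ι → Ideal (𝓞 K)) : Prop where
  hp : p.Prime
  norm : ∀ i, Ideal.absNorm (𝔭 i) = p
  inj : Function.Injective 𝔭
  card : Fintype.card ι = Module.finrank ℚ K

namespace Split

variable {p : ℕ} {𝔭 : ι → Ideal (𝓞 K)}

lemma isPrime (h : Split p 𝔭) (i : ι) : (𝔭 i).IsPrime := by
  refine Ideal.isPrime_of_irreducible_absNorm ?_
  rw [h.norm]
  exact h.hp

lemma ne_bot (h : Split p 𝔭) (i : ι) : 𝔭 i ≠ ⊥ := by
  intro h0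
  have := h.norm i
  rw [h0, Ideal.absNorm_bot] at this
  exact h.hp.ne_zero this.symm

lemma isMaximal (h : Split p 𝔭) (i : ι) : (𝔭 i).IsMaximal := (h.isPrime i).isMaximal (h.ne_bot i)

lemma coprime (h : Split p 𝔭) {i j : ι} (hij : i ≠ j) : IsCoprime (𝔭 i) (𝔭 j) := by
  have := h.isMaximal i
  have := h.isMaximal j
  refine Ideal.isCoprime_of_isMaximal ?_
  exact fun h1 => hij (h.inj h1)

lemma prod_eq (h : Split p 𝔭) : ∏ i, 𝔭 i = Ideal.span {(p : 𝓞 K)} := by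
  have h1 : ∏ i, 𝔭 i ∣ Ideal.span {(p : 𝓞 K)} := by
    refine Finset.prod_dvd_of_coprime (fun i _ j _ hij => h.coprime hij) fun i _ => ?_
    rw [Ideal.dvd_span_singleton]
    have := Ideal.absNorm_mem (𝔭 i)
    rwa [h.norm] at this
  obtain ⟨𝔞, h𝔞⟩ := h1
  have h2 := congrArg Ideal.absNorm h𝔞
  rw [map_mul, map_prod, Finset.prod_congr rfl fun i _ => h.norm i, Finset.prod_const,
    Finset.card_univ, h.card, Ideal.absNorm_span_singleton] at h2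
  have h3 : (Algebra.norm ℤ (p : 𝓞 K)).natAbs = p ^ Module.finrank ℚ K := by
    have h4 : Algebra.norm ℤ (p : 𝓞 K) = (p : ℤ) ^ Module.finrank ℚ K := by
      have h5 := Algebra.norm_algebraMap_of_basis (RingOfIntegers.basis K) (p : ℤ)
      rw [← Module.finrank_eq_card_basis (RingOfIntegers.basis K), RingOfIntegers.rank] at h5
      rw [← h5]
      congr 1
      simp
    rw [h4, Int.natAbs_pow, Int.natAbs_natCast]
  rw [h3] at h2
  have h6 : Ideal.absNorm 𝔞 = 1 := by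
    have h7 : 0 < p ^ Module.finrank ℚ K := pow_pos h.hp.pos _
    have h8 : p ^ Module.finrank ℚ K * Ideal.absNorm 𝔞 = p ^ Module.finrank ℚ K * 1 := by
      rw [mul_one]; exact h2.symm
    exact Nat.eq_of_mul_eq_mul_left h7 h8
  rw [Ideal.absNorm_eq_one_iff] at h6
  rw [h𝔞, h6, Ideal.mul_top]

lemma deg1 (h : Split p 𝔭) (i : ι) : Deg1 p (𝔭 i) := by
  refine ⟨h.hp, h.norm i, fun hmem => ?_⟩
  have h1 : 𝔭 i ^ 2 ∣ ∏ j, 𝔭 j := by
    rw [h.prod_eq, Ideal.dvd_span_singleton]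
    exact hmem
  rw [← Finset.mul_prod_erase _ _ (Finset.mem_univ i), pow_two] at h1
  have h2 : 𝔭 i ∣ ∏ j ∈ Finset.univ.erase i, 𝔭 j := (mul_dvd_mul_iff_left (h.ne_bot i)).1 h1
  have h3 : IsCoprime (𝔭 i) (∏ j ∈ Finset.univ.erase i, 𝔭 j) :=
    IsCoprime.prod_right fun j hj => h.coprime (Finset.ne_of_mem_erase hj).symm
  have h4 := h3.isUnit_of_dvd' dvd_rfl h2
  rw [Ideal.isUnit_iff] at h4
  exact (h.isPrime i).ne_top h4

end Split

/-- membership in products of powers -/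
lemma mem_prod {p : ℕ} {𝔭 : ι → Ideal (𝓞 K)} (h : Split p 𝔭) {𝔟 : Ideal (𝓞 K)} (h𝔟 : 𝔟 ≠ ⊥)
    (S : Finset ι) (e : ι → ℕ) {z : 𝓞 K} (hb : z ∈ 𝔟) (hz : ∀ i ∈ S, z ∈ 𝔟 * 𝔭 i ^ e i) :
    z ∈ 𝔟 * ∏ i ∈ S, 𝔭 i ^ e i := by
  obtain ⟨𝔞, h𝔞⟩ := Ideal.dvd_span_singleton.2 hb
  rw [← Ideal.dvd_span_singleton, h𝔞]
  refine mul_dvd_mul_left _ ?_
  refine Finset.prod_dvd_of_coprime (fun i _ j _ hij => (h.coprime hij).pow) fun i hi => ?_
  have h1 := hz i hi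
  rw [← Ideal.dvd_span_singleton, h𝔞] at h1
  exact (mul_dvd_mul_iff_left h𝔟).1 h1

/-- one pivot -/
lemma pivot {p : ℕ} {𝔭 : Ideal (𝓞 K)} (h : Deg1 p 𝔭) (k : ℕ) {𝔟 : Ideal (𝓞 K)} {w : 𝓞 K}
    (hw : w ∈ 𝔟) (hw' : w ∉ 𝔟 * 𝔭) {z : 𝓞 K} (hz : z ∈ 𝔟) :
    ∃ c : ℤ, z - c * w ∈ 𝔟 * 𝔭 ^ k := by
  have h1 : 𝔟 ∣ Ideal.span {w} := by
    rw [Ideal.dvd_span_singleton]; exact hw
  obtain ⟨𝔞, h𝔞⟩ := h1
  have hcop : IsCoprime 𝔞 𝔭 := by
    refine h.coprime_of_not_le fun hle => hw' ?_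
    have h2 : Ideal.span {w} ≤ 𝔟 * 𝔭 := by
      rw [h𝔞]; exact Ideal.mul_mono le_rfl hle
    exact h2 (Ideal.mem_span_singleton_self _)
  have h2 : 𝔟 = Ideal.span {w} ⊔ 𝔟 * 𝔭 ^ k := by
    have h3 : IsCoprime 𝔞 (𝔭 ^ k) := hcop.pow_right
    rw [Ideal.isCoprime_iff_sup_eq] at h3
    rw [h𝔞, ← Ideal.mul_sup, h3, Ideal.mul_top]
  have h4 : z ∈ Ideal.span {w} ⊔ 𝔟 * 𝔭 ^ k := h2 ▸ hz
  rw [Submodule.mem_sup] at h4
  obtain ⟨y, hy, x, hx, hyx⟩ := h4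
  obtain ⟨v, rfl⟩ := Ideal.mem_span_singleton'.1 hy
  obtain ⟨c, hc⟩ := h.res_pow k v
  refine ⟨c, ?_⟩
  have e1 : z - c * w = w * (v - c) + x := by
    rw [← hyx]; ring
  rw [e1]
  exact Ideal.add_mem _ (Ideal.mul_mem_mul hw hc) hx

/-- multiples of a generator -/
lemma mul_gen {p : ℕ} {𝔭 : Ideal (𝓞 K)} (h : Deg1 p 𝔭) {k : ℕ} {𝔟 : Ideal (𝓞 K)} (h𝔟 : 𝔟 ≠ ⊥)
    {w : 𝓞 K} (hw : w ∈ 𝔟) (hw' : w ∉ 𝔟 * 𝔭) {c : ℤ} (hc : (c : 𝓞 K) * w ∈ 𝔟 * 𝔭 ^ k) :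
    (p : ℤ) ^ k ∣ c := by
  rw [← h.int_mem (j := k)]
  obtain ⟨𝔞, h𝔞⟩ := Ideal.dvd_span_singleton.2 hw
  have hcop : IsCoprime 𝔞 𝔭 := by
    refine h.coprime_of_not_le fun hle => hw' ?_
    have h2 : Ideal.span {w} ≤ 𝔟 * 𝔭 := by
      rw [h𝔞]; exact Ideal.mul_mono le_rfl hle
    exact h2 (Ideal.mem_span_singleton_self _)
  rw [← Ideal.dvd_span_singleton, ← Ideal.span_singleton_mul_span_singleton, h𝔞,
    mul_left_comm] at hc
  have h1 : 𝔭 ^ k ∣ Ideal.span {(c : 𝓞 K)} * 𝔞 := (mul_dvd_mul_iff_left h𝔟).1 hc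
  have h2 : 𝔭 ^ k ∣ Ideal.span {(c : 𝓞 K)} := by
    refine IsCoprime.dvd_of_dvd_mul_right ?_ h1
    exact (hcop.symm).pow_left
  rwa [Ideal.dvd_span_singleton] at h2

/-- expansion in a basis -/
lemma sum_repr' {𝔟 : Ideal (𝓞 K)} (ω : Module.Basis ι ℤ 𝔟) {x : 𝓞 K} (hx : x ∈ 𝔟) :
    ∑ i, ((ω.repr ⟨x, hx⟩ i : ℤ) : 𝓞 K) * (ω i : 𝓞 K) = x := by
  have h1 := ω.sum_repr ⟨x, hx⟩
  have h3 : ((∑ i, (ω.repr ⟨x, hx⟩ i) • ω i : 𝔟) : 𝓞 K) = x := by rw [h1]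
  refine Eq.trans ?_ h3
  rw [Submodule.coe_sum]
  refine Finset.sum_congr rfl fun i _ => ?_
  rw [← zsmul_eq_mul]
  rfl

/-- **bases adapted to all the primes above `p`** -/
theorem adaptedN {p : ℕ} {𝔭 : ι → Ideal (𝓞 K)} (h : Split p 𝔭) {k : ℕ} (hk : 1 ≤ k)
    {𝔟 : Ideal (𝓞 K)} (h𝔟 : 𝔟 ≠ ⊥) (b : Module.Basis ι ℤ (𝓞 K)) (J : Finset ι) :
    ∃ ω : Module.Basis ι ℤ 𝔟, ∀ i ∈ J, (ω i : 𝓞 K) ∉ 𝔟 * 𝔭 i ∧
      ∀ j, j ≠ i → (ω j : 𝓞 K) ∈ 𝔟 * 𝔭 i ^ k := by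
  classical
  induction J using Finset.induction_on with
  | empty => exact ⟨𝔟.selfBasis b h𝔟, fun i hi => absurd hi (Finset.notMem_empty i)⟩
  | insert i' J hi' ih =>
    obtain ⟨ω, hω⟩ := ih
    -- the pivot
    obtain ⟨j0, hj0, hj0'⟩ : ∃ j0, j0 ∉ J ∧ (ω j0 : 𝓞 K) ∉ 𝔟 * 𝔭 i' := by
      by_contra hc
      push Not at hc
      have hle : ¬ 𝔟 * ∏ i ∈ J, 𝔭 i ^ k ≤ 𝔟 * 𝔭 i' := by
        intro hle
        have h1 : 𝔭 i' ∣ ∏ i ∈ J, 𝔭 i ^ k :=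
          (mul_dvd_mul_iff_left h𝔟).1 (Ideal.dvd_iff_le.2 hle)
        have h2 : IsCoprime (𝔭 i') (∏ i ∈ J, 𝔭 i ^ k) :=
          IsCoprime.prod_right fun j hj =>
            (h.coprime (i := i') (j := j) (fun he => hi' (by rw [he]; exact hj))).pow_right
        have h3 := h2.isUnit_of_dvd' dvd_rfl h1
        rw [Ideal.isUnit_iff] at h3
        exact (h.isPrime i').ne_top h3
      obtain ⟨x, hx1, hx2⟩ := SetLike.not_le_iff_exists.1 hle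
      apply hx2
      have hx𝔟 : x ∈ 𝔟 := Ideal.mul_le_left hx1
      obtain ⟨cf, hcf⟩ : ∃ cf : ι → ℤ, ∑ i, (cf i : 𝓞 K) * (ω i : 𝓞 K) = x :=
        ⟨fun i => ω.repr ⟨x, hx𝔟⟩ i, sum_repr' ω hx𝔟⟩
      rw [← hcf]
      refine Ideal.sum_mem _ fun i _ => ?_
      by_cases hi : i ∈ J
      · have h4 : (cf i : 𝓞 K) * (ω i : 𝓞 K) ∈ 𝔟 * 𝔭 i ^ k := by
          have h5 := hcf
          rw [← Finset.add_sum_erase _ _ (Finset.mem_univ i)] at h5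
          have h6 : (cf i : 𝓞 K) * (ω i : 𝓞 K) = x -
              ∑ j ∈ Finset.univ.erase i, (cf j : 𝓞 K) * (ω j : 𝓞 K) := by
            rw [← h5]; ring
          rw [h6]
          refine Ideal.sub_mem _ ?_ (Ideal.sum_mem _ fun j hj => ?_)
          · have h9 : 𝔭 i ^ k ∣ ∏ i ∈ J, 𝔭 i ^ k := Finset.dvd_prod_of_mem (fun i => 𝔭 i ^ k) hi
            have h10 : 𝔟 * ∏ i ∈ J, 𝔭 i ^ k ≤ 𝔟 * 𝔭 i ^ k :=
              Ideal.mul_mono le_rfl (Ideal.dvd_iff_le.1 h9)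
            exact h10 hx1
          · exact Ideal.mul_mem_left _ _ ((hω i hi).2 j (Finset.ne_of_mem_erase hj))
        have h7 := mul_gen (h.deg1 i) h𝔟 (ω i).2 (hω i hi).1 h4
        obtain ⟨c, hc'⟩ := (dvd_pow_self (p : ℤ) (by omega : k ≠ 0)).trans h7
        have h8 : (cf i : 𝓞 K) * (ω i : 𝓞 K) = ((ω i : 𝓞 K) * (p : 𝓞 K)) * (c : 𝓞 K) := by
          rw [hc']
          push_cast
          ring
        rw [h8]
        refine Ideal.mul_mem_right _ _ ?_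
        exact Ideal.mul_mem_mul (ω i).2 (h.deg1 i').mem
      · exact Ideal.mul_mem_left _ _ (hc i hi)
    -- the reindexed basis
    set ω1 : Module.Basis ι ℤ 𝔟 := ω.reindex (Equiv.swap i' j0) with hω1
    have hω1a : ∀ j, ω1 j = ω (Equiv.swap i' j0 j) := fun j => by
      rw [hω1, Module.Basis.reindex_apply, Equiv.symm_swap]
    have hω1i : (ω1 i' : 𝓞 K) ∉ 𝔟 * 𝔭 i' := by
      rw [hω1a, Equiv.swap_apply_left]
      exact hj0'
    have hω1J : ∀ i ∈ J, (ω1 i : 𝓞 K) ∉ 𝔟 * 𝔭 i ∧ ∀ j, j ≠ i → (ω1 j : 𝓞 K) ∈ 𝔟 * 𝔭 i ^ k := by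
      intro i hi
      have n1 : i ≠ i' := fun he => hi' (he ▸ hi)
      have n2 : i ≠ j0 := fun he => hj0 (he ▸ hi)
      have e1 : Equiv.swap i' j0 i = i := Equiv.swap_apply_of_ne_of_ne n1 n2
      refine ⟨?_, fun j hj => ?_⟩
      · rw [hω1a, e1]
        exact (hω i hi).1
      · rw [hω1a]
        refine (hω i hi).2 _ fun he => hj ?_
        have := (Equiv.swap i' j0).injective (he.trans e1.symm)
        exact this
    -- the transvection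
    have hex : ∀ j, ∃ c : ℤ, (ω1 j : 𝓞 K) - c * (ω1 i' : 𝓞 K) ∈ 𝔟 * 𝔭 i' ^ k := fun j =>
      pivot (h.deg1 i') k (ω1 i').2 hω1i (ω1 j).2
    choose c hc using hex
    set f : Module.Dual ℤ 𝔟 := ∑ j, (if j = i' then 0 else -c j) • ω1.coord j with hf
    have hfb : ∀ i, f (ω1 i) = if i = i' then 0 else -c i := by
      intro i
      rw [hf, LinearMap.sum_apply]
      simp only [LinearMap.smul_apply, Module.Basis.coord_apply, Module.Basis.repr_self, smul_eq_mul]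
      rw [Finset.sum_eq_single i]
      · simp
      · intro j _ hj
        rw [Finsupp.single_apply, if_neg (Ne.symm hj), mul_zero]
      · intro hi
        exact absurd (Finset.mem_univ i) hi
    have hf0 : f (ω1 i') = 0 := by rw [hfb, if_pos rfl]
    set ω2 := ω1.map (LinearEquiv.transvection hf0) with hω2
    have hω2i : ω2 i' = ω1 i' := by
      rw [hω2, Module.Basis.map_apply, LinearEquiv.transvection.apply, hf0, zero_smul, add_zero]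
    have hω2j : ∀ j, j ≠ i' → (ω2 j : 𝓞 K) = (ω1 j : 𝓞 K) - c j * (ω1 i' : 𝓞 K) := by
      intro j hj
      rw [hω2, Module.Basis.map_apply, LinearEquiv.transvection.apply, hfb, if_neg hj]
      push_cast
      rw [neg_smul, zsmul_eq_mul]
      ring
    refine ⟨ω2, fun i hi => ?_⟩
    rcases Finset.mem_insert.1 hi with rfl | hi
    · refine ⟨by rw [hω2i]; exact hω1i, fun j hj => ?_⟩
      rw [hω2j j hj]
      exact hc j
    · have n1 : i ≠ i' := fun he => hi' (he ▸ hi)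
      obtain ⟨g1, g2⟩ := hω1J i hi
      have g3 : (ω1 i' : 𝓞 K) ∈ 𝔟 * 𝔭 i ^ k := g2 i' n1.symm
      refine ⟨fun hmem => g1 ?_, fun j hj => ?_⟩
      · rw [hω2j i n1] at hmem
        have h8 : (ω1 i : 𝓞 K) = ((ω1 i : 𝓞 K) - c i * (ω1 i' : 𝓞 K)) + c i * (ω1 i' : 𝓞 K) := by ring
        rw [h8]
        refine Ideal.add_mem _ hmem (Ideal.mul_mem_left _ _ ?_)
        exact Ideal.mul_mono le_rfl (Ideal.pow_le_self (by omega)) g3
      · by_cases hji : j = i'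
        · rw [hji, hω2i]
          exact g3
        · rw [hω2j j hji]
          exact Ideal.sub_mem _ (g2 j hj) (Ideal.mul_mem_left _ _ g3)

end basis

end Pool.Agent.J4H31.V
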