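import Pool.Agent.J4H31.V.V1

/-!
Differencing with shifts divisible in every coordinate.
-/

set_option autoImplicit false
set_option linter.unusedSectionVars false

open MeasureTheory Matrix Complex
open Pool.Agent.Y766.R3 (eu)
open scoped ENNReal

namespace Pool.Agent.J4H31.V

variable {ι : Type} [Fintype ι] [DecidableEq ι]

/-- summability of the correlations -/
lemma summable_corrv {D : ι → ℤ} (hD : ∀ i, D i ≠ 0) {W : (ι → ℤ) → ℝ} (hW : Summable W)
    (hW0 : ∀ x, 0 ≤ W x) :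
    Summable fun p : (ι → ℤ) × (ι → ℤ) => W (p.2 + D * p.1) * W p.2 := by
  have h1 : Summable fun p : (ι → ℤ) × (ι → ℤ) => W p.1 * W p.2 := hW.mul_of_nonneg hW hW0 hW0
  have hinj : Function.Injective
      (fun p : (ι → ℤ) × (ι → ℤ) => (p.2 + D * p.1, p.2)) := by
    intro p p' h
    obtain ⟨h1, h2⟩ := Prod.mk.inj h
    rw [h2] at h1
    exact Prod.ext (dv_inj hD (add_left_cancel h1)) h2
  exact h1.comp_injective hinj

/-- the identity behind differencing -/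
lemma sq_clsv {D : ι → ℕ} (hD : ∀ i, 0 < D i) {W : (ι → ℤ) → ℝ} (hW : Summable W)
    (hW0 : ∀ x, 0 ≤ W x) {f : (ι → ℤ) → ℂ} (hf : ∀ x, ‖f x‖ ≤ W x) :
    ((∑ c ∈ box D, ‖∑' z, f (c + cz D * z)‖ ^ 2 : ℝ) : ℂ) =
      ∑' z : ι → ℤ, ∑' x : ι → ℤ, f (x + cz D * z) * (starRingEnd ℂ) (f x) := by
  have hDz := cz_ne hD
  have hfs : Summable f := Summable.of_norm_bounded hW hf
  have hcorr : Summable fun p : (ι → ℤ) × (ι → ℤ) =>
      f (p.2 + cz D * p.1) * (starRingEnd ℂ) (f p.2) := by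
    refine Summable.of_norm_bounded (summable_corrv hDz hW hW0) fun p => ?_
    rw [norm_mul, Complex.norm_conj]
    exact mul_le_mul (hf _) (hf _) (norm_nonneg _) (hW0 _)
  have hA : ∀ z : ι → ℤ, Summable fun x => f (x + cz D * z) * (starRingEnd ℂ) (f x) :=
    fun z => hcorr.prod_factor z
  -- one class
  have hone : ∀ c : ι → ℤ, ((‖∑' z, f (c + cz D * z)‖ ^ 2 : ℝ) : ℂ) =
      ∑' z : ι → ℤ, ∑' y : ι → ℤ, f (c + cz D * y + cz D * z) *
        (starRingEnd ℂ) (f (c + cz D * y)) := by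
    intro c
    set g : (ι → ℤ) → ℂ := fun z => f (c + cz D * z) with hg
    have hgs : Summable g := summable_sv hD hfs c
    have hgn : Summable fun z => ‖g z‖ := hgs.norm
    have hprod : Summable fun p : (ι → ℤ) × (ι → ℤ) => g (p.1 + p.2) * (starRingEnd ℂ) (g p.2) := by
      have h1 : Summable fun p : (ι → ℤ) × (ι → ℤ) => ‖g p.1‖ * ‖g p.2‖ :=
        hgn.mul_of_nonneg hgn (fun _ => norm_nonneg _) (fun _ => norm_nonneg _)
      have hinj : Function.Injective (fun p : (ι → ℤ) × (ι → ℤ) => (p.1 + p.2, p.2)) := by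
        intro p p' h
        obtain ⟨h1, h2⟩ := Prod.mk.inj h
        rw [h2] at h1
        exact Prod.ext (add_right_cancel h1) h2
      have h2 := h1.comp_injective hinj
      refine Summable.of_norm (h2.congr fun p => ?_)
      rw [norm_mul, Complex.norm_conj]
      rfl
    have e1 : ((‖∑' z, g z‖ ^ 2 : ℝ) : ℂ) = (∑' z, g z) * (starRingEnd ℂ) (∑' z, g z) := by
      rw [Complex.mul_conj, Complex.normSq_eq_norm_sq]
    rw [e1, Complex.conj_tsum]
    have e2 : ∀ y : ι → ℤ, (∑' z, g z) * (starRingEnd ℂ) (g y) =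
        ∑' z, g (z + y) * (starRingEnd ℂ) (g y) := by
      intro y
      rw [← tsum_mul_right, ← (Equiv.addRight y).tsum_eq]
      rfl
    rw [← tsum_mul_left]
    simp_rw [e2]
    rw [hprod.tsum_comm' (fun z => hprod.prod_factor z) (fun y => ?_)]
    · refine tsum_congr fun z => tsum_congr fun y => ?_
      simp only [hg]
      have e3 : c + cz D * (z + y) = c + cz D * y + cz D * z := by ring
      rw [e3]
    · exact hprod.prod_symm.prod_factor y
  push_cast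
  have h3 : ∑ c ∈ box D, ((‖∑' z, f (c + cz D * z)‖ : ℝ) : ℂ) ^ 2 =
      ∑ c ∈ box D, ∑' z : ι → ℤ, ∑' y : ι → ℤ, f (c + cz D * y + cz D * z) *
        (starRingEnd ℂ) (f (c + cz D * y)) := by
    refine Finset.sum_congr rfl fun c _ => ?_
    rw [← hone]
    push_cast
    rfl
  rw [h3]
  have hz : ∀ c ∈ box D, Summable fun z : ι → ℤ => ∑' y : ι → ℤ,
      f (c + cz D * y + cz D * z) * (starRingEnd ℂ) (f (c + cz D * y)) := by
    intro c _
    have hinj : Function.Injective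
        (fun p : (ι → ℤ) × (ι → ℤ) => (p.1, c + cz D * p.2)) := by
      intro p p' h
      obtain ⟨h0, h2⟩ := Prod.mk.inj h
      exact Prod.ext h0 (sv_inj hDz c h2)
    exact (hcorr.comp_injective hinj).prod
  rw [← Summable.tsum_finsetSum hz]
  refine tsum_congr fun z => ?_
  rw [tsum_clsv hD (hA z)]

/-- differencing for a family -/
theorem vdcv {I : Type} {D : ι → ℕ} (hD : ∀ i, 0 < D i) {w : I → ℝ} (hw : Summable w)
    (hw0 : ∀ k, 0 ≤ w k) {W : (ι → ℤ) → ℝ} (hW : Summable W)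
    (hW0 : ∀ x, 0 ≤ W x) {f : I → (ι → ℤ) → ℂ} (hf : ∀ k x, ‖f k x‖ ≤ W x) :
    ∑' k, ENNReal.ofReal (w k) * ‖∑' x, f k x‖ₑ ^ 2 ≤
      ((∏ i, D i : ℕ) : ℝ≥0∞) *
        ∑' z : ι → ℤ, ‖∑' k, (w k : ℂ) * ∑' x, f k (x + cz D * z) * (starRingEnd ℂ) (f k x)‖ₑ := by
  have hDz := cz_ne hD
  obtain ⟨N, hN⟩ : ∃ N : ℕ, N = ∏ i, D i := ⟨_, rfl⟩
  rw [← hN]
  have hN0 : 0 < N := by rw [hN]; exact Finset.prod_pos fun i _ => hD i
  have hDr : (0 : ℝ) < N := by exact_mod_cast hN0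
  -- Cauchy
  have h1 : ∀ k, ‖∑' x, f k x‖ ^ 2 ≤
      N * ∑ c ∈ box D, ‖∑' z, f k (c + cz D * z)‖ ^ 2 := by
    intro k
    have hs : Summable (f k) := Summable.of_norm_bounded hW (hf k)
    rw [tsum_clsv hD hs]
    have h2 : ‖∑ u ∈ box D, ∑' z, f k (u + cz D * z)‖ ^ 2 ≤
        (∑ u ∈ box D, ‖∑' z, f k (u + cz D * z)‖) ^ 2 :=
      pow_le_pow_left₀ (norm_nonneg _) (norm_sum_le _ _) 2
    refine h2.trans ?_
    have h3 := sq_sum_le_card_mul_sum_sq (s := box D)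
      (f := fun u => ‖∑' z, f k (u + cz D * z)‖)
    rwa [card_box, ← hN] at h3
  set Q : I → ℝ := fun k => ∑ c ∈ box D, ‖∑' z, f k (c + cz D * z)‖ ^ 2 with hQ
  have hQ0 : ∀ k, 0 ≤ Q k := fun k => Finset.sum_nonneg fun c _ => sq_nonneg _
  set A : I → (ι → ℤ) → ℂ := fun k z => ∑' x, f k (x + cz D * z) * (starRingEnd ℂ) (f k x) with hA
  have hQA : ∀ k, ((Q k : ℝ) : ℂ) = ∑' z, A k z := fun k => sq_clsv hD hW hW0 (hf k)
  -- summability of everything
  have hcorr := summable_corrv hDz hW hW0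
  set B : (ι → ℤ) → ℝ := fun z => ∑' x, W (x + cz D * z) * W x with hB
  have hBs : Summable B := hcorr.prod
  have hAB : ∀ k z, ‖A k z‖ ≤ B z := by
    intro k z
    have h4 : Summable fun x => W (x + cz D * z) * W x := hcorr.prod_factor z
    refine tsum_of_norm_bounded h4.hasSum fun x => ?_
    rw [norm_mul, Complex.norm_conj]
    exact mul_le_mul (hf _ _) (hf _ _) (norm_nonneg _) (hW0 _)
  have hB0 : ∀ z, 0 ≤ B z := fun z => tsum_nonneg fun x => mul_nonneg (hW0 _) (hW0 _)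
  have hjoint : Summable fun p : I × (ι → ℤ) => (w p.1 : ℂ) * A p.1 p.2 := by
    refine Summable.of_norm_bounded (hw.mul_of_nonneg hBs hw0 hB0) fun p => ?_
    rw [norm_mul, Complex.norm_real, Real.norm_of_nonneg (hw0 _)]
    exact mul_le_mul_of_nonneg_left (hAB _ _) (hw0 _)
  have hkz : ∑' k, ((w k * Q k : ℝ) : ℂ) = ∑' z, ∑' k, (w k : ℂ) * A k z := by
    have h5 := hjoint.tsum_comm' (f := fun k z => (w k : ℂ) * A k z)
      (fun k => hjoint.prod_factor k) (fun z => hjoint.prod_symm.prod_factor z)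
    rw [h5]
    refine tsum_congr fun k => ?_
    push_cast
    rw [hQA, tsum_mul_left]
  have hQs : Summable fun k => w k * Q k := by
    have h6 : Summable fun k => ((w k * Q k : ℝ) : ℂ) := by
      have h7 := hjoint.prod
      refine h7.congr fun k => ?_
      push_cast
      rw [hQA, tsum_mul_left]
    exact_mod_cast h6
  calc ∑' k, ENNReal.ofReal (w k) * ‖∑' x, f k x‖ₑ ^ 2
      ≤ ∑' k, ENNReal.ofReal (N * (w k * Q k)) := by
        refine ENNReal.tsum_le_tsum fun k => ?_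
        rw [← ofReal_norm, ← ENNReal.ofReal_pow (norm_nonneg _), ← ENNReal.ofReal_mul (hw0 k)]
        apply ENNReal.ofReal_le_ofReal
        calc w k * ‖∑' x, f k x‖ ^ 2 ≤ w k * (N * Q k) := mul_le_mul_of_nonneg_left (h1 k) (hw0 k)
          _ = _ := by ring
    _ = ENNReal.ofReal (N * ∑' k, w k * Q k) := by
        rw [← tsum_mul_left, ENNReal.ofReal_tsum_of_nonneg (fun k => by
          have := hw0 k
          have := hQ0 k
          positivity) (hQs.mul_left _)]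
    _ = N * ‖∑' k, ((w k * Q k : ℝ) : ℂ)‖ₑ := by
        rw [ENNReal.ofReal_mul hDr.le, ENNReal.ofReal_natCast, ← Complex.ofReal_tsum,
          ← ofReal_norm, Complex.norm_real, Real.norm_of_nonneg]
        exact tsum_nonneg fun k => mul_nonneg (hw0 k) (hQ0 k)
    _ = N * ‖∑' z, ∑' k, (w k : ℂ) * A k z‖ₑ := by rw [hkz]
    _ ≤ _ := by
        gcongr
        exact enorm_tsum_le_tsum_enorm

/-- the weights of the shifts -/
noncomputable def wv (M : Matrix ι ι ℝ) (μ : ℝ) (D : ι → ℕ) (z : ι → ℤ) : ℝ≥0∞ :=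
  if z = 0 then 0 else ENNReal.ofReal (gw M μ 0 (cz D * z))

/-- family version, with the diagonal separated -/
lemma es_famv {I : Type} {D : ι → ℕ} (hD : ∀ i, 0 < D i) {M : Matrix ι ι ℝ} (h : M.det ≠ 0)
    {lam : ℝ} (hl : 0 < lam) (c : ι → ℝ) {w : I → ℝ} (hw : Summable w) (hw0 : ∀ k, 0 ≤ w k)
    {u : I → (ι → ℤ) → ℂ} (hu : ∀ k x, ‖u k x‖ ≤ 1) :
    ∑' k, ENNReal.ofReal (w k) * ‖ES M lam c (u k)‖ₑ ^ 2 ≤
      ((∏ i, D i : ℕ) : ℝ≥0∞) * ((∑' k, ENNReal.ofReal (w k)) * ENNReal.ofReal (th0 M (2 * lam)) +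
        ∑' z : ι → ℤ, wv M (lam / 2) D z *
          ‖∑' k, (w k : ℂ) * ES M (2 * lam) (c - (1 / 2 : ℝ) • (M *ᵥ rc (cz D * z)))
            (Df (cz D * z) (u k))‖ₑ) := by
  have h1 := vdcv hD hw hw0 (summable_gw h hl c) (fun x => (gw_pos _ _ _ _).le)
    (f := fun k x => u k x * ((gw M lam c x : ℝ) : ℂ)) (fun k x => by
      rw [norm_mul, Complex.norm_real, Real.norm_of_nonneg (gw_pos _ _ _ _).le]
      exact mul_le_of_le_one_left (gw_pos _ _ _ _).le (hu k x))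
  refine h1.trans ?_
  gcongr
  have h2 : ∀ z : ι → ℤ, ‖∑' k, (w k : ℂ) * ∑' x, u k (x + cz D * z) *
      ((gw M lam c (x + cz D * z) : ℝ) : ℂ) * (starRingEnd ℂ) (u k x * ((gw M lam c x : ℝ) : ℂ))‖ₑ =
      ENNReal.ofReal (gw M (lam / 2) 0 (cz D * z)) *
        ‖∑' k, (w k : ℂ) * ES M (2 * lam) (c - (1 / 2 : ℝ) • (M *ᵥ rc (cz D * z)))
            (Df (cz D * z) (u k))‖ₑ := by
    intro z
    have e1 : ∀ k, ∑' x, u k (x + cz D * z) *
      ((gw M lam c (x + cz D * z) : ℝ) : ℂ) * (starRingEnd ℂ) (u k x * ((gw M lam c x : ℝ) : ℂ)) =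
      ((gw M (lam / 2) 0 (cz D * z) : ℝ) : ℂ) *
        ES M (2 * lam) (c - (1 / 2 : ℝ) • (M *ᵥ rc (cz D * z))) (Df (cz D * z) (u k)) := by
      intro k
      unfold ES Df
      rw [← tsum_mul_left]
      refine tsum_congr fun x => ?_
      rw [map_mul, Complex.conj_ofReal]
      have e2 := gw_mul_gw M lam c x (cz D * z)
      have e3 : ((gw M lam c (x + cz D * z) : ℝ) : ℂ) * ((gw M lam c x : ℝ) : ℂ) =
          ((gw M (lam / 2) 0 (cz D * z) : ℝ) : ℂ) *
          ((gw M (2 * lam) (c - (1 / 2 : ℝ) • (M *ᵥ rc (cz D * z))) x : ℝ) : ℂ) := by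
        rw [← Complex.ofReal_mul, ← Complex.ofReal_mul, e2]
      linear_combination (u k (x + cz D * z) * (starRingEnd ℂ) (u k x)) * e3
    simp_rw [e1]
    have e4 : ∑' k, (w k : ℂ) * (((gw M (lam / 2) 0 (cz D * z) : ℝ) : ℂ) *
        ES M (2 * lam) (c - (1 / 2 : ℝ) • (M *ᵥ rc (cz D * z))) (Df (cz D * z) (u k))) =
        ((gw M (lam / 2) 0 (cz D * z) : ℝ) : ℂ) * ∑' k, (w k : ℂ) *
        ES M (2 * lam) (c - (1 / 2 : ℝ) • (M *ᵥ rc (cz D * z))) (Df (cz D * z) (u k)) := by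
      rw [← tsum_mul_left]
      refine tsum_congr fun k => ?_
      ring
    rw [e4, enorm_mul, ← ofReal_norm, Complex.norm_real, Real.norm_of_nonneg (gw_pos _ _ _ _).le]
  simp_rw [h2]
  rw [ENNReal.tsum_eq_add_tsum_ite 0]
  refine add_le_add ?_ (ENNReal.tsum_le_tsum fun z => ?_)
  · have e0 : cz D * (0 : ι → ℤ) = 0 := mul_zero _
    have e1 : gw M (lam / 2) 0 (0 : ι → ℤ) = 1 := by
      unfold gw gz
      have : rc (0 : ι → ℤ) = 0 := by funext i; simp [rc]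
      rw [this, Matrix.mulVec_zero, sub_zero, nsq_zero]
      simp
    rw [e0, e1, ENNReal.ofReal_one, one_mul]
    have h3 : ‖∑' k, (w k : ℂ) * ES M (2 * lam) (c - (1 / 2 : ℝ) • (M *ᵥ rc (0 : ι → ℤ)))
        (Df 0 (u k))‖ ≤ (∑' k, w k) * th0 M (2 * lam) := by
      rw [← tsum_mul_right]
      refine tsum_of_norm_bounded (hw.mul_right _).hasSum fun k => ?_
      rw [norm_mul, Complex.norm_real, Real.norm_of_nonneg (hw0 k)]
      exact mul_le_mul_of_nonneg_left (norm_ES_le h (by positivity) _ (Df_norm (hu k))) (hw0 k)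
    rw [← ofReal_norm]
    refine (ENNReal.ofReal_le_ofReal h3).trans ?_
    rw [ENNReal.ofReal_mul (tsum_nonneg hw0), ENNReal.ofReal_tsum_of_nonneg hw0 hw]
  · unfold wv
    split_ifs
    · exact zero_le
    · exact le_rfl

/-- single version -/
lemma es_onev {D : ι → ℕ} (hD : ∀ i, 0 < D i) {M : Matrix ι ι ℝ} (h : M.det ≠ 0) {lam : ℝ}
    (hl : 0 < lam) (c : ι → ℝ) {u : (ι → ℤ) → ℂ} (hu : ∀ x, ‖u x‖ ≤ 1) :
    ‖ES M lam c u‖ₑ ^ 2 ≤
      ((∏ i, D i : ℕ) : ℝ≥0∞) * (ENNReal.ofReal (th0 M (2 * lam)) +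
        ∑' z : ι → ℤ, wv M (lam / 2) D z *
          ‖ES M (2 * lam) (c - (1 / 2 : ℝ) • (M *ᵥ rc (cz D * z))) (Df (cz D * z) u)‖ₑ) := by
  have hs : Summable (fun _ : Unit => (1 : ℝ)) := Summable.of_finite
  have h1 := es_famv (I := Unit) hD h hl c (w := fun _ => 1) hs (fun _ => zero_le_one)
    (u := fun _ => u) (fun _ => hu)
  simpa using h1

end Pool.Agent.J4H31.V
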