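import Pool.Agent.J4H31.V.V2

/-!
Sums of products of locally linear functions with lattice weights.
-/

set_option autoImplicit false
set_option linter.unusedSectionVars false

open MeasureTheory Matrix Complex
open Pool.Agent.Y766.R3 (eu)
open scoped ENNReal

namespace Pool.Agent.J4H31.V

/-- locally linear functions of two variables -/
def LL (p c j N : ℕ) (f : ℤ → ℤ → ℂ) : Prop :=
  ∃ (φ : ℤ → ℤ → ℂ) (b1 b2 : ℤ → ℤ → ℤ),
    (∀ u w, ‖φ u w‖ ≤ 1) ∧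
    (∀ u w x y : ℤ, f (u + (p : ℤ) ^ c * x) (w + (p : ℤ) ^ c * y) =
      φ u w * (eu ((b1 u w : ℝ) * x / (p : ℝ) ^ j) * eu ((b2 u w : ℝ) * y / (p : ℝ) ^ j))) ∧
    (∀ u w, (0 ≤ b1 u w ∧ b1 u w < (p : ℤ) ^ j) ∧ 0 ≤ b2 u w ∧ b2 u w < (p : ℤ) ^ j) ∧
    (∀ u w, φ u w ≠ 0 → 1 ≤ j → b1 u w ≠ 0 ∧ b2 u w ≠ 0) ∧
    (∀ β1 β2 : ℤ, (((Finset.Ico (0 : ℤ) ((p : ℤ) ^ c)) ×ˢ (Finset.Ico (0 : ℤ) ((p : ℤ) ^ c))).filter
      (fun a => φ a.1 a.2 ≠ 0 ∧ b1 a.1 a.2 = β1 ∧ b2 a.1 a.2 = β2)).card ≤ N)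

lemma LL.mono {p c j N N' : ℕ} (h : N ≤ N') {f : ℤ → ℤ → ℂ} (hf : LL p c j N f) : LL p c j N' f := by
  obtain ⟨φ, b1, b2, h1, h2, h3, h4, h5⟩ := hf
  exact ⟨φ, b1, b2, h1, h2, h3, h4, fun a b => (h5 a b).trans h⟩

lemma LL.norm_le {p c j N : ℕ} {f : ℤ → ℤ → ℂ} (hf : LL p c j N f) (u w : ℤ) : ‖f u w‖ ≤ 1 := by
  obtain ⟨φ, b1, b2, h1, h2, -⟩ := hf
  have := h2 u w 0 0
  rw [mul_zero, add_zero, add_zero] at this
  rw [this, norm_mul, norm_mul, eu_norm', eu_norm', mul_one, mul_one]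
  exact h1 u w

theorem fibv {κ β : Type} [DecidableEq β] (S : Finset κ) (T : Finset β) (g : κ → β) (V : β → ℝ)
    (hV : ∀ b ∈ T, 0 ≤ V b) (hmaps : ∀ i ∈ S, g i ∈ T) (M : ℕ)
    (hM : ∀ b ∈ T, (S.filter (fun k => g k = b)).card ≤ M) :
    ∑ i ∈ S, V (g i) ≤ M * ∑ b ∈ T, V b := by
  classical
  rw [← Finset.sum_fiberwise_of_maps_to (g := g) hmaps, Finset.mul_sum]
  refine Finset.sum_le_sum fun b hb => ?_
  have e : ∑ i ∈ S with g i = b, V (g i) = ((S.filter (fun i => g i = b)).card : ℝ) * V b := by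
    rw [← nsmul_eq_mul, ← Finset.sum_const]
    refine Finset.sum_congr rfl fun i hi => ?_
    rw [Finset.mem_filter] at hi
    rw [hi.2]
  rw [e]
  refine mul_le_mul_of_nonneg_right ?_ (hV b hb)
  exact_mod_cast hM b hb

variable {ι : Type} [Fintype ι] [DecidableEq ι]

/-- the decomposition of the double sum -/
lemma dec2v {P : ι → ℕ} (hP : ∀ i, 0 < P i) {W1 W2 : (ι → ℤ) → ℝ} (hW1 : Summable W1)
    (hW2 : Summable W2) (h10 : ∀ x, 0 ≤ W1 x) (h20 : ∀ x, 0 ≤ W2 x) (F : (ι → ℤ) → (ι → ℤ) → ℂ)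
    (hF : ∀ l h, ‖F l h‖ ≤ 1) :
    ∑' k : ι → ℤ, ∑' x : ι → ℤ, F k x * ((W1 k : ℂ) * (W2 x : ℂ)) =
      ∑ u ∈ box P, ∑ w ∈ box P,
        ∑' z : ι → ℤ, ∑' y : ι → ℤ, F (u + cz P * z) (w + cz P * y) *
          ((W1 (u + cz P * z) : ℂ) * (W2 (w + cz P * y) : ℂ)) := by
  have hb : ∀ {V1 V2 : (ι → ℤ) → ℝ} (_ : Summable V2) (_ : ∀ x, 0 ≤ V1 x) (_ : ∀ x, 0 ≤ V2 x)
      (G : (ι → ℤ) → (ι → ℤ) → ℂ) (_ : ∀ l h, ‖G l h‖ ≤ 1) (k : ι → ℤ),
      Summable (fun x : ι → ℤ => G k x * ((V1 k : ℂ) * (V2 x : ℂ))) ∧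
      ‖∑' x : ι → ℤ, G k x * ((V1 k : ℂ) * (V2 x : ℂ))‖ ≤ V1 k * ∑' x, V2 x := by
    intro V1 V2 hV2 h1 h2 G hG k
    have hn : ∀ x, ‖G k x * ((V1 k : ℂ) * (V2 x : ℂ))‖ ≤ V1 k * V2 x := by
      intro x
      rw [norm_mul, norm_mul, Complex.norm_real, Complex.norm_real, Real.norm_of_nonneg (h1 k),
        Real.norm_of_nonneg (h2 x)]
      exact mul_le_of_le_one_left (mul_nonneg (h1 k) (h2 x)) (hG _ _)
    refine ⟨Summable.of_norm_bounded (hV2.mul_left (V1 k)) hn, ?_⟩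
    exact (tsum_of_norm_bounded (hV2.mul_left (V1 k)).hasSum hn).trans (le_of_eq tsum_mul_left)
  set g : (ι → ℤ) → ℂ := fun k => ∑' x : ι → ℤ, F k x * ((W1 k : ℂ) * (W2 x : ℂ)) with hg
  have hgs : Summable g := Summable.of_norm_bounded (hW1.mul_right (∑' x, W2 x))
    fun k => (hb hW2 h10 h20 F hF k).2
  have e0 : ∑' k : ι → ℤ, ∑' x : ι → ℤ, F k x * ((W1 k : ℂ) * (W2 x : ℂ)) = ∑' k, g k := rfl
  rw [e0, tsum_clsv hP hgs]
  refine Finset.sum_congr rfl fun u _ => ?_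
  have e1 : ∀ z, g (u + cz P * z) = ∑ w ∈ box P, ∑' y : ι → ℤ,
      F (u + cz P * z) (w + cz P * y) *
          ((W1 (u + cz P * z) : ℂ) * (W2 (w + cz P * y) : ℂ)) := by
    intro z
    simp only [hg]
    rw [tsum_clsv hP (hb hW2 h10 h20 F hF _).1]
  simp_rw [e1]
  rw [Summable.tsum_finsetSum]
  intro w _
  have hW2' : Summable fun y => W2 (w + cz P * y) := summable_sv hP hW2 w
  have hW1' : Summable fun y => W1 (u + cz P * y) := summable_sv hP hW1 u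
  exact Summable.of_norm_bounded (hW1'.mul_right (∑' y, W2 (w + cz P * y)))
    fun z => (hb (V1 := fun z => W1 (u + cz P * z)) hW2' (fun _ => h10 _) (fun _ => h20 _)
      (fun z y => F (u + cz P * z) (w + cz P * y)) (fun _ _ => hF _ _) z).2

/-- powers of `p` -/
def pw (p : ℕ) (e : ι → ℕ) : ι → ℕ := fun i => p ^ e i

/-- powers of `p`, real numbers -/
noncomputable def ew (p : ℕ) (e : ι → ℕ) : ι → ℝ := fun i => (p : ℝ) ^ e i

lemma cr_pw (p : ℕ) (e : ι → ℕ) : cr (pw p e) = ew p e := by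
  funext i
  simp [cr, pw, ew]

lemma pw_pos {p : ℕ} (hp : 0 < p) (e : ι → ℕ) (i : ι) : 0 < pw p e i := pow_pos hp _

lemma ew_pos {p : ℕ} (hp : 0 < p) (e : ι → ℕ) (i : ι) : 0 < ew p e i := by
  unfold ew
  have : (0 : ℝ) < p := by exact_mod_cast hp
  positivity

lemma ew_ne {p : ℕ} (hp : 0 < p) (e : ι → ℕ) (i : ι) : ew p e i ≠ 0 := (ew_pos hp e i).ne'

lemma ew_inv_ne {p : ℕ} (hp : 0 < p) (e : ι → ℕ) (i : ι) : (ew p e)⁻¹ i ≠ 0 := by
  simp only [Pi.inv_apply]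
  exact inv_ne_zero (ew_ne hp e i)

lemma ew_add (p : ℕ) (e f : ι → ℕ) : ew p (e + f) = ew p e * ew p f := by
  funext i
  simp [ew, pow_add]

lemma prod_ew (p : ℕ) (e : ι → ℕ) : ∏ i, ew p e i = (p : ℝ) ^ ∑ i, e i := by
  unfold ew
  rw [Finset.prod_pow_eq_pow_sum]

lemma prod_ew_inv (p : ℕ) (e : ι → ℕ) : ∏ i, (ew p e)⁻¹ i = ((p : ℝ) ^ ∑ i, e i)⁻¹ := by
  simp only [Pi.inv_apply]
  rw [Finset.prod_inv_distrib, prod_ew]

lemma prod_pw (p : ℕ) (e : ι → ℕ) : ∏ i, pw p e i = p ^ ∑ i, e i := by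
  unfold pw
  rw [Finset.prod_pow_eq_pow_sum]

/-- **sums of products of locally linear functions** -/
theorem linGv {p : ℕ} (hp : 0 < p) {c j N : ι → ℕ} {f : ι → ℤ → ℤ → ℂ}
    (hf : ∀ i, LL p (c i) (j i) (N i) (f i)) (hj : ∃ i, 1 ≤ j i)
    {M1 M2 : Matrix ι ι ℝ} (hM1 : M1.det ≠ 0) (hM2 : M2.det ≠ 0) {lam1 lam2 : ℝ} (hl1 : 0 < lam1)
    (hl2 : 0 < lam2) (v1 v2 : ι → ℝ) {C1 C2 : ℝ}
    (hB1 : Bal C1 (du M1 * Dm (ew p (c + j))⁻¹)) (hB2 : Bal C2 (du M2 * Dm (ew p (c + j))⁻¹)) :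
    ‖∑' k : ι → ℤ, ∑' x : ι → ℤ, (∏ i, f i (k i) (x i)) *
      ((gw M1 lam1 v1 k : ℂ) * (gw M2 lam2 v2 x : ℂ))‖ ≤
      ((∏ i, N i : ℕ) : ℝ) * ((C1 * (p : ℝ) ^ ∑ i, j i) * (C2 * (p : ℝ) ^ ∑ i, j i)) := by
  classical
  have hF1 : ∀ k x : ι → ℤ, ‖∏ i, f i (k i) (x i)‖ ≤ 1 := by
    intro k x
    rw [norm_prod]
    exact Finset.prod_le_one (fun _ _ => norm_nonneg _) fun i _ => (hf i).norm_le _ _
  choose φ b1 b2 h1 h2 h3 h4 h5 using hf
  set P := pw p c with hP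
  have hP0 : ∀ i, 0 < P i := pw_pos hp c
  set q := pw p j with hq
  have hq0 : ∀ i, 0 < q i := pw_pos hp j
  have hpj : ∀ i, (p : ℝ) ^ j i = (q i : ℝ) := fun i => by rw [hq]; unfold pw; push_cast; rfl
  rw [dec2v hP0 (summable_gw hM1 hl1 v1) (summable_gw hM2 hl2 v2) (fun x => (gw_pos _ _ _ _).le)
    (fun x => (gw_pos _ _ _ _).le) (fun k x => ∏ i, f i (k i) (x i)) hF1]
  -- the bound for one lattice
  have key : ∀ {M : Matrix ι ι ℝ} (_ : M.det ≠ 0) {lam : ℝ} (_ : 0 < lam) (v : ι → ℝ) {C : ℝ}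
      (_ : Bal C (du M * Dm (ew p (c + j))⁻¹)),
      (∀ u b : ι → ℤ, ‖∑' z : ι → ℤ, (∏ i, eu ((b i : ℝ) * z i / (p : ℝ) ^ j i)) *
        (gw M lam v (u + cz P * z) : ℂ)‖ ≤ TT (M * Dm (cr P)) lam (fr q b)) ∧
      ∑ b ∈ (box q).erase 0, TT (M * Dm (cr P)) lam (fr q b) ≤ C * (p : ℝ) ^ ∑ i, j i := by
    intro M hM lam hl v C hB
    have hdet : (M * Dm (cr P)).det ≠ 0 := det_mul_Dm_ne hM (cr_ne hP0)
    refine ⟨fun u b => ?_, ?_⟩
    · simp_rw [gw_sv, rc_cz]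
      have h1 := norm_le_TT hdet hl (v - M *ᵥ rc u) (fr q b)
      refine le_trans (le_of_eq ?_) h1
      congr 1
      refine tsum_congr fun z => ?_
      congr 1
      have e1 : fr q b ⬝ᵥ rc z = ∑ i, (b i : ℝ) * z i / (p : ℝ) ^ j i := by
        unfold dotProduct fr rc
        refine Finset.sum_congr rfl fun i _ => ?_
        rw [hpj]
        ring
      rw [e1]
      unfold eu
      rw [← Complex.exp_sum]
      congr 1
      push_cast
      rw [Finset.mul_sum]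
    · have h1 := sum_TTv hdet hl (C := C) (q := q) hq0 (by
        rw [du_mul_Dm M (cr_ne hP0), mul_Dm_mul]
        have e : (cr P)⁻¹ * (cr q)⁻¹ = (ew p (c + j))⁻¹ := by
          rw [hP, hq, cr_pw, cr_pw, ew_add, mul_inv]
        rw [e]
        exact hB)
      refine h1.trans (le_of_eq ?_)
      congr 1
      rw [hq]
      unfold pw
      push_cast
      rw [Finset.prod_pow_eq_pow_sum]
  obtain ⟨k1, k2⟩ := key hM1 hl1 v1 hB1
  obtain ⟨l1, l2⟩ := key hM2 hl2 v2 hB2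
  set V1 : (ι → ℤ) → ℝ := fun b => TT (M1 * Dm (cr P)) lam1 (fr q b) with hV1
  set V2 : (ι → ℤ) → ℝ := fun b => TT (M2 * Dm (cr P)) lam2 (fr q b) with hV2
  have hV10 : ∀ b, 0 ≤ V1 b := fun b => (norm_nonneg _).trans (k1 0 b)
  have hV20 : ∀ b, 0 ≤ V2 b := fun b => (norm_nonneg _).trans (l1 0 b)
  set B1 : (ι → ℤ) × (ι → ℤ) → ι → ℤ := fun a i => b1 i (a.1 i) (a.2 i) with hB1d
  set B2 : (ι → ℤ) × (ι → ℤ) → ι → ℤ := fun a i => b2 i (a.1 i) (a.2 i) with hB2d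
  have hX : ∀ u w : ι → ℤ, ‖∑' z : ι → ℤ, ∑' y : ι → ℤ,
      (∏ i, f i ((u + cz P * z) i) ((w + cz P * y) i)) *
          ((gw M1 lam1 v1 (u + cz P * z) : ℂ) * (gw M2 lam2 v2 (w + cz P * y) : ℂ))‖ ≤
      if ∀ i, φ i (u i) (w i) ≠ 0 then V1 (B1 (u, w)) * V2 (B2 (u, w)) else 0 := by
    intro u w
    have e1 : ∀ z y : ι → ℤ, (∏ i, f i ((u + cz P * z) i) ((w + cz P * y) i)) *
          ((gw M1 lam1 v1 (u + cz P * z) : ℂ) * (gw M2 lam2 v2 (w + cz P * y) : ℂ)) =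
        (∏ i, φ i (u i) (w i)) * ((∏ i, eu ((B1 (u, w) i : ℝ) * z i / (p : ℝ) ^ j i)) *
          (gw M1 lam1 v1 (u + cz P * z) : ℂ)) *
          ((∏ i, eu ((B2 (u, w) i : ℝ) * y i / (p : ℝ) ^ j i)) *
          (gw M2 lam2 v2 (w + cz P * y) : ℂ)) := by
      intro z y
      have e2 : ∏ i, f i ((u + cz P * z) i) ((w + cz P * y) i) =
          (∏ i, φ i (u i) (w i)) * ((∏ i, eu ((B1 (u, w) i : ℝ) * z i / (p : ℝ) ^ j i)) *
          ∏ i, eu ((B2 (u, w) i : ℝ) * y i / (p : ℝ) ^ j i)) := by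
        rw [← Finset.prod_mul_distrib, ← Finset.prod_mul_distrib]
        refine Finset.prod_congr rfl fun i _ => ?_
        have e3 := h2 i (u i) (w i) (z i) (y i)
        have e4 : (cz P i : ℤ) = (p : ℤ) ^ c i := by rw [hP]; unfold cz pw; push_cast; rfl
        simp only [Pi.add_apply, Pi.mul_apply]
        rw [e4, e3]
      rw [e2]
      ring
    simp_rw [e1]
    simp_rw [tsum_mul_left, tsum_mul_right]
    rw [tsum_mul_left, norm_mul, norm_mul, norm_prod]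
    split_ifs with hc
    · have h6 : ∏ i, ‖φ i (u i) (w i)‖ ≤ 1 :=
        Finset.prod_le_one (fun _ _ => norm_nonneg _) fun i _ => h1 i _ _
      calc _ ≤ 1 * V1 (B1 (u, w)) * V2 (B2 (u, w)) :=
            mul_le_mul (mul_le_mul h6 (k1 _ _) (norm_nonneg _) zero_le_one) (l1 _ _) (norm_nonneg _)
              (by rw [one_mul]; exact hV10 _)
        _ = _ := by rw [one_mul]
    · push Not at hc
      obtain ⟨i, hi⟩ := hc
      have h6 : ∏ i, ‖φ i (u i) (w i)‖ = 0 := Finset.prod_eq_zero (Finset.mem_univ i) (by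
        rw [hi, norm_zero])
      rw [h6, zero_mul, zero_mul]
  set S := ((box P) ×ˢ (box P)).filter (fun a => ∀ i, φ i (a.1 i) (a.2 i) ≠ 0) with hS
  have hX2 : ‖∑ u ∈ box P, ∑ w ∈ box P, ∑' z : ι → ℤ, ∑' y : ι → ℤ,
      (∏ i, f i ((u + cz P * z) i) ((w + cz P * y) i)) *
          ((gw M1 lam1 v1 (u + cz P * z) : ℂ) * (gw M2 lam2 v2 (w + cz P * y) : ℂ))‖ ≤
      ∑ a ∈ S, V1 (B1 a) * V2 (B2 a) := by
    rw [hS, Finset.sum_filter, Finset.sum_product]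
    refine (norm_sum_le _ _).trans (Finset.sum_le_sum fun u _ => ?_)
    exact (norm_sum_le _ _).trans (Finset.sum_le_sum fun w _ => hX u w)
  refine hX2.trans ?_
  have hfib := fibv S ((box q).erase 0 ×ˢ (box q).erase 0) (fun a => (B1 a, B2 a))
    (fun b => V1 b.1 * V2 b.2) (fun b _ => mul_nonneg (hV10 _) (hV20 _)) (by
      intro a ha
      rw [hS, Finset.mem_filter, Finset.mem_product] at ha
      obtain ⟨-, ha⟩ := ha
      obtain ⟨i0, hi0⟩ := hj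
      have hm := h4 i0 _ _ (ha i0) hi0
      rw [Finset.mem_product, Finset.mem_erase, Finset.mem_erase, mem_box, mem_box]
      have hqz : ∀ i, ((q i : ℕ) : ℤ) = (p : ℤ) ^ j i := fun i => by
        rw [hq]; unfold pw; push_cast; rfl
      refine ⟨⟨fun h => hm.1 (congrFun h i0), fun i => ?_⟩, fun h => hm.2 (congrFun h i0), fun i => ?_⟩
      · rw [hqz]; exact (h3 i _ _).1
      · rw [hqz]; exact (h3 i _ _).2) (∏ i, N i) (by
      rintro ⟨β1, β2⟩ -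
      have hsub : (S.filter (fun a => (B1 a, B2 a) = (β1, β2))).card ≤
          (Fintype.piFinset fun i => (((Finset.Ico (0 : ℤ) ((p : ℤ) ^ c i)) ×ˢ
            (Finset.Ico (0 : ℤ) ((p : ℤ) ^ c i))).filter (fun a => φ i a.1 a.2 ≠ 0 ∧
            b1 i a.1 a.2 = β1 i ∧ b2 i a.1 a.2 = β2 i))).card := by
        refine Finset.card_le_card_of_injOn (fun a i => (a.1 i, a.2 i)) ?_ ?_
        · intro a ha
          rw [Finset.mem_coe, Finset.mem_filter, hS, Finset.mem_filter, Finset.mem_product] at ha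
          obtain ⟨⟨⟨a1, a2⟩, a3⟩, a4⟩ := ha
          rw [mem_box] at a1 a2
          have hPz : ∀ i, ((P i : ℕ) : ℤ) = (p : ℤ) ^ c i := fun i => by
            rw [hP]; unfold pw; push_cast; rfl
          obtain ⟨a5, a6⟩ := Prod.mk.inj a4
          rw [Finset.mem_coe, Fintype.mem_piFinset]
          intro i
          rw [Finset.mem_filter, Finset.mem_product, Finset.mem_Ico, Finset.mem_Ico, ← hPz]
          exact ⟨⟨a1 i, a2 i⟩, a3 i, congrFun a5 i, congrFun a6 i⟩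
        · intro a _ a' _ h
          have h6 : ∀ i, (a.1 i, a.2 i) = (a'.1 i, a'.2 i) := fun i => congrFun h i
          exact Prod.ext (funext fun i => (Prod.mk.inj (h6 i)).1)
            (funext fun i => (Prod.mk.inj (h6 i)).2)
      refine hsub.trans ?_
      rw [Fintype.card_piFinset]
      exact Finset.prod_le_prod (fun _ _ => Nat.zero_le _) fun i _ => h5 i _ _)
  refine hfib.trans ?_
  rw [Finset.sum_product]
  refine mul_le_mul_of_nonneg_left ?_ (Nat.cast_nonneg _)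
  simp_rw [← Finset.mul_sum]
  rw [← Finset.sum_mul]
  exact mul_le_mul k2 l2 (Finset.sum_nonneg fun b _ => hV20 b)
    ((Finset.sum_nonneg fun b _ => hV10 b).trans k2)

end Pool.Agent.J4H31.V
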