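import Pool.Agent.J4H31.V.V3
import Pool.Agent.J4H31.A6

/-!
The differenced phases are locally linear.
-/

set_option autoImplicit false
set_option linter.unusedSectionVars false

open MeasureTheory Matrix Complex
open Pool.Agent.Y766.R3 (eu)
open Pool.Agent.Y766.R7 Pool.Agent.Y779.R3 Pool.Agent.Y924.R7 Pool.Agent.Y924.R7.Lin
open scoped ENNReal

namespace Pool.Agent.J4H31.V

/-- phases with unit gradients -/
theorem LL_of {p r τ : ℕ} [NeZero (p ^ r)] (hp : p.Prime) (hτ : τ + 2 ≤ r)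
    (l0 h0 T : ℤ) (hT1 : (p : ℤ) ^ τ ∣ T) (hT2 : ¬ (p : ℤ) ^ (τ + 1) ∣ T)
    (ph ψ1 ψ2 : ℤ → ℤ → ZMod (p ^ r))
    (hunit : ∀ l h : ℤ, (p : ℤ) ∣ l - l0 → (p : ℤ) ∣ h - h0 → IsUnit (ψ1 l h) ∧ IsUnit (ψ2 l h))
    (hloc : ∀ c : ℕ, 1 ≤ c → (T : ZMod (p ^ r)) * ((p : ZMod (p ^ r)) ^ c) ^ 2 = 0 →
      ∀ l h : ℤ, (p : ℤ) ∣ l - l0 → (p : ℤ) ∣ h - h0 → ∀ x y : ℤ,
      ph (l + (p : ℤ) ^ c * x) (h + (p : ℤ) ^ c * y) =
        ph l h + (T : ZMod (p ^ r)) * (p : ZMod (p ^ r)) ^ c * (ψ1 l h * x + ψ2 l h * y))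
    (hinj : ∀ (s : ℕ) (l h l' h' : ℤ), (p : ℤ) ∣ l - l0 → (p : ℤ) ∣ h - h0 → (p : ℤ) ∣ l' - l0 →
      (p : ℤ) ∣ h' - h0 → (p : ZMod (p ^ r)) ^ s * ψ1 l h = (p : ZMod (p ^ r)) ^ s * ψ1 l' h' →
      (p : ZMod (p ^ r)) ^ s * ψ2 l h = (p : ZMod (p ^ r)) ^ s * ψ2 l' h' →
      (p : ZMod (p ^ r)) ^ s * ((l - l' : ℤ) : ZMod (p ^ r)) = 0 ∧
        (p : ZMod (p ^ r)) ^ s * ((h - h' : ℤ) : ZMod (p ^ r)) = 0) :
    LL p ((r - τ + 1) / 2) ((r - τ) / 2) (p ^ 2) (fun l h =>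
      if (p : ℤ) ∣ l - l0 ∧ (p : ℤ) ∣ h - h0 then (ZMod.stdAddChar (ph l h) : ℂ) else 0) := by
  classical
  obtain ⟨T', hT'⟩ := hT1
  have hT'p : ¬ (p : ℤ) ∣ T' := by
    rintro ⟨k, rfl⟩
    apply hT2
    refine ⟨k, ?_⟩
    rw [hT', pow_succ]; ring
  have uT' : IsUnit ((T' : ℤ) : ZMod (p ^ r)) := unit_int hp hT'p
  obtain ⟨ρ, hρ⟩ : ∃ ρ, ρ = r - τ := ⟨_, rfl⟩
  obtain ⟨c, hc⟩ : ∃ c, c = (ρ + 1) / 2 := ⟨_, rfl⟩
  obtain ⟨j, hj⟩ : ∃ j, j = ρ / 2 := ⟨_, rfl⟩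
  rw [← hρ, ← hj, ← hc]
  have hcj : c + j = ρ := by omega
  have hj1 : 1 ≤ j := by omega
  have hjc : j ≤ c := by omega
  have hcj1 : c ≤ j + 1 := by omega
  have hjr : j ≤ r := by omega
  have hrj : r - j = τ + c := by omega
  have hp0 : 0 < p := hp.pos
  have hTR : ((T : ℤ) : ZMod (p ^ r)) = (p : ZMod (p ^ r)) ^ τ * T' := by
    rw [hT']; push_cast; ring
  have hTc : ((T : ℤ) : ZMod (p ^ r)) * ((p : ZMod (p ^ r)) ^ c) ^ 2 = 0 := by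
    have h1 : (p : ZMod (p ^ r)) ^ (τ + c + c) = 0 := pi_zero (by omega)
    rw [hTR]
    have h2 : (p : ZMod (p ^ r)) ^ τ * T' * ((p : ZMod (p ^ r)) ^ c) ^ 2 =
        (p : ZMod (p ^ r)) ^ (τ + c + c) * T' := by rw [pow_add, pow_add]; ring
    rw [h2, h1, zero_mul]
  have hTP : ∀ y : ZMod (p ^ r), ((T : ℤ) : ZMod (p ^ r)) * (p : ZMod (p ^ r)) ^ c * y =
      (p : ZMod (p ^ r)) ^ (r - j) * (T' * y) := by
    intro y
    rw [hTR, hrj, pow_add]; ring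
  obtain ⟨q, hq⟩ : ∃ q : ℕ, q = p ^ j := ⟨_, rfl⟩
  have hq0 : 0 < q := by rw [hq]; positivity
  have hqr : (p : ℝ) ^ j = (q : ℝ) := by rw [hq]; push_cast; rfl
  have hqz : (p : ℤ) ^ j = (q : ℤ) := by rw [hq]; push_cast; rfl
  -- the residues
  obtain ⟨bb, hbb⟩ : ∃ bb : (ℤ → ℤ → ZMod (p ^ r)) → ℤ × ℤ → ℕ,
    bb = fun ψ i => (((T' : ℤ) : ZMod (p ^ r)) * ψ i.1 i.2).val % q := ⟨_, rfl⟩
  have hblt : ∀ ψ i, bb ψ i < q := by
    intro ψ i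
    rw [hbb]
    exact Nat.mod_lt _ hq0
  have hbmem : ∀ ψ : ℤ → ℤ → ZMod (p ^ r), ∀ i : ℤ × ℤ, IsUnit (ψ i.1 i.2) → bb ψ i ≠ 0 := by
    intro ψ i hu h1
    rw [hbb] at h1
    have h2 : q ∣ (((T' : ℤ) : ZMod (p ^ r)) * ψ i.1 i.2).val := Nat.dvd_of_mod_eq_zero h1
    have h3 : p ∣ (((T' : ℤ) : ZMod (p ^ r)) * ψ i.1 i.2).val :=
      (by rw [hq]; exact dvd_pow_self p (by omega) : p ∣ q).trans h2
    obtain ⟨m, hm⟩ := h3
    have h4 : ((T' : ℤ) : ZMod (p ^ r)) * ψ i.1 i.2 = p * (m : ZMod (p ^ r)) := by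
      rw [← Nat.cast_mul, ← hm, ZMod.natCast_zmod_val]
    have h5 := uT'.mul hu
    rw [h4] at h5
    exact not_unit_pi hp (by omega) _ h5
  -- one linear phase
  have hlin : ∀ ψ : ℤ → ℤ → ZMod (p ^ r), ∀ i : ℤ × ℤ, ∀ x : ℤ,
      (ZMod.stdAddChar (((T : ℤ) : ZMod (p ^ r)) * (p : ZMod (p ^ r)) ^ c *
        (ψ i.1 i.2 * (x : ZMod (p ^ r)))) : ℂ) = eu ((bb ψ i : ℝ) * x / q) := by
    intro ψ i x
    have e : ((T : ℤ) : ZMod (p ^ r)) * (p : ZMod (p ^ r)) ^ c * (ψ i.1 i.2 * (x : ZMod (p ^ r))) =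
        (((p ^ (r - j) * bb ψ i : ℕ) * x : ℤ) : ZMod (p ^ r)) := by
      rw [← mul_assoc, hTP, val_mod hjr, ← hq]
      have e3 : (((T' : ℤ) : ZMod (p ^ r)) * ψ i.1 i.2).val % q = bb ψ i := by rw [hbb]
      rw [e3]
      push_cast
      ring
    rw [e, ZMod.stdAddChar_coe]
    unfold eu
    congr 1
    have hpc : (p : ℂ) ≠ 0 := by exact_mod_cast hp.ne_zero
    have e2 : (p:ℂ) ^ r = (p:ℂ) ^ (r - j) * (p:ℂ) ^ j := by
      rw [← pow_add]; congr 1; omega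
    rw [hq]
    push_cast
    rw [e2]
    field_simp
  have hdvd : ∀ (u : ℤ) (x l0 : ℤ), (p : ℤ) ∣ u + (p : ℤ) ^ c * x - l0 ↔ (p : ℤ) ∣ u - l0 := by
    intro u x l0
    have e : u + (p : ℤ) ^ c * x - l0 = (u - l0) + (p : ℤ) ^ c * x := by ring
    rw [e]
    exact dvd_add_left (Dvd.dvd.mul_right (dvd_pow_self _ (by omega)) _)
  refine ⟨fun u w => if (p : ℤ) ∣ u - l0 ∧ (p : ℤ) ∣ w - h0 then (ZMod.stdAddChar (ph u w) : ℂ)
    else 0, fun u w => (bb ψ1 (u, w) : ℤ), fun u w => (bb ψ2 (u, w) : ℤ), ?_, ?_, ?_, ?_, ?_⟩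
  · intro u w
    beta_reduce
    split_ifs
    · exact le_of_eq (AddChar.norm_apply _ _)
    · simp
  · intro u w x y
    beta_reduce
    by_cases huw : (p : ℤ) ∣ u - l0 ∧ (p : ℤ) ∣ w - h0
    · rw [if_pos ⟨(hdvd u _ l0).2 huw.1, (hdvd w _ h0).2 huw.2⟩, if_pos huw]
      have e2 := hloc c (by omega) hTc u w huw.1 huw.2 x y
      rw [e2, mul_add, AddChar.map_add_eq_mul, AddChar.map_add_eq_mul,
        hlin ψ1 (u, w), hlin ψ2 (u, w), hqr]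
      push_cast
      ring
    · rw [if_neg (fun hh => huw ⟨(hdvd u _ l0).1 hh.1, (hdvd w _ h0).1 hh.2⟩), if_neg huw, zero_mul]
  · intro u w
    beta_reduce
    rw [hqz]
    have a1 := hblt ψ1 (u, w)
    have a2 := hblt ψ2 (u, w)
    exact ⟨⟨by positivity, by exact_mod_cast a1⟩, by positivity, by exact_mod_cast a2⟩
  · intro u w hne _
    beta_reduce at hne ⊢
    have huw : (p : ℤ) ∣ u - l0 ∧ (p : ℤ) ∣ w - h0 := by
      by_contra hcon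
      rw [if_neg hcon] at hne
      exact hne rfl
    have h1 := hunit u w huw.1 huw.2
    exact ⟨by exact_mod_cast hbmem ψ1 (u, w) h1.1, by exact_mod_cast hbmem ψ2 (u, w) h1.2⟩
  · intro β1 β2
    set S := ((Finset.Ico (0 : ℤ) ((p : ℤ) ^ c)) ×ˢ (Finset.Ico (0 : ℤ) ((p : ℤ) ^ c))).filter
      (fun a => (if (p : ℤ) ∣ a.1 - l0 ∧ (p : ℤ) ∣ a.2 - h0 then (ZMod.stdAddChar (ph a.1 a.2) : ℂ)
    else 0) ≠ 0 ∧ (bb ψ1 (a.1, a.2) : ℤ) = β1 ∧ (bb ψ2 (a.1, a.2) : ℤ) = β2) with hS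
    rcases S.eq_empty_or_nonempty with hE | ⟨i, hi⟩
    · rw [hE]; simp
    obtain ⟨N, hN⟩ : ∃ N : ℕ, N = p ^ (c - j) := ⟨_, rfl⟩
    have hPN : (p : ℤ) ^ c = ((q * N : ℕ) : ℤ) := by
      rw [hq, hN, ← pow_add]
      push_cast
      congr 1
      omega
    have hmemS : ∀ a ∈ S, (a.1 ∈ Finset.Ico (0 : ℤ) ((p : ℤ) ^ c) ∧
        a.2 ∈ Finset.Ico (0 : ℤ) ((p : ℤ) ^ c)) ∧ ((p : ℤ) ∣ a.1 - l0 ∧ (p : ℤ) ∣ a.2 - h0) ∧
        (bb ψ1 a : ℤ) = β1 ∧ (bb ψ2 a : ℤ) = β2 := by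
      intro a ha
      rw [hS, Finset.mem_filter, Finset.mem_product] at ha
      refine ⟨ha.1, ?_, ha.2.2⟩
      by_contra hcon
      rw [if_neg hcon] at ha
      exact ha.2.1 rfl
    obtain ⟨-, hi2, hi3, hi4⟩ := hmemS i hi
    have hcan : ∀ ψ : ℤ → ℤ → ZMod (p ^ r), ∀ k : ℤ × ℤ, bb ψ k = bb ψ i →
        (p : ZMod (p ^ r)) ^ (r - j) * ψ k.1 k.2 = (p : ZMod (p ^ r)) ^ (r - j) * ψ i.1 i.2 := by
      intro ψ k hk
      have h1 := val_mod hjr (((T' : ℤ) : ZMod (p ^ r)) * ψ k.1 k.2)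
      have h2 := val_mod hjr (((T' : ℤ) : ZMod (p ^ r)) * ψ i.1 i.2)
      rw [hbb] at hk
      simp only at hk
      rw [← hq, hk] at h1
      rw [← hq, ← h1] at h2
      apply uT'.mul_left_cancel
      linear_combination -h2
    have hsub : S ⊆
        ((Finset.Ico (0:ℤ) ((q * N : ℕ) : ℤ)).filter (fun u => (q:ℤ) ∣ u - i.1)) ×ˢ
        ((Finset.Ico (0:ℤ) ((q * N : ℕ) : ℤ)).filter (fun u => (q:ℤ) ∣ u - i.2)) := by
      intro k hk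
      obtain ⟨hk1, hk2, hk3, hk4⟩ := hmemS k hk
      have g1 : bb ψ1 k = bb ψ1 i := by exact_mod_cast hk3.trans hi3.symm
      have g2 : bb ψ2 k = bb ψ2 i := by exact_mod_cast hk4.trans hi4.symm
      obtain ⟨h7, h8⟩ := hinj (r - j) k.1 k.2 i.1 i.2 hk2.1 hk2.2 hi2.1 hi2.2
        (hcan ψ1 k g1) (hcan ψ2 k g2)
      have hdv : ∀ x : ℤ, (p : ZMod (p ^ r)) ^ (r - j) * ((x : ℤ) : ZMod (p ^ r)) = 0 →
          (q : ℤ) ∣ x := by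
        intro x hx
        have e : (p : ZMod (p ^ r)) ^ (r - j) * ((x : ℤ) : ZMod (p ^ r)) =
            (((p : ℤ) ^ (r - j) * x : ℤ) : ZMod (p ^ r)) := by push_cast; ring
        rw [e, ZMod.intCast_zmod_eq_zero_iff_dvd] at hx
        have e2 : ((p ^ r : ℕ) : ℤ) = (p : ℤ) ^ (r - j) * q := by
          rw [hq]; push_cast; rw [← pow_add]; congr 1; omega
        rw [e2] at hx
        exact Int.dvd_of_mul_dvd_mul_left (by positivity) hx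
      rw [Finset.mem_product, Finset.mem_filter, Finset.mem_filter, ← hPN]
      exact ⟨⟨hk1.1, hdv _ h7⟩, ⟨hk1.2, hdv _ h8⟩⟩
    refine (Finset.card_le_card hsub).trans ?_
    rw [Finset.card_product]
    refine (Nat.mul_le_mul (card_class hq0 _) (card_class hq0 _)).trans ?_
    rw [hN, ← pow_add]
    exact Nat.pow_le_pow_right hp0 (by omega)

/-- degenerate phases -/
theorem LL_deg {p r : ℕ} [NeZero (p ^ r)] (hp : p.Prime) (l0 h0 : ℤ)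
    (ph : ℤ → ℤ → ZMod (p ^ r))
    (hloc : ∀ l h : ℤ, (p : ℤ) ∣ l - l0 → (p : ℤ) ∣ h - h0 → ∀ x y : ℤ,
      ph (l + (p : ℤ) ^ 1 * x) (h + (p : ℤ) ^ 1 * y) = ph l h) :
    LL p 1 0 1 (fun l h =>
      if (p : ℤ) ∣ l - l0 ∧ (p : ℤ) ∣ h - h0 then (ZMod.stdAddChar (ph l h) : ℂ) else 0) := by
  classical
  have hdvd : ∀ (u : ℤ) (x l0 : ℤ), (p : ℤ) ∣ u + (p : ℤ) ^ 1 * x - l0 ↔ (p : ℤ) ∣ u - l0 := by
    intro u x l0
    have e : u + (p : ℤ) ^ 1 * x - l0 = (u - l0) + (p : ℤ) ^ 1 * x := by ring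
    rw [e]
    exact dvd_add_left (Dvd.dvd.mul_right (dvd_pow_self _ (by omega)) _)
  refine ⟨fun u w => if (p : ℤ) ∣ u - l0 ∧ (p : ℤ) ∣ w - h0 then (ZMod.stdAddChar (ph u w) : ℂ)
    else 0, fun _ _ => 0, fun _ _ => 0, ?_, ?_, ?_, ?_, ?_⟩
  · intro u w
    beta_reduce
    split_ifs
    · exact le_of_eq (AddChar.norm_apply _ _)
    · simp
  · intro u w x y
    beta_reduce
    have e0 : eu (((0 : ℤ) : ℝ) * (x : ℝ) / (p : ℝ) ^ 0) = 1 := by simp [eu]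
    have e1 : eu (((0 : ℤ) : ℝ) * (y : ℝ) / (p : ℝ) ^ 0) = 1 := by simp [eu]
    rw [e0, e1, mul_one, mul_one]
    by_cases huw : (p : ℤ) ∣ u - l0 ∧ (p : ℤ) ∣ w - h0
    · rw [if_pos ⟨(hdvd u _ l0).2 huw.1, (hdvd w _ h0).2 huw.2⟩, if_pos huw,
        hloc u w huw.1 huw.2 x y]
    · rw [if_neg (fun hh => huw ⟨(hdvd u _ l0).1 hh.1, (hdvd w _ h0).1 hh.2⟩), if_neg huw]
  · intro u w
    simp
  · intro u w _ h
    omega
  · intro β1 β2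
    refine (Finset.card_le_card (t := ((Finset.Ico (0:ℤ) ((p * 1 : ℕ) : ℤ)).filter
      (fun u => (p:ℤ) ∣ u - l0)) ×ˢ ((Finset.Ico (0:ℤ) ((p * 1 : ℕ) : ℤ)).filter
      (fun u => (p:ℤ) ∣ u - h0))) ?_).trans ?_
    · intro a ha
      rw [Finset.mem_filter, Finset.mem_product] at ha
      beta_reduce at ha
      have huw : (p : ℤ) ∣ a.1 - l0 ∧ (p : ℤ) ∣ a.2 - h0 := by
        by_contra hcon
        rw [if_neg hcon] at ha
        exact ha.2.1 rfl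
      rw [Finset.mem_product, Finset.mem_filter, Finset.mem_filter]
      have e1 : ((p * 1 : ℕ) : ℤ) = (p : ℤ) ^ 1 := by push_cast; ring
      rw [e1]
      exact ⟨⟨ha.1.1, huw.1⟩, ha.1.2, huw.2⟩
    · rw [Finset.card_product]
      exact (Nat.mul_le_mul (card_class hp.pos _) (card_class hp.pos _)).trans (by norm_num)

/-- the constant function -/
theorem LL_one {p : ℕ} : LL p 0 0 1 (fun _ _ => 1) := by
  classical
  refine ⟨fun _ _ => 1, fun _ _ => 0, fun _ _ => 0, fun _ _ => by simp, ?_, fun _ _ => by simp,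
    fun _ _ _ h => by omega, fun β1 β2 => ?_⟩
  · intro u w x y
    simp [eu]
  · refine (Finset.card_filter_le _ _).trans ?_
    rw [Finset.card_product]
    simp

/-- good families of differenced phases -/
def Good (p r sb : ℕ) (T : ℤ) (f : ℤ → ℤ → ℂ) : Prop :=
  ∃ t c j : ℕ, sb ≤ t ∧ t ≤ r ∧ (p : ℤ) ^ t ∣ T ∧ LL p c j (p ^ 2) f ∧ c + j ≤ r ∧
    2 * j ≤ r - t ∧ (j = 0 → (p : ℤ) ^ (r - 1) ∣ T)

/-- one-dimensional difference -/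
noncomputable def Dz (t : ℤ) (g : ℤ → ℂ) (x : ℤ) : ℂ := g (x + t) * (starRingEnd ℂ) (g x)

/-- the phase functions in one variable -/
noncomputable def U1 (p r : ℕ) [NeZero (p ^ r)] (l0 h0 : ℤ) (Ψ : ZMod (p ^ r) → ℂ)
    (Y C : ZMod (p ^ r)) (l x : ℤ) : ℂ :=
  if (p : ℤ) ∣ x - h0 then
    Ψ (Y * (aa p r l0 l * aa p r h0 x)) * ZMod.stdAddChar (C * (aa p r l0 l * aa p r h0 x)) else 0

lemma U1_norm {p r : ℕ} [NeZero (p ^ r)] {l0 h0 : ℤ} {Ψ : ZMod (p ^ r) → ℂ}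
    (hΨ : ∀ y, ‖Ψ y‖ = 1) (Y C : ZMod (p ^ r)) (l x : ℤ) : ‖U1 p r l0 h0 Ψ Y C l x‖ ≤ 1 := by
  unfold U1
  split_ifs
  · rw [norm_mul, hΨ, AddChar.norm_apply]; norm_num
  · simp

/-- the triple difference in one variable -/
lemma Dz3 {p r : ℕ} (hsq : S_SQ) [NeZero (p ^ r)] (hp : p.Prime) (hp2 : p ≠ 2)
    (hr : 1 ≤ r) {a u : ℕ} (ha : 1 ≤ a) (hua : u ≤ a) {l0 h0 : ℤ} (hh0 : ¬ (p : ℤ) ∣ h0)
    {Ψ : ZMod (p ^ r) → ℂ} (hΨ : ∀ y, ‖Ψ y‖ = 1)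
    (hΨ2 : ∀ y z : ZMod (p ^ r), Ψ (y + (p : ZMod (p ^ r)) ^ u * z) = Ψ y)
    (Y C : ZMod (p ^ r)) (l t1 t2 t3 x : ℤ)
    (h1 : (p : ℤ) ^ a ∣ t1) (h2 : (p : ℤ) ^ a ∣ t2) (h3 : (p : ℤ) ^ a ∣ t3) :
    Dz t3 (Dz t2 (Dz t1 (U1 p r l0 h0 Ψ Y C l))) x =
      if (p : ℤ) ∣ x - h0 then
        ZMod.stdAddChar (C * (aa p r l0 l * dif3 p r h0 x t1 t2 t3))
      else 0 := by
  have key := Df3 (ι := Unit) (i0 := ()) (l0 := l0) hsq hp hp2 hr ha hua hh0 hΨ hΨ2 Y C l (0 : Unit → ℝ)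
    (fun _ => t1) (fun _ => t2) (fun _ => t3) (fun _ => x) h1 h2 h3
  rw [← key]
  have e : ∀ y : Unit → ℤ, Un () p r l0 h0 Ψ Y C l (0 : Unit → ℝ) y = U1 p r l0 h0 Ψ Y C l (y ()) := by
    intro y
    unfold Un U1
    rw [zero_dotProduct]
    simp [eu]
  unfold Df Dz
  simp only [e, Pi.add_apply]

/-- the phase functions have good triple differences -/
theorem good_U1 {p r : ℕ} (hsq : S_SQ) (htd : S_TD) (hvar : S_VAR) (hinj : S_INJ)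
    [NeZero (p ^ r)] (hp : p.Prime) (hp7 : 7 ≤ p) {a u : ℕ} (ha : 1 ≤ a) (hua : u ≤ a)
    (hr : 1 ≤ r) (hra : r ≤ 7 * a) {l0 h0 : ℤ} (hl0 : ¬ (p : ℤ) ∣ l0) (hh0 : ¬ (p : ℤ) ∣ h0)
    {Ψ : ZMod (p ^ r) → ℂ} (hΨ : ∀ y, ‖Ψ y‖ = 1)
    (hΨ2 : ∀ y z : ZMod (p ^ r), Ψ (y + (p : ZMod (p ^ r)) ^ u * z) = Ψ y)
    (Y : ZMod (p ^ r)) {C : ZMod (p ^ r)} (hC : IsUnit C) {t1 t2 t3 : ℤ} (h1 : (p : ℤ) ^ a ∣ t1)
    (h2 : (p : ℤ) ^ a ∣ t2) (h3 : (p : ℤ) ^ a ∣ t3) {sb : ℕ} (hsb : sb ≤ r)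
    (hsbT : (p : ℤ) ^ sb ∣ t1 * t2 * t3) :
    Good p r sb (t1 * t2 * t3) (fun l x => (if (p : ℤ) ∣ l - l0 then 1 else 0) *
      Dz t3 (Dz t2 (Dz t1 (U1 p r l0 h0 Ψ Y C l))) x) := by
  have hp2 : p ≠ 2 := by omega
  have hpa : ∀ t : ℤ, (p : ℤ) ^ a ∣ t → (p : ℤ) ∣ t := fun t h => (dvd_pow_self _ (by omega)).trans h
  obtain ⟨T, hT⟩ : ∃ T, T = t1 * t2 * t3 := ⟨_, rfl⟩
  have hfun : (fun l x => (if (p : ℤ) ∣ l - l0 then (1 : ℂ) else 0) *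
      Dz t3 (Dz t2 (Dz t1 (U1 p r l0 h0 Ψ Y C l))) x) =
      (fun l h => if (p : ℤ) ∣ l - l0 ∧ (p : ℤ) ∣ h - h0 then
        (ZMod.stdAddChar (C * ((T : ZMod (p ^ r)) * Lam p r l0 h0 t1 t2 t3 l h)) : ℂ) else 0) := by
    funext l h
    rw [Dz3 hsq hp hp2 hr ha hua hh0 hΨ hΨ2 Y C l t1 t2 t3 h h1 h2 h3]
    by_cases hl : (p : ℤ) ∣ l - l0
    · by_cases hx : (p : ℤ) ∣ h - h0
      · rw [if_pos hl, if_pos hx, if_pos ⟨hl, hx⟩, one_mul,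
          htd p r a hp hp2 hr ha hra h0 h t1 t2 t3 hh0 hx h1 h2 h3, hT]
        congr 2
        unfold Lam
        ring
      · rw [if_neg hx, if_neg (show ¬ ((p : ℤ) ∣ l - l0 ∧ (p : ℤ) ∣ h - h0) from fun h => hx h.2),
          mul_zero]
    · rw [if_neg hl, if_neg (show ¬ ((p : ℤ) ∣ l - l0 ∧ (p : ℤ) ∣ h - h0) from fun h => hl h.1),
        zero_mul]
  rw [hfun, ← hT]
  rw [← hT] at hsbT
  obtain ⟨i1, i2⟩ := hinj p r hp hp7 hr l0 h0 t1 t2 t3 hl0 hh0 (hpa _ h1) (hpa _ h2) (hpa _ h3)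
  by_cases hdeg : (p : ℤ) ^ (r - 1) ∣ T
  · -- degenerate
    have hTz : ((T : ℤ) : ZMod (p ^ r)) * (p : ZMod (p ^ r)) = 0 := by
      have e1 : ((T : ℤ) : ZMod (p ^ r)) * (p : ZMod (p ^ r)) = ((T * p : ℤ) : ZMod (p ^ r)) := by
        push_cast; rfl
      rw [e1, ZMod.intCast_zmod_eq_zero_iff_dvd]
      have e2 : ((p ^ r : ℕ) : ℤ) = (p : ℤ) ^ (r - 1) * p := by
        push_cast
        rw [← pow_succ]
        congr 1
        omega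
      rw [e2]
      exact mul_dvd_mul_right hdeg _
    refine ⟨max sb (r - 1), 1, 0, le_max_left _ _, by omega, ?_, ?_, by omega, by omega,
      fun _ => hdeg⟩
    · rcases le_total sb (r - 1) with h | h
      · rw [max_eq_right h]; exact hdeg
      · rw [max_eq_left h]; exact hsbT
    · refine (LL_deg hp l0 h0 _ ?_).mono (Nat.one_le_pow _ _ hp.pos)
      intro l h hl hh x y
      have h4 := hvar p r 1 hp (by omega) hr le_rfl l0 h0 l h t1 t2 t3 hl0 hh0 hl hh (hpa _ h1)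
        (hpa _ h2) (hpa _ h3) (T : ZMod (p ^ r)) (by
          rw [pow_one, pow_two, ← mul_assoc, hTz, zero_mul]) x y
      rw [h4, pow_one, hTz, zero_mul, add_zero]
  · -- the main case
    have hex : ∃ j, ¬ (p : ℤ) ^ j ∣ T := ⟨r - 1, hdeg⟩
    classical
    set j := Nat.find hex with hj
    have hj1 : ¬ (p : ℤ) ^ j ∣ T := Nat.find_spec hex
    have hj2 : ∀ i < j, (p : ℤ) ^ i ∣ T := fun i hi => by
      have := Nat.find_min hex hi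
      exact not_not.1 this
    have hje : j ≤ r - 1 := Nat.find_min' hex hdeg
    have hj0 : 0 < j := by
      by_contra h0
      have h1 : j = 0 := by omega
      rw [h1, pow_zero] at hj1
      exact hj1 (one_dvd _)
    obtain ⟨τ, hτ⟩ : ∃ τ, j = τ + 1 := ⟨j - 1, by omega⟩
    rw [hτ] at hj1
    have hτ1 : (p : ℤ) ^ τ ∣ T := hj2 τ (by omega)
    have hsbτ : sb ≤ τ := by
      by_contra hcon
      exact hj1 ((pow_dvd_pow _ (by omega)).trans hsbT)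
    have hτr : τ + 2 ≤ r := by omega
    refine ⟨τ, (r - τ + 1) / 2, (r - τ) / 2, hsbτ, by omega, hτ1, ?_, by omega, by omega, by omega⟩
    refine LL_of hp hτr l0 h0 T hτ1 hj1 _ (fun l h => C * psi1 p r l0 h0 t1 t2 t3 l h)
      (fun l h => C * psi2 p r l0 h0 t1 t2 t3 l h)
      (fun l h hl hh => ⟨hC.mul (i1 l h hl hh).1, hC.mul (i1 l h hl hh).2⟩)
      (fun c hc hT' l h hl hh x y => ?_)
      (fun s l h l' h' hl hh hl' hh' e1 e2 => ?_)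
    · have := hvar p r c hp (by omega) hr hc l0 h0 l h t1 t2 t3 hl0 hh0 hl hh (hpa _ h1) (hpa _ h2)
        (hpa _ h3) _ hT' x y
      rw [this]
      ring
    · refine i2 s l h l' h' hl hh hl' hh' ?_ ?_
      · apply hC.mul_left_cancel
        linear_combination e1
      · apply hC.mul_left_cancel
        linear_combination e2

/-- the constant function is good -/
theorem good_one {p : ℕ} (hp : 0 < p) (T : ℤ) : Good p 0 0 T (fun _ _ => 1) :=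
  ⟨0, 0, 0, le_rfl, le_rfl, by simp, LL_one.mono (Nat.one_le_pow _ _ hp), by omega, by omega,
    fun _ => by simp⟩

end Pool.Agent.J4H31.V
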