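import Pool.Agent.J4H31.V.V4
import Pool.Agent.J4H31.A8

/-!
The sum over the triple differences, in several coordinates.
-/

set_option autoImplicit false
set_option linter.unusedSectionVars false

open MeasureTheory Matrix Complex
open Pool.Agent.Y766.R3 (eu)
open Pool.Agent.Y766.R7 Pool.Agent.Y779.R3 Pool.Agent.Y924.R7 Pool.Agent.Y924.R7.Lin
open scoped ENNReal

namespace Pool.Agent.J4H31.V

/-! ### the triple sum -/

section triple

variable {Z : Type}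

/-- the triple sum -/
noncomputable def T3 (g1 g2 g3 : Z → ℝ≥0∞) (F : Z → Z → Z → ℝ≥0∞) : ℝ≥0∞ :=
  ∑' z1, g1 z1 * ∑' z2, g2 z2 * ∑' z3, g3 z3 * F z1 z2 z3

lemma T3_mono (g1 g2 g3 : Z → ℝ≥0∞) {F G : Z → Z → Z → ℝ≥0∞} (h : ∀ a b c, F a b c ≤ G a b c) :
    T3 g1 g2 g3 F ≤ T3 g1 g2 g3 G := by
  unfold T3
  refine ENNReal.tsum_le_tsum fun z1 => ?_
  gcongr with z2 z3
  exact h z1 z2 z3

lemma T3_add (g1 g2 g3 : Z → ℝ≥0∞) (F G : Z → Z → Z → ℝ≥0∞) :
    T3 g1 g2 g3 (fun a b c => F a b c + G a b c) = T3 g1 g2 g3 F + T3 g1 g2 g3 G := by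
  unfold T3
  simp_rw [mul_add, ENNReal.tsum_add, mul_add, ENNReal.tsum_add, mul_add, ENNReal.tsum_add]

lemma T3_mul (g1 g2 g3 : Z → ℝ≥0∞) (y : ℝ≥0∞) (F : Z → Z → Z → ℝ≥0∞) :
    T3 g1 g2 g3 (fun a b c => y * F a b c) = y * T3 g1 g2 g3 F := by
  unfold T3
  have h3 : ∀ z1 z2, ∑' z3, g3 z3 * (y * F z1 z2 z3) = y * ∑' z3, g3 z3 * F z1 z2 z3 := by
    intro z1 z2
    rw [← ENNReal.tsum_mul_left]
    exact tsum_congr fun z => by ring
  simp_rw [h3]
  have h2 : ∀ z1, ∑' z2, g2 z2 * (y * ∑' z3, g3 z3 * F z1 z2 z3) =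
      y * ∑' z2, g2 z2 * ∑' z3, g3 z3 * F z1 z2 z3 := by
    intro z1
    rw [← ENNReal.tsum_mul_left]
    exact tsum_congr fun z => by ring
  simp_rw [h2]
  rw [← ENNReal.tsum_mul_left]
  exact tsum_congr fun z => by ring

lemma T3_zero (g1 g2 g3 : Z → ℝ≥0∞) : T3 g1 g2 g3 (fun _ _ _ => 0) = 0 := by
  unfold T3
  simp

lemma T3_sum {κ : Type} (g1 g2 g3 : Z → ℝ≥0∞) (R : Finset κ) (F : κ → Z → Z → Z → ℝ≥0∞) :
    T3 g1 g2 g3 (fun a b c => ∑ k ∈ R, F k a b c) = ∑ k ∈ R, T3 g1 g2 g3 (F k) := by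
  classical
  induction R using Finset.induction_on with
  | empty => simp only [Finset.sum_empty]; exact T3_zero g1 g2 g3
  | insert k R hk ih =>
    simp_rw [Finset.sum_insert hk]
    rw [T3_add, ih]

lemma T3_prod (g1 g2 g3 i1 i2 i3 : Z → ℝ≥0∞) :
    T3 g1 g2 g3 (fun a b c => i1 a * i2 b * i3 c) =
      (∑' z, g1 z * i1 z) * (∑' z, g2 z * i2 z) * (∑' z, g3 z * i3 z) := by
  unfold T3
  have h3 : ∀ z1 z2, ∑' z3, g3 z3 * (i1 z1 * i2 z2 * i3 z3) =
      i1 z1 * (i2 z2 * ∑' z3, g3 z3 * i3 z3) := by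
    intro z1 z2
    rw [← mul_assoc, ← ENNReal.tsum_mul_left]
    exact tsum_congr fun z => by ring
  simp_rw [h3]
  have h2 : ∀ z1, ∑' z2, g2 z2 * (i1 z1 * (i2 z2 * ∑' z3, g3 z3 * i3 z3)) =
      i1 z1 * ((∑' z2, g2 z2 * i2 z2) * ∑' z3, g3 z3 * i3 z3) := by
    intro z1
    rw [← ENNReal.tsum_mul_right, ← ENNReal.tsum_mul_left]
    exact tsum_congr fun z => by ring
  simp_rw [h2]
  rw [mul_assoc (∑' z, g1 z * i1 z)]
  refine Eq.trans ?_ ENNReal.tsum_mul_right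
  exact tsum_congr fun z => by ring

end triple

variable {ι : Type} [Fintype ι] [DecidableEq ι]

/-! ### counting shifts -/

lemma tsum_th1 {M : Matrix ι ι ℝ} (h : M.det ≠ 0) {μ : ℝ} (hμ : 0 < μ) :
    ∑' z : ι → ℤ, (if z = 0 then 0 else ENNReal.ofReal (gw M μ 0 z)) = ENNReal.ofReal (th1 M μ) := by
  unfold th1
  rw [ENNReal.ofReal_tsum_of_nonneg _ (summable_th1 h hμ)]
  · refine tsum_congr fun z => ?_
    split_ifs <;> simp
  · intro z
    split_ifs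
    · exact le_rfl
    · exact (gw_pos _ _ _ _).le

lemma cz_pw_add (p : ℕ) (e f : ι → ℕ) : cz (pw p (e + f)) = cz (pw p e) * cz (pw p f) := by
  funext i
  simp [cz, pw, pow_add]

lemma cz_pw_apply (p : ℕ) (e : ι → ℕ) (i : ι) : cz (pw p e) i = (p : ℤ) ^ e i := by
  simp [cz, pw]

lemma rc_cz_pw (p : ℕ) (e : ι → ℕ) : rc (cz (pw p e)) = ew p e := by rw [rc_cz, cr_pw]

/-- counting shifts with given divisibility properties -/
lemma cntv {p : ℕ} (hp : p.Prime) {r : ι → ℕ} {M : Matrix ι ι ℝ} (h : M.det ≠ 0) {C : ℝ}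
    (hB : ∀ c : ι → ℕ, c ≤ r → Bal C (M * Dm (ew p c))) {μ : ℝ} (hμ : 0 < μ) {b c : ι → ℕ}
    (hb : b ≤ r) (hc : c ≤ r) :
    ∑' z : ι → ℤ, wv M μ (pw p b) z * (if ∀ i, (p : ℤ) ^ c i ∣ (p : ℤ) ^ b i * z i then 1 else 0) ≤
      ENNReal.ofReal (C * μ ^ (-(Fintype.card ι : ℝ) / 2) /
        (|M.det| * (p : ℝ) ^ ∑ i, max (b i) (c i))) := by
  have hp0 : (0 : ℝ) < p := by exact_mod_cast hp.pos
  have hpz : (p : ℤ) ≠ 0 := by exact_mod_cast hp.ne_zero
  obtain ⟨d, hd⟩ : ∃ d : ι → ℕ, d = fun i => c i - b i := ⟨_, rfl⟩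
  have hbd : ∀ i, (b + d) i = max (b i) (c i) := by
    intro i
    rw [hd, Pi.add_apply]
    omega
  have hdet : (M * Dm (ew p (b + d))).det ≠ 0 := det_mul_Dm_ne h (ew_ne hp.pos _)
  have h1 := hB (b + d) (fun i => by rw [hbd]; exact max_le (hb i) (hc i)) μ hμ
  have e0 : ∏ i, ew p (b + d) i = (p : ℝ) ^ ∑ i, max (b i) (c i) := by
    rw [prod_ew]
    congr 1
    exact Finset.sum_congr rfl fun i _ => hbd i
  rw [det_mul_Dm, e0, abs_mul,
    abs_of_pos (by positivity : (0 : ℝ) < (p : ℝ) ^ ∑ i, max (b i) (c i))] at h1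
  refine le_trans (le_of_eq ?_) (ENNReal.ofReal_le_ofReal h1)
  rw [← tsum_th1 hdet hμ]
  have hDne : ∀ i, cz (pw p d) i ≠ 0 := cz_ne (pw_pos hp.pos d)
  have hinj := dv_inj hDne
  rw [← hinj.tsum_eq]
  · refine tsum_congr fun y => ?_
    unfold wv
    have e1 : cz (pw p b) * (cz (pw p d) * y) = cz (pw p (b + d)) * y := by
      rw [cz_pw_add, mul_assoc]
    have e2 : ∀ i, (p : ℤ) ^ c i ∣ (p : ℤ) ^ b i * (cz (pw p d) * y) i := by
      intro i
      rw [Pi.mul_apply, cz_pw_apply, ← mul_assoc, ← pow_add]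
      refine Dvd.dvd.mul_right (pow_dvd_pow _ ?_) _
      have := hbd i
      rw [Pi.add_apply] at this
      omega
    rw [e1, gw_dv, rc_cz_pw, if_pos e2, mul_one]
    by_cases hy : y = 0
    · rw [if_pos ((dv_eq_zero hDne).2 hy), if_pos hy]
    · rw [if_neg (fun h => hy ((dv_eq_zero hDne).1 h)), if_neg hy]
  · intro z hz
    rw [Function.mem_support] at hz
    have hdv : ∀ i, (p : ℤ) ^ c i ∣ (p : ℤ) ^ b i * z i := by
      by_contra hcon
      rw [if_neg hcon, mul_zero] at hz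
      exact hz rfl
    have hd2 : ∀ i, (p : ℤ) ^ d i ∣ z i := by
      intro i
      have h3 := hdv i
      rcases le_total (c i) (b i) with hcb | hbc
      · have : d i = 0 := by rw [hd]; simp only; omega
        rw [this, pow_zero]
        exact one_dvd _
      · have e : (p : ℤ) ^ c i = (p : ℤ) ^ b i * (p : ℤ) ^ d i := by
          rw [← pow_add]
          congr 1
          rw [hd]
          simp only
          omega
        rw [e] at h3
        exact (mul_dvd_mul_iff_left (pow_ne_zero _ hpz)).1 h3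
    choose y hy using hd2
    refine ⟨y, ?_⟩
    funext i
    simp only [Pi.mul_apply]
    rw [cz_pw_apply, ← hy i]

/-! ### triple differences of products -/

lemma Df_prod {g : ι → ℤ → ℂ} {c : ℂ} (hc : ‖c‖ = 1) (κ : ι → ℤ) :
    Df κ (fun x => (∏ i, g i (x i)) * c) = fun x => ∏ i, Dz (κ i) (g i) (x i) := by
  funext x
  unfold Df Dz
  rw [Finset.prod_mul_distrib, map_mul, map_prod]
  have h1 : c * (starRingEnd ℂ) c = 1 := by
    rw [Complex.mul_conj', hc]; norm_num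
  calc _ = (∏ i, g i ((x + κ) i)) * (∏ i, (starRingEnd ℂ) (g i (x i))) *
        (c * (starRingEnd ℂ) c) := by ring
    _ = _ := by rw [h1, mul_one]; rfl

lemma Df_prod_eu {g : ι → ℤ → ℂ} (v : ι → ℝ) (κ : ι → ℤ) :
    Df κ (fun x => (∏ i, g i (x i)) * eu (v ⬝ᵥ rc x)) =
      fun x => (∏ i, Dz (κ i) (g i) (x i)) * eu (v ⬝ᵥ rc κ) := by
  funext x
  change ((∏ i, g i ((x + κ) i)) * eu (v ⬝ᵥ rc (x + κ))) *
    (starRingEnd ℂ) ((∏ i, g i (x i)) * eu (v ⬝ᵥ rc x)) =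
    (∏ i, (g i (x i + κ i) * (starRingEnd ℂ) (g i (x i)))) * eu (v ⬝ᵥ rc κ)
  rw [Finset.prod_mul_distrib, map_mul, map_prod, eu_conj, rc_add, dotProduct_add]
  have h1 : eu (v ⬝ᵥ rc x + v ⬝ᵥ rc κ) * eu (-(v ⬝ᵥ rc x)) = eu (v ⬝ᵥ rc κ) := by
    rw [← eu_add]
    congr 1
    ring
  calc _ = (∏ i, g i ((x + κ) i)) * (∏ i, (starRingEnd ℂ) (g i (x i))) *
        (eu (v ⬝ᵥ rc x + v ⬝ᵥ rc κ) * eu (-(v ⬝ᵥ rc x))) := by ring
    _ = _ := by rw [h1]; rfl

/-- the triple difference of a product -/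
lemma Df3v {g : ι → ℤ → ℂ} (v : ι → ℝ) (κ1 κ2 κ3 : ι → ℤ) :
    Df κ3 (Df κ2 (Df κ1 (fun x => (∏ i, g i (x i)) * eu (v ⬝ᵥ rc x)))) =
      fun x => ∏ i, Dz (κ3 i) (Dz (κ2 i) (Dz (κ1 i) (g i))) (x i) := by
  rw [Df_prod_eu, Df_prod (eu_norm' _)]
  have h1 := Df_prod (g := fun i => Dz (κ2 i) (Dz (κ1 i) (g i))) (c := 1) (by simp) κ3
  simp only [mul_one] at h1
  exact h1

/-- the product of the phase functions -/
noncomputable def UU (U : ι → ℤ → ℤ → ℂ) (k : ι → ℤ) (v : ι → ℝ) (x : ι → ℤ) : ℂ :=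
  (∏ i, U i (k i) (x i)) * eu (v ⬝ᵥ rc x)

lemma UU_norm {U : ι → ℤ → ℤ → ℂ} (hU : ∀ i l x, ‖U i l x‖ ≤ 1) (k : ι → ℤ) (v : ι → ℝ)
    (x : ι → ℤ) : ‖UU U k v x‖ ≤ 1 := by
  unfold UU
  rw [norm_mul, eu_norm', mul_one, norm_prod]
  exact Finset.prod_le_one (fun _ _ => norm_nonneg _) fun i _ => hU i _ _

/-- the weights of `k` -/
noncomputable def wk (ω : ι → ℤ → ℝ) (M : Matrix ι ι ℝ) (k : ι → ℤ) : ℝ :=
  (∏ i, ω i (k i)) * gw M (1 / 2) 0 k

section wk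

variable {ω : ι → ℤ → ℝ} (hω : ∀ i l, 0 ≤ ω i l ∧ ω i l ≤ 1) (hω0 : ∃ i, ω i 0 = 0)
  {M : Matrix ι ι ℝ} (hM : M.det ≠ 0)
include hω

lemma wk_nonneg (k : ι → ℤ) : 0 ≤ wk ω M k :=
  mul_nonneg (Finset.prod_nonneg fun i _ => (hω i _).1) (gw_pos _ _ _ _).le

include hω0 in
lemma wk_le (k : ι → ℤ) : wk ω M k ≤ if k = 0 then 0 else gw M (1 / 2) 0 k := by
  unfold wk
  split_ifs with h
  · obtain ⟨i, hi⟩ := hω0
    rw [Finset.prod_eq_zero (Finset.mem_univ i) (by rw [h]; exact hi), zero_mul]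
  · exact mul_le_of_le_one_left (gw_pos _ _ _ _).le
      (Finset.prod_le_one (fun i _ => (hω i _).1) fun i _ => (hω i _).2)

include hω0 hM in
lemma wk_summable : Summable (wk ω M) :=
  Summable.of_nonneg_of_le (wk_nonneg hω) (wk_le hω hω0) (summable_th1 hM (by norm_num))

include hω0 hM in
lemma wk_tsum_le : ∑' k, wk ω M k ≤ th1 M (1 / 2) :=
  (wk_summable hω hω0 hM).tsum_le_tsum (wk_le hω hω0) (summable_th1 hM (by norm_num))

end wk

/-- **the sum over the triple differences** -/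
theorem x3v {p : ℕ} (hp : p.Prime) {r b1 b2 b3 : ι → ℕ} (hsb : ∀ i, b1 i + b2 i + b3 i ≤ r i)
    {ω : ι → ℤ → ℝ} (hω : ∀ i l, 0 ≤ ω i l ∧ ω i l ≤ 1) (hω0 : ∃ i, ω i 0 = 0)
    {U : ι → ℤ → ℤ → ℂ} (hU : ∀ i l x, ‖U i l x‖ ≤ 1)
    (hG : ∀ i (t1 t2 t3 : ℤ), (p : ℤ) ^ b1 i ∣ t1 → (p : ℤ) ^ b2 i ∣ t2 → (p : ℤ) ^ b3 i ∣ t3 →
      Good p (r i) (b1 i + b2 i + b3 i) (t1 * t2 * t3)
        (fun l x => (ω i l : ℂ) * Dz t3 (Dz t2 (Dz t1 (U i l))) x))
    (vv : (ι → ℤ) → ι → ℝ) {M1 M2 : Matrix ι ι ℝ} (hM1 : M1.det ≠ 0) (hM2 : M2.det ≠ 0)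
    {C0 L : ℝ} (hC0 : 0 ≤ C0) (hb1' : Bal C0 M1)
    (hb2' : ∀ c : ι → ℕ, c ≤ r → Bal C0 (M2 * Dm (ew p c)))
    (hd1 : ∀ c : ι → ℕ, c ≤ r → Bal C0 (du M1 * Dm (ew p c)⁻¹))
    (hd2 : ∀ c : ι → ℕ, c ≤ r → Bal C0 (du M2 * Dm (ew p c)⁻¹))
    (hL1 : 1 ≤ L) (hL2 : C0 * 2 ^ (Fintype.card ι) ≤ L) (hL3 : (p : ℝ) ^ (2 * Fintype.card ι) ≤ L)
    (hL4 : ((∏ i, (r i + 1) : ℕ) : ℝ) ^ 3 ≤ L) (hL5 : C0 ≤ L) (hMt : |M2.det| ≤ L)
    (cc : (ι → ℤ) → (ι → ℤ) → (ι → ℤ) → ι → ℝ) :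
    T3 (wv M2 (1 / 4) (pw p b1)) (wv M2 (1 / 2) (pw p b2)) (wv M2 1 (pw p b3)) (fun z1 z2 z3 =>
        ‖∑' k : ι → ℤ, ((wk ω M1 k : ℝ) : ℂ) *
          ES M2 4 (cc z1 z2 z3) (Df (cz (pw p b3) * z3) (Df (cz (pw p b2) * z2)
            (Df (cz (pw p b1) * z1) (UU U k (vv k)))))‖ₑ) ≤
      ENNReal.ofReal (L ^ 7 / (|M2.det| ^ 3 * (p : ℝ) ^ (∑ i, (b1 i + b2 i + b3 i))) *
        (p : ℝ) ^ (∑ i, (r i - (b1 i + b2 i + b3 i))) +
        2 * L ^ 7 / (|M1.det| * |M2.det| ^ 4 * (p : ℝ) ^ ∑ i, r i)) := by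
  classical
  have hp0 : (0 : ℝ) < p := by exact_mod_cast hp.pos
  have hp1 : (1 : ℝ) ≤ p := by exact_mod_cast hp.one_le
  set n := Fintype.card ι with hn
  set δ := |M2.det| with hδ
  set δ1 := |M1.det| with hδ1
  have hδ0 : 0 < δ := abs_pos.2 hM2
  have hδ10 : 0 < δ1 := abs_pos.2 hM1
  set K : ℝ := C0 * 2 ^ n with hK
  have hK0 : 0 ≤ K := by positivity
  have hL0 : 0 < L := by linarith
  have hb1r : b1 ≤ r := fun i => by have := hsb i; change b1 i ≤ r i; omega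
  have hb2r : b2 ≤ r := fun i => by have := hsb i; change b2 i ≤ r i; omega
  have hb3r : b3 ≤ r := fun i => by have := hsb i; change b3 i ≤ r i; omega
  -- counts
  have hcnt : ∀ μ : ℝ, 1 / 4 ≤ μ → ∀ b : ι → ℕ, b ≤ r → ∀ c : ι → ℕ, c ≤ r →
      ∑' z : ι → ℤ, wv M2 μ (pw p b) z *
        (if ∀ i, (p : ℤ) ^ c i ∣ (p : ℤ) ^ b i * z i then 1 else 0) ≤
      ENNReal.ofReal (K / (δ * (p : ℝ) ^ ∑ i, max (b i) (c i))) := by
    intro μ hμ b hb c hc
    refine (cntv hp hM2 hb2' (by linarith) hb hc).trans (ENNReal.ofReal_le_ofReal ?_)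
    rw [hK]
    have := ofReal_rpow_le (n := n) hμ
    gcongr
  have hWK : ∑' k, wk ω M1 k ≤ K / δ1 := by
    refine (wk_tsum_le hω hω0 hM1).trans ?_
    refine (hb1' (1 / 2) (by norm_num)).trans ?_
    rw [hK]
    have := ofReal_rpow_le (n := n) (μ := 1 / 2) (by norm_num)
    gcongr
  have hθ : th0 M2 4 ≤ 1 + K / δ := by
    rw [th0_eq hM2 (by norm_num)]
    have h1 := hb2' 0 (fun i => Nat.zero_le _) 4 (by norm_num)
    have e0 : ew p (0 : ι → ℕ) = 1 := by funext i; simp [ew]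
    rw [e0, Dm_one, Matrix.mul_one] at h1
    have h2 := ofReal_rpow_le (n := n) (μ := 4) (by norm_num)
    have : C0 * 4 ^ (-(n : ℝ) / 2) / δ ≤ K / δ := by rw [hK]; gcongr
    linarith
  -- the indicator
  set T : (ι → ℤ) → (ι → ℤ) → (ι → ℤ) → ι → ℤ := fun z1 z2 z3 i =>
    ((p : ℤ) ^ b1 i * z1 i) * ((p : ℤ) ^ b2 i * z2 i) * ((p : ℤ) ^ b3 i * z3 i) with hT
  set Ind : (ι → ℕ) → (ι → ℤ) → (ι → ℤ) → (ι → ℤ) → ℝ≥0∞ := fun e z1 z2 z3 =>
    if ∀ i, (p : ℤ) ^ e i ∣ T z1 z2 z3 i then 1 else 0 with hInd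
  set 𝒯 : Finset (ι → ℕ) := Fintype.piFinset fun i =>
    Finset.Icc (b1 i + b2 i + b3 i) (r i) with h𝒯
  -- pointwise bound
  set xx : ℝ := (p : ℝ) ^ (2 * n) * (C0 * C0) with hxx
  have hxx0 : 0 ≤ xx := by positivity
  set yy : ℝ := K / δ1 * (1 + K / δ) with hyy
  have hyy0 : 0 ≤ yy := by positivity
  have hpt : ∀ z1 z2 z3 : ι → ℤ,
      ‖∑' k : ι → ℤ, ((wk ω M1 k : ℝ) : ℂ) *
          ES M2 4 (cc z1 z2 z3) (Df (cz (pw p b3) * z3) (Df (cz (pw p b2) * z2)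
            (Df (cz (pw p b1) * z1) (UU U k (vv k)))))‖ₑ ≤
      ENNReal.ofReal xx * (∑ t ∈ 𝒯, ENNReal.ofReal ((p : ℝ) ^ ∑ i, (r i - t i)) * Ind t z1 z2 z3) +
        ENNReal.ofReal yy * Ind (fun i => r i - 1) z1 z2 z3 := by
    intro z1 z2 z3
    have hg : ∀ i, Good p (r i) (b1 i + b2 i + b3 i) (T z1 z2 z3 i)
        (fun l x => (ω i l : ℂ) * Dz ((p : ℤ) ^ b3 i * z3 i) (Dz ((p : ℤ) ^ b2 i * z2 i)
          (Dz ((p : ℤ) ^ b1 i * z1 i) (U i l))) x) := fun i =>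
      hG i _ _ _ (dvd_mul_right _ _) (dvd_mul_right _ _) (dvd_mul_right _ _)
    choose t c j g1 g2 g3 g4 g5 g6 g7 using hg
    by_cases hj : ∃ i, 1 ≤ j i
    · refine le_trans ?_ le_self_add
      have hcj : c + j ≤ r := fun i => g5 i
      have key := linGv hp.pos g4 hj hM1 hM2 (lam1 := 1 / 2) (lam2 := 4) (by norm_num) (by norm_num)
        0 (cc z1 z2 z3) (hd1 _ hcj) (hd2 _ hcj)
      have e1 : ∑' k : ι → ℤ, ((wk ω M1 k : ℝ) : ℂ) *
          ES M2 4 (cc z1 z2 z3) (Df (cz (pw p b3) * z3) (Df (cz (pw p b2) * z2)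
            (Df (cz (pw p b1) * z1) (UU U k (vv k))))) =
          ∑' k : ι → ℤ, ∑' x : ι → ℤ, (∏ i, ((ω i (k i) : ℂ) * Dz ((p : ℤ) ^ b3 i * z3 i)
            (Dz ((p : ℤ) ^ b2 i * z2 i) (Dz ((p : ℤ) ^ b1 i * z1 i) (U i (k i)))) (x i))) *
            ((gw M1 (1 / 2) 0 k : ℂ) * (gw M2 4 (cc z1 z2 z3) x : ℂ)) := by
        refine tsum_congr fun k => ?_
        unfold ES
        rw [← tsum_mul_left]
        refine tsum_congr fun x => ?_
        unfold UU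
        rw [Df3v, Finset.prod_mul_distrib]
        unfold wk
        simp only [Pi.mul_apply, cz_pw_apply]
        push_cast
        ring
      rw [e1, ← ofReal_norm]
      refine (ENNReal.ofReal_le_ofReal key).trans ?_
      have hmem : t ∈ 𝒯 := by
        rw [h𝒯, Fintype.mem_piFinset]
        intro i
        rw [Finset.mem_Icc]
        exact ⟨g1 i, g2 i⟩
      have hI : Ind t z1 z2 z3 = 1 := by
        simp only [hInd]
        rw [if_pos g3]
      calc _ ≤ ENNReal.ofReal (xx * (p : ℝ) ^ ∑ i, (r i - t i)) := by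
            refine ENNReal.ofReal_le_ofReal ?_
            have e2 : ((∏ _i : ι, p ^ 2 : ℕ) : ℝ) = (p : ℝ) ^ (2 * n) := by
              rw [Finset.prod_const, Finset.card_univ, ← pow_mul]
              push_cast
              rfl
            rw [e2, hxx]
            have e3 : (p : ℝ) ^ (2 * n) * ((C0 * (p : ℝ) ^ ∑ i, j i) * (C0 * (p : ℝ) ^ ∑ i, j i)) =
                (p : ℝ) ^ (2 * n) * (C0 * C0) * (p : ℝ) ^ (2 * ∑ i, j i) := by
              rw [two_mul (∑ i, j i), pow_add]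
              ring
            rw [e3]
            have e4 : (p : ℝ) ^ (2 * ∑ i, j i) ≤ (p : ℝ) ^ ∑ i, (r i - t i) := by
              refine pow_le_pow_right₀ hp1 ?_
              rw [Finset.mul_sum]
              exact Finset.sum_le_sum fun i _ => g6 i
            gcongr
        _ = ENNReal.ofReal xx * (ENNReal.ofReal ((p : ℝ) ^ ∑ i, (r i - t i)) * Ind t z1 z2 z3) := by
            rw [hI, mul_one, ENNReal.ofReal_mul hxx0]
        _ ≤ _ := by
            gcongr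
            exact Finset.single_le_sum (f := fun t => ENNReal.ofReal ((p : ℝ) ^ ∑ i, (r i - t i)) *
              Ind t z1 z2 z3) (fun _ _ => zero_le) hmem
    · push Not at hj
      refine le_trans ?_ le_add_self
      have hI : Ind (fun i => r i - 1) z1 z2 z3 = 1 := by
        simp only [hInd]
        rw [if_pos]
        intro i
        exact g7 i (by have := hj i; omega)
      rw [hI, mul_one, ← ofReal_norm]
      apply ENNReal.ofReal_le_ofReal
      have hnorm : ∀ k, ‖ES M2 4 (cc z1 z2 z3) (Df (cz (pw p b3) * z3)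
          (Df (cz (pw p b2) * z2) (Df (cz (pw p b1) * z1) (UU U k (vv k)))))‖ ≤ th0 M2 4 := fun k =>
        norm_ES_le hM2 (by norm_num) _ (Df_norm (Df_norm (Df_norm (UU_norm hU k (vv k)))))
      have h5 : ‖∑' k : ι → ℤ, ((wk ω M1 k : ℝ) : ℂ) *
          ES M2 4 (cc z1 z2 z3) (Df (cz (pw p b3) * z3) (Df (cz (pw p b2) * z2)
            (Df (cz (pw p b1) * z1) (UU U k (vv k)))))‖ ≤ (∑' k, wk ω M1 k) * th0 M2 4 := by
        rw [← tsum_mul_right]
        refine tsum_of_norm_bounded ((wk_summable hω hω0 hM1).mul_right _).hasSum fun k => ?_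
        rw [norm_mul, Complex.norm_real, Real.norm_of_nonneg (wk_nonneg hω k)]
        exact mul_le_mul_of_nonneg_left (hnorm k) (wk_nonneg hω k)
      refine h5.trans ?_
      rw [hyy]
      have hth0 : 0 ≤ th0 M2 4 := tsum_nonneg fun x => (gw_pos _ _ _ _).le
      gcongr
  -- the count for the indicator
  set Nr : ℕ := ∏ i, (r i + 1) with hNr
  have hNr1 : (1 : ℝ) ≤ Nr := by
    have : 1 ≤ Nr := Finset.one_le_prod' fun i _ => by omega
    exact_mod_cast this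
  have hcount : ∀ e : ι → ℕ, e ≤ r →
      T3 (wv M2 (1 / 4) (pw p b1)) (wv M2 (1 / 2) (pw p b2)) (wv M2 1 (pw p b3)) (Ind e) ≤
        ENNReal.ofReal ((Nr : ℝ) ^ 2 * (K ^ 3 / (δ ^ 3 * (p : ℝ) ^ ∑ i, e i))) := by
    intro e he
    set R : Finset (ι → ℕ) := Fintype.piFinset fun i => Finset.range (e i + 1) with hR
    have hRcard : (R.card : ℝ) ≤ Nr := by
      rw [hR, Fintype.card_piFinset]
      simp only [Finset.card_range]
      have : ∏ i, (e i + 1) ≤ Nr := Finset.prod_le_prod (fun _ _ => Nat.zero_le _)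
        fun i _ => by have : e i ≤ r i := he i; omega
      exact_mod_cast this
    set ind : (ι → ℕ) → (ι → ℕ) → (ι → ℤ) → ℝ≥0∞ := fun b c z =>
      if ∀ i, (p : ℤ) ^ c i ∣ (p : ℤ) ^ b i * z i then 1 else 0 with hind
    have hle : ∀ z1 z2 z3 : ι → ℤ, Ind e z1 z2 z3 ≤
        ∑ c1 ∈ R, ∑ c2 ∈ R, ind b1 c1 z1 * ind b2 c2 z2 * ind b3 (fun i => e i - c1 i - c2 i) z3 := by
      intro z1 z2 z3
      simp only [hInd]
      split_ifs with hd
      · have hsp := fun i => split3 hp (hd i)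
        choose c1 hc1 c2 hc2 d1 d2 d3 using hsp
        have hm1 : c1 ∈ R := by
          rw [hR, Fintype.mem_piFinset]
          exact fun i => Finset.mem_range.2 (by have := hc1 i; omega)
        have hm2 : c2 ∈ R := by
          rw [hR, Fintype.mem_piFinset]
          exact fun i => Finset.mem_range.2 (by have := hc2 i; omega)
        calc (1 : ℝ≥0∞) = ind b1 c1 z1 * ind b2 c2 z2 * ind b3 (fun i => e i - c1 i - c2 i) z3 := by
              simp only [hind]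
              rw [if_pos d1, if_pos d2, if_pos d3]
              simp
          _ ≤ ∑ c2 ∈ R, ind b1 c1 z1 * ind b2 c2 z2 * ind b3 (fun i => e i - c1 i - c2 i) z3 :=
              Finset.single_le_sum (f := fun c2 => ind b1 c1 z1 * ind b2 c2 z2 *
                ind b3 (fun i => e i - c1 i - c2 i) z3) (fun _ _ => zero_le) hm2
          _ ≤ _ := Finset.single_le_sum (f := fun c1 => ∑ c2 ∈ R, ind b1 c1 z1 * ind b2 c2 z2 *
                ind b3 (fun i => e i - c1 i - c2 i) z3) (fun _ _ => zero_le) hm1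
      · exact zero_le
    refine (T3_mono _ _ _ hle).trans ?_
    rw [T3_sum]
    simp_rw [T3_sum]
    calc _ ≤ ∑ c1 ∈ R, ∑ c2 ∈ R, ENNReal.ofReal (K ^ 3 / (δ ^ 3 * (p : ℝ) ^ ∑ i, e i)) := by
          refine Finset.sum_le_sum fun c1 hc1 => Finset.sum_le_sum fun c2 hc2 => ?_
          rw [hR, Fintype.mem_piFinset] at hc1 hc2
          have hc1r : c1 ≤ r := fun i => by
            have h1 := Finset.mem_range.1 (hc1 i)
            have h2 : e i ≤ r i := he i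
            change c1 i ≤ r i
            omega
          have hc2r : c2 ≤ r := fun i => by
            have h1 := Finset.mem_range.1 (hc2 i)
            have h2 : e i ≤ r i := he i
            change c2 i ≤ r i
            omega
          have hc3r : (fun i => e i - c1 i - c2 i) ≤ r := fun i => by
            have h2 : e i ≤ r i := he i
            change e i - c1 i - c2 i ≤ r i
            omega
          rw [T3_prod]
          have q1 := hcnt (1 / 4) le_rfl b1 hb1r c1 hc1r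
          have q2 := hcnt (1 / 2) (by norm_num) b2 hb2r c2 hc2r
          have q3 := hcnt 1 (by norm_num) b3 hb3r _ hc3r
          refine (mul_le_mul' (mul_le_mul' q1 q2) q3).trans ?_
          rw [← ENNReal.ofReal_mul (by positivity), ← ENNReal.ofReal_mul (by positivity)]
          apply ENNReal.ofReal_le_ofReal
          have e1 : K / (δ * (p : ℝ) ^ ∑ i, max (b1 i) (c1 i)) *
              (K / (δ * (p : ℝ) ^ ∑ i, max (b2 i) (c2 i))) *
              (K / (δ * (p : ℝ) ^ ∑ i, max (b3 i) (e i - c1 i - c2 i))) =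
              K ^ 3 / (δ ^ 3 * (p : ℝ) ^ (∑ i, max (b1 i) (c1 i) + ∑ i, max (b2 i) (c2 i) +
                ∑ i, max (b3 i) (e i - c1 i - c2 i))) := by
            rw [pow_add, pow_add]
            field_simp
          rw [e1]
          have : (p : ℝ) ^ ∑ i, e i ≤ (p : ℝ) ^ (∑ i, max (b1 i) (c1 i) +
              ∑ i, max (b2 i) (c2 i) + ∑ i, max (b3 i) (e i - c1 i - c2 i)) := by
            refine pow_le_pow_right₀ hp1 ?_
            rw [← Finset.sum_add_distrib, ← Finset.sum_add_distrib]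
            exact Finset.sum_le_sum fun i _ => by omega
          gcongr
      _ = ENNReal.ofReal ((R.card : ℝ) ^ 2 * (K ^ 3 / (δ ^ 3 * (p : ℝ) ^ ∑ i, e i))) := by
          rw [Finset.sum_const, Finset.sum_const, nsmul_eq_mul, nsmul_eq_mul,
            ENNReal.ofReal_mul (by positivity), ENNReal.ofReal_pow (by positivity),
            ENNReal.ofReal_natCast]
          ring
      _ ≤ _ := by
          apply ENNReal.ofReal_le_ofReal
          gcongr
  -- assembling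
  refine (T3_mono _ _ _ hpt).trans ?_
  rw [T3_add, T3_mul, T3_mul, T3_sum]
  simp_rw [T3_mul]
  set SB := ∑ i, (b1 i + b2 i + b3 i) with hSB
  set RS := ∑ i, (r i - (b1 i + b2 i + b3 i)) with hRS
  have hA : ∑ t ∈ 𝒯, ENNReal.ofReal ((p : ℝ) ^ ∑ i, (r i - t i)) *
      T3 (wv M2 (1 / 4) (pw p b1)) (wv M2 (1 / 2) (pw p b2)) (wv M2 1 (pw p b3)) (Ind t) ≤
      ENNReal.ofReal ((Nr : ℝ) ^ 3 * (K ^ 3 / (δ ^ 3 * (p : ℝ) ^ SB) * (p : ℝ) ^ RS)) := by
    have hcard : (𝒯.card : ℝ) ≤ Nr := by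
      rw [h𝒯, Fintype.card_piFinset]
      simp only [Nat.card_Icc]
      have : ∏ i, (r i + 1 - (b1 i + b2 i + b3 i)) ≤ Nr :=
        Finset.prod_le_prod (fun _ _ => Nat.zero_le _) fun i _ => by omega
      exact_mod_cast this
    calc _ ≤ ∑ t ∈ 𝒯, ENNReal.ofReal ((Nr : ℝ) ^ 2 *
          (K ^ 3 / (δ ^ 3 * (p : ℝ) ^ SB) * (p : ℝ) ^ RS)) := by
          refine Finset.sum_le_sum fun t ht => ?_
          rw [h𝒯, Fintype.mem_piFinset] at ht
          have ht1 : ∀ i, b1 i + b2 i + b3 i ≤ t i ∧ t i ≤ r i := fun i => Finset.mem_Icc.1 (ht i)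
          have h1 := hcount t (fun i => (ht1 i).2)
          calc _ ≤ ENNReal.ofReal ((p : ℝ) ^ ∑ i, (r i - t i)) *
                ENNReal.ofReal ((Nr : ℝ) ^ 2 * (K ^ 3 / (δ ^ 3 * (p : ℝ) ^ ∑ i, t i))) := by gcongr
            _ = ENNReal.ofReal ((p : ℝ) ^ (∑ i, (r i - t i)) *
                ((Nr : ℝ) ^ 2 * (K ^ 3 / (δ ^ 3 * (p : ℝ) ^ ∑ i, t i)))) := by
                rw [← ENNReal.ofReal_mul (by positivity)]
            _ ≤ _ := by
                apply ENNReal.ofReal_le_ofReal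
                have e1 : (p : ℝ) ^ (∑ i, (r i - t i)) ≤ (p : ℝ) ^ RS := by
                  refine pow_le_pow_right₀ hp1 (Finset.sum_le_sum fun i _ => ?_)
                  have := ht1 i
                  omega
                have e2 : (p : ℝ) ^ SB ≤ (p : ℝ) ^ ∑ i, t i := by
                  exact pow_le_pow_right₀ hp1 (Finset.sum_le_sum fun i _ => (ht1 i).1)
                calc _ ≤ (p : ℝ) ^ RS * ((Nr : ℝ) ^ 2 * (K ^ 3 / (δ ^ 3 * (p : ℝ) ^ SB))) := by gcongr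
                  _ = _ := by ring
      _ = ENNReal.ofReal ((𝒯.card : ℝ) * ((Nr : ℝ) ^ 2 *
          (K ^ 3 / (δ ^ 3 * (p : ℝ) ^ SB) * (p : ℝ) ^ RS))) := by
          rw [Finset.sum_const, nsmul_eq_mul, ENNReal.ofReal_mul (Nat.cast_nonneg _),
            ENNReal.ofReal_natCast]
      _ ≤ _ := by
          apply ENNReal.ofReal_le_ofReal
          calc _ ≤ (Nr : ℝ) * ((Nr : ℝ) ^ 2 * (K ^ 3 / (δ ^ 3 * (p : ℝ) ^ SB) * (p : ℝ) ^ RS)) := by
                gcongr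
            _ = _ := by ring
  have hBb := hcount (fun i => r i - 1) (fun i => Nat.sub_le _ _)
  calc _ ≤ ENNReal.ofReal xx * ENNReal.ofReal ((Nr : ℝ) ^ 3 *
        (K ^ 3 / (δ ^ 3 * (p : ℝ) ^ SB) * (p : ℝ) ^ RS)) + ENNReal.ofReal yy *
        ENNReal.ofReal ((Nr : ℝ) ^ 2 * (K ^ 3 / (δ ^ 3 * (p : ℝ) ^ ∑ i, (r i - 1)))) := by
        gcongr
    _ = ENNReal.ofReal (xx * ((Nr : ℝ) ^ 3 *
        (K ^ 3 / (δ ^ 3 * (p : ℝ) ^ SB) * (p : ℝ) ^ RS)) + yy *
        ((Nr : ℝ) ^ 2 * (K ^ 3 / (δ ^ 3 * (p : ℝ) ^ ∑ i, (r i - 1))))) := by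
        rw [ENNReal.ofReal_add (by positivity) (by positivity), ENNReal.ofReal_mul hxx0,
          ENNReal.ofReal_mul hyy0]
    _ ≤ _ := by
        apply ENNReal.ofReal_le_ofReal
        refine add_le_add ?_ ?_
        · have e1 : xx * ((Nr : ℝ) ^ 3 * (K ^ 3 / (δ ^ 3 * (p : ℝ) ^ SB) * (p : ℝ) ^ RS)) =
              ((p : ℝ) ^ (2 * n) * (C0 * C0) * (Nr : ℝ) ^ 3 * K ^ 3) / (δ ^ 3 * (p : ℝ) ^ SB) *
                (p : ℝ) ^ RS := by
            rw [hxx]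
            ring
          rw [e1]
          have e2 : (p : ℝ) ^ (2 * n) * (C0 * C0) * (Nr : ℝ) ^ 3 * K ^ 3 ≤ L ^ 7 := by
            calc _ ≤ L * (L * L) * L * L ^ 3 := by gcongr
              _ = _ := by ring
          gcongr
        · have hRR : (p : ℝ) ^ ∑ i, r i ≤ (p : ℝ) ^ (∑ i, (r i - 1)) * (p : ℝ) ^ n := by
            rw [← pow_add]
            refine pow_le_pow_right₀ hp1 ?_
            have : ∑ i, r i ≤ ∑ i : ι, ((r i - 1) + 1) := Finset.sum_le_sum fun i _ => by omega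
            rw [Finset.sum_add_distrib, Finset.sum_const, Finset.card_univ, smul_eq_mul,
              mul_one] at this
            exact this
          have e1 : yy * ((Nr : ℝ) ^ 2 * (K ^ 3 / (δ ^ 3 * (p : ℝ) ^ ∑ i, (r i - 1)))) =
              ((Nr : ℝ) ^ 2 * K ^ 4 * (δ + K)) / (δ1 * δ ^ 4 * (p : ℝ) ^ ∑ i, (r i - 1)) := by
            rw [hyy]
            field_simp
          rw [e1, div_le_div_iff₀ (by positivity) (by positivity)]
          have hpn : (p : ℝ) ^ n ≤ L := (pow_le_pow_right₀ hp1 (by omega)).trans hL3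
          have hNr2 : (Nr : ℝ) ^ 2 ≤ L :=
            (pow_le_pow_right₀ hNr1 (by norm_num)).trans hL4
          calc (Nr : ℝ) ^ 2 * K ^ 4 * (δ + K) * (δ1 * δ ^ 4 * (p : ℝ) ^ ∑ i, r i) ≤
                L * L ^ 4 * (L + L) * (δ1 * δ ^ 4 * ((p : ℝ) ^ (∑ i, (r i - 1)) * L)) := by
                refine mul_le_mul ?_ ?_ (by positivity) (by positivity)
                · gcongr
                · gcongr
                  exact hRR.trans (by gcongr)
            _ = 2 * L ^ 7 * (δ1 * δ ^ 4 * (p : ℝ) ^ ∑ i, (r i - 1)) := by ring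

end Pool.Agent.J4H31.V
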