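import Pool.Agent.J4H31.V.V5

/-!
The mean square over the lattice, in several coordinates.
-/

set_option autoImplicit false
set_option linter.unusedSectionVars false

open MeasureTheory Matrix Complex
open Pool.Agent.Y766.R3 (eu)
open scoped ENNReal

namespace Pool.Agent.J4H31.V

variable {ι : Type} [Fintype ι] [DecidableEq ι]

/-- **the mean square over the lattice** -/
theorem meanV {p : ℕ} (hp : p.Prime) {r b1 b2 b3 : ι → ℕ} (hsb : ∀ i, b1 i + b2 i + b3 i ≤ r i)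
    {ω : ι → ℤ → ℝ} (hω : ∀ i l, 0 ≤ ω i l ∧ ω i l ≤ 1) (hω0 : ∃ i, ω i 0 = 0)
    {U : ι → ℤ → ℤ → ℂ} (hU : ∀ i l x, ‖U i l x‖ ≤ 1)
    (hG : ∀ i (t1 t2 t3 : ℤ), (p : ℤ) ^ b1 i ∣ t1 → (p : ℤ) ^ b2 i ∣ t2 → (p : ℤ) ^ b3 i ∣ t3 →
      Good p (r i) (b1 i + b2 i + b3 i) (t1 * t2 * t3)
        (fun l x => (ω i l : ℂ) * Dz t3 (Dz t2 (Dz t1 (U i l))) x))
    (vv : (ι → ℤ) → ι → ℝ) {M1 M2 : Matrix ι ι ℝ} (hM1 : M1.det ≠ 0) (hM2 : M2.det ≠ 0)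
    {C0 L : ℝ} (hC0 : 0 ≤ C0) (hb1' : Bal C0 M1)
    (hb2' : ∀ c : ι → ℕ, c ≤ r → Bal C0 (M2 * Dm (ew p c)))
    (hd1 : ∀ c : ι → ℕ, c ≤ r → Bal C0 (du M1 * Dm (ew p c)⁻¹))
    (hd2 : ∀ c : ι → ℕ, c ≤ r → Bal C0 (du M2 * Dm (ew p c)⁻¹))
    (hL1 : 1 ≤ L) (hL2 : C0 * 2 ^ (Fintype.card ι) ≤ L) (hL3 : (p : ℝ) ^ (2 * Fintype.card ι) ≤ L)
    (hL4 : ((∏ i, (r i + 1) : ℕ) : ℝ) ^ 3 ≤ L) (hL5 : C0 ≤ L) {s : ℕ}
    (hH1 : (p : ℝ) ^ (∑ i, b1 i + s) * |M2.det| ≤ L)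
    (hH2 : (p : ℝ) ^ (∑ i, b2 i + 2 * s) * |M2.det| ≤ L)
    (hH3 : (p : ℝ) ^ (∑ i, b3 i + 4 * s) * |M2.det| ≤ L)
    (hF1 : (p : ℝ) ^ (∑ i, (r i - (b1 i + b2 i + b3 i)) + 4 * s) * (|M1.det| * |M2.det|) ≤ L)
    (hF2 : (p : ℝ) ^ (∑ i, (b1 i + b2 i + b3 i) + 4 * s) ≤ L * (p : ℝ) ^ ∑ i, r i) :
    ∑' k : ι → ℤ, ENNReal.ofReal (wk ω M1 k) * ‖ES M2 (1 / 2) 0 (UU U k (vv k))‖ₑ ≤
      ENNReal.ofReal (3 * L ^ 3 * |M1.det|⁻¹ * |M2.det|⁻¹ / Real.sqrt ((p : ℝ) ^ s)) := by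
  classical
  have hp0 : (0 : ℝ) < p := by exact_mod_cast hp.pos
  have hp1 : (1 : ℝ) ≤ p := by exact_mod_cast hp.one_le
  set n := Fintype.card ι with hn
  set δ := |M2.det| with hδ
  set δ1 := |M1.det| with hδ1
  have hδ0 : 0 < δ := abs_pos.2 hM2
  have hδ10 : 0 < δ1 := abs_pos.2 hM1
  set K : ℝ := C0 * 2 ^ n with hK
  have hK0 : 0 ≤ K := by positivity
  have hL0 : 0 < L := by linarith
  have hδL : δ ≤ L := by
    have h1 : (1 : ℝ) ≤ (p : ℝ) ^ (∑ i, b1 i + s) := one_le_pow₀ hp1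
    nlinarith
  have hb1r : b1 ≤ r := fun i => by have := hsb i; change b1 i ≤ r i; omega
  have hb2r : b2 ≤ r := fun i => by have := hsb i; change b2 i ≤ r i; omega
  have hb3r : b3 ≤ r := fun i => by have := hsb i; change b3 i ≤ r i; omega
  have hx3 := x3v hp hsb hω hω0 hU hG vv hM1 hM2 hC0 hb1' hb2' hd1 hd2 hL1 hL2 hL3 hL4 hL5 hδL
  set SB := ∑ i, (b1 i + b2 i + b3 i) with hSB
  set RS := ∑ i, (r i - (b1 i + b2 i + b3 i)) with hRS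
  set R := ∑ i, r i with hR
  rw [← hδ, ← hδ1] at hx3
  set x3 : ℝ := L ^ 7 / (δ ^ 3 * (p : ℝ) ^ SB) * (p : ℝ) ^ RS +
    2 * L ^ 7 / (δ1 * δ ^ 4 * (p : ℝ) ^ R) with hx3d
  have hx30 : 0 ≤ x3 := by positivity
  have hWK : ∑' k, wk ω M1 k ≤ K / δ1 := by
    refine (wk_tsum_le hω hω0 hM1).trans ?_
    refine (hb1' (1 / 2) (by norm_num)).trans ?_
    rw [hK]
    have := ofReal_rpow_le (n := n) (μ := 1 / 2) (by norm_num)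
    gcongr
  have hLd : 1 ≤ L * δ⁻¹ := by
    rw [← div_eq_mul_inv, le_div_iff₀ hδ0, one_mul]; exact hδL
  have hM2b : Bal C0 M2 := by
    have h1 := hb2' 0 (fun i => Nat.zero_le _)
    have e0 : ew p (0 : ι → ℕ) = 1 := by funext i; simp [ew]
    rwa [e0, Dm_one, Matrix.mul_one] at h1
  have hθ : ∀ lam : ℝ, 1 / 4 ≤ lam → th0 M2 lam ≤ 2 * L * δ⁻¹ := by
    intro lam hlam
    rw [th0_eq hM2 (by linarith)]
    have h1 := hM2b lam (by linarith)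
    have h2 := ofReal_rpow_le (n := n) hlam
    have h3 : C0 * lam ^ (-(n : ℝ) / 2) / δ ≤ L / δ := by
      have : C0 * lam ^ (-(n : ℝ) / 2) ≤ L := (mul_le_mul_of_nonneg_left h2 hC0).trans hL2
      gcongr
    have h4 : L / δ = L * δ⁻¹ := div_eq_mul_inv _ _
    linarith
  have hA : ∀ μ : ℝ, 1 / 4 ≤ μ → ∀ b : ι → ℕ, b ≤ r → ∑' z : ι → ℤ, wv M2 μ (pw p b) z ≤
      ENNReal.ofReal (L * δ⁻¹ / (p : ℝ) ^ ∑ i, b i) := by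
    intro μ hμ b hb
    have h1 := cntv hp hM2 hb2' (μ := μ) (by linarith) hb hb
    refine le_trans (le_of_eq ?_) (h1.trans (ENNReal.ofReal_le_ofReal ?_))
    · refine tsum_congr fun z => ?_
      rw [if_pos (fun i => dvd_mul_right _ _), mul_one]
    · have h2 := ofReal_rpow_le (n := n) hμ
      have h3 : C0 * μ ^ (-(n : ℝ) / 2) ≤ L := (mul_le_mul_of_nonneg_left h2 hC0).trans hL2
      rw [← hδ, ← div_eq_mul_inv, div_div]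
      simp only [max_self]
      gcongr
  -- numbers
  set P : ℝ := (p : ℝ) ^ s with hP
  have hP0 : 0 < P := by positivity
  have hMt0 : 0 < δ⁻¹ := inv_pos.2 hδ0
  have hω0' : 0 < δ1⁻¹ := inv_pos.2 hδ10
  have hinv : ∀ x : ℝ, x * δ ≤ L → x ≤ L * δ⁻¹ := by
    intro x hx
    rw [← div_eq_mul_inv, le_div_iff₀ hδ0]; exact hx
  obtain ⟨c0, c1, c2⟩ := numG (L := L) (ω := δ1⁻¹) (Mt := δ⁻¹) (D1 := (p : ℝ) ^ ∑ i, b1 i)
    (D2 := (p : ℝ) ^ ∑ i, b2 i) (D3 := (p : ℝ) ^ ∑ i, b3 i) (x3 := x3) (P := P) hL1 hω0' hMt0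
    (by positivity) (by positivity) (by positivity) hP0
    (by rw [hP, ← pow_add]; exact hinv _ hH1)
    (by rw [hP, ← pow_mul, ← pow_add, mul_comm s 2]; exact hinv _ hH2)
    (by rw [hP, ← pow_mul, ← pow_add, mul_comm s 4]; exact hinv _ hH3)
    (by
      have e1 : (p : ℝ) ^ (∑ i, b1 i) * (p : ℝ) ^ (∑ i, b2 i) * (p : ℝ) ^ (∑ i, b3 i) =
          (p : ℝ) ^ SB := by
        rw [← pow_add, ← pow_add, hSB, Finset.sum_add_distrib, Finset.sum_add_distrib]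
      have e2 : P ^ 4 = (p : ℝ) ^ (4 * s) := by rw [hP, ← pow_mul]; congr 1; ring
      rw [e1, e2, hx3d, add_mul, add_mul]
      have f1 : L ^ 7 / (δ ^ 3 * (p : ℝ) ^ SB) * (p : ℝ) ^ RS * (p : ℝ) ^ SB * (p : ℝ) ^ (4 * s) ≤
          L ^ 8 * δ1⁻¹ * (δ⁻¹) ^ 4 := by
        have e3 : L ^ 7 / (δ ^ 3 * (p : ℝ) ^ SB) * (p : ℝ) ^ RS * (p : ℝ) ^ SB *
            (p : ℝ) ^ (4 * s) = L ^ 7 * δ1⁻¹ * (δ⁻¹) ^ 4 * ((p : ℝ) ^ (RS + 4 * s) * (δ1 * δ)) := by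
          rw [pow_add]
          field_simp
        rw [e3]
        calc _ ≤ L ^ 7 * δ1⁻¹ * (δ⁻¹) ^ 4 * L := by gcongr
          _ = _ := by ring
      have f2 : 2 * L ^ 7 / (δ1 * δ ^ 4 * (p : ℝ) ^ R) * (p : ℝ) ^ SB * (p : ℝ) ^ (4 * s) ≤
          2 * L ^ 8 * δ1⁻¹ * (δ⁻¹) ^ 4 := by
        have e3 : 2 * L ^ 7 / (δ1 * δ ^ 4 * (p : ℝ) ^ R) * (p : ℝ) ^ SB * (p : ℝ) ^ (4 * s) =
            2 * L ^ 7 * δ1⁻¹ * (δ⁻¹) ^ 4 * ((p : ℝ) ^ (SB + 4 * s) / (p : ℝ) ^ R) := by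
          rw [pow_add]
          field_simp
        rw [e3]
        have e4 : (p : ℝ) ^ (SB + 4 * s) / (p : ℝ) ^ R ≤ L := by
          rw [div_le_iff₀ (by positivity)]
          exact hF2
        calc _ ≤ 2 * L ^ 7 * δ1⁻¹ * (δ⁻¹) ^ 4 * L := by gcongr
          _ = _ := by ring
      linarith)
  -- the chain
  have hN : ∀ b : ι → ℕ, ((∏ i, pw p b i : ℕ) : ℝ≥0∞) ≤ ENNReal.ofReal ((p : ℝ) ^ ∑ i, b i) := by
    intro b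
    rw [prod_pw, ← ENNReal.ofReal_natCast]
    push_cast
    exact le_rfl
  have hws := wk_summable hω hω0 hM1
  have hw0 := wk_nonneg hω (M := M1)
  have hch := chain (I := ι → ℤ) (Z := ι → ℤ) (fun k => ENNReal.ofReal (wk ω M1 k))
    (wv M2 (1 / 4) (pw p b1)) (wv M2 (1 / 2) (pw p b2)) (wv M2 1 (pw p b3))
    (fun k => ‖ES M2 (1 / 2) 0 (UU U k (vv k))‖ₑ)
    (fun k z1 => ‖ES M2 1 (0 - (1 / 2 : ℝ) • (M2 *ᵥ rc (cz (pw p b1) * z1)))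
      (Df (cz (pw p b1) * z1) (UU U k (vv k)))‖ₑ)
    (fun k z1 z2 => ‖ES M2 2 (0 - (1 / 2 : ℝ) • (M2 *ᵥ rc (cz (pw p b1) * z1)) -
      (1 / 2 : ℝ) • (M2 *ᵥ rc (cz (pw p b2) * z2)))
      (Df (cz (pw p b2) * z2) (Df (cz (pw p b1) * z1) (UU U k (vv k))))‖ₑ)
    (fun z1 z2 z3 => ‖∑' k : ι → ℤ, ((wk ω M1 k : ℝ) : ℂ) *
          ES M2 4 (0 - (1 / 2 : ℝ) • (M2 *ᵥ rc (cz (pw p b1) * z1)) -
            (1 / 2 : ℝ) • (M2 *ᵥ rc (cz (pw p b2) * z2)) -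
            (1 / 2 : ℝ) • (M2 *ᵥ rc (cz (pw p b3) * z3)))
            (Df (cz (pw p b3) * z3) (Df (cz (pw p b2) * z2)
            (Df (cz (pw p b1) * z1) (UU U k (vv k)))))‖ₑ)
    ((∏ i, pw p b1 i : ℕ) : ℝ≥0∞) ((∏ i, pw p b2 i : ℕ) : ℝ≥0∞) ((∏ i, pw p b3 i : ℕ) : ℝ≥0∞)
    (ENNReal.ofReal (2 * L * δ⁻¹))
    (fun k => by
      have h1 := es_onev (D := pw p b1) (pw_pos hp.pos b1) hM2 (lam := 1 / 2) (by norm_num) 0
        (UU_norm hU k (vv k))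
      rw [show (2 * (1 / 2) : ℝ) = 1 by norm_num, show (1 / 2 / 2 : ℝ) = 1 / 4 by norm_num] at h1
      refine h1.trans ?_
      gcongr
      exact hθ 1 (by norm_num))
    (fun k z1 => by
      have h1 := es_onev (D := pw p b2) (pw_pos hp.pos b2) hM2 (lam := 1) (by norm_num)
        (0 - (1 / 2 : ℝ) • (M2 *ᵥ rc (cz (pw p b1) * z1)))
        (Df_norm (κ := cz (pw p b1) * z1) (UU_norm hU k (vv k)))
      rw [show (2 * 1 : ℝ) = 2 by norm_num] at h1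
      refine h1.trans ?_
      gcongr
      exact hθ 2 (by norm_num))
    (fun z1 z2 => by
      have h1 := es_famv (D := pw p b3) (pw_pos hp.pos b3) hM2 (lam := 2) (by norm_num)
        (0 - (1 / 2 : ℝ) • (M2 *ᵥ rc (cz (pw p b1) * z1)) -
      (1 / 2 : ℝ) • (M2 *ᵥ rc (cz (pw p b2) * z2))) hws hw0
        (u := fun k => Df (cz (pw p b2) * z2) (Df (cz (pw p b1) * z1) (UU U k (vv k))))
        (fun k => Df_norm (Df_norm (UU_norm hU k (vv k))))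
      rw [show (2 * 2 : ℝ) = 4 by norm_num, show (2 / 2 : ℝ) = 1 by norm_num] at h1
      refine h1.trans ?_
      gcongr
      exact hθ 4 (by norm_num))
    (w' := L * δ1⁻¹) (a1 := L * δ⁻¹ / (p : ℝ) ^ ∑ i, b1 i) (a2 := L * δ⁻¹ / (p : ℝ) ^ ∑ i, b2 i)
    (θ := 2 * L * δ⁻¹) (x3 := x3) (d1 := (p : ℝ) ^ ∑ i, b1 i) (d2 := (p : ℝ) ^ ∑ i, b2 i)
    (d3 := (p : ℝ) ^ ∑ i, b3 i)
    (b0 := 3 * L ^ 3 * δ1⁻¹ * δ⁻¹ / Real.sqrt P)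
    (b1 := 3 * L ^ 4 * (δ⁻¹) ^ 2 * δ1⁻¹ / (P * (p : ℝ) ^ ∑ i, b1 i))
    (b2 := 3 * L ^ 6 * (δ⁻¹) ^ 3 * δ1⁻¹ / (P ^ 2 * (p : ℝ) ^ (∑ i, b1 i) * (p : ℝ) ^ ∑ i, b2 i))
    (by positivity) (by positivity) (by positivity) (by positivity) hx30 (by positivity)
    (by positivity) (by positivity) (by positivity) (by positivity) (by positivity)
    (hN b1) (hN b2) (hN b3)
    le_rfl
    (by
      rw [← ENNReal.ofReal_tsum_of_nonneg hw0 hws]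
      apply ENNReal.ofReal_le_ofReal
      rw [← div_eq_mul_inv]
      refine hWK.trans ?_
      gcongr)
    (hA _ le_rfl b1 hb1r) (hA _ (by norm_num) b2 hb2r)
    (hx3 (fun z1 z2 z3 => 0 - (1 / 2 : ℝ) • (M2 *ᵥ rc (cz (pw p b1) * z1)) -
            (1 / 2 : ℝ) • (M2 *ᵥ rc (cz (pw p b2) * z2)) -
            (1 / 2 : ℝ) • (M2 *ᵥ rc (cz (pw p b3) * z3))))
    c0 c1 c2
  exact hch

end Pool.Agent.J4H31.V
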