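import Pool.Agent.J4H31.V.V6
import Pool.Agent.J4H31.A10

/-!
Poisson summation for products of periodic functions; the Fourier coefficients in one coordinate.
-/

set_option autoImplicit false
set_option linter.unusedSectionVars false

open MeasureTheory Matrix Complex
open Pool.Agent.Y766.R3 (eu KL FF FH S_PHI S_KLO)
open Pool.Agent.Y766.R7
open Pool.Agent.H442R2
open scoped ENNReal

namespace Pool.Agent.J4H31.V

variable {ι : Type} [Fintype ι] [DecidableEq ι]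

lemma FH_eq_Ico {Q : ℕ} (F : ℤ → ℂ) (j : ℤ) :
    FH Q F j = ∑ a ∈ Finset.Ico (0 : ℤ) Q, F a * KF.e ((j : ℝ) * ((a : ℝ) / Q)) := by
  unfold FH
  refine Finset.sum_nbij' (fun u : ℕ => (u : ℤ)) (fun u => u.toNat) ?_ ?_ ?_ ?_ ?_
  · intro u hu
    rw [Finset.mem_range] at hu
    rw [Finset.mem_Ico]
    omega
  · intro u hu
    rw [Finset.mem_Ico] at hu
    rw [Finset.mem_range]
    omega
  · intro u _
    simp
  · intro u hu
    rw [Finset.mem_Ico] at hu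
    simp [hu.1]
  · intro u _
    push_cast
    rfl

/-- Poisson summation for a product of periodic functions -/
theorem poisFv {Q : ι → ℕ} (hQ : ∀ i, 0 < Q i) {B : Matrix ι ι ℝ} (h : B.det ≠ 0) {lam : ℝ}
    (hl : 0 < lam) (c : ι → ℝ) {F : ι → ℤ → ℂ} (hF : ∀ i (n k : ℤ), F i (n + Q i * k) = F i n)
    (hF1 : ∀ i n, ‖F i n‖ ≤ 1) :
    ES B lam c (fun x => ∏ i, F i (x i)) =
      ((|B.det|⁻¹ * (∏ i, (Q i : ℝ))⁻¹ * lam ^ (-(Fintype.card ι : ℝ) / 2) : ℝ) : ℂ) *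
        ES (du B * Dm (cr Q)⁻¹) lam⁻¹ 0 (fun x => (∏ i, FH (Q i) (F i) (x i)) *
          eu ((-(c ᵥ* (du B * Dm (cr Q)⁻¹))) ⬝ᵥ rc x)) := by
  have hQ0 : ∀ i, (0 : ℝ) < Q i := fun i => by exact_mod_cast hQ i
  have hP0 : 0 < ∏ i, (Q i : ℝ) := Finset.prod_pos fun i _ => hQ0 i
  have hcr := cr_ne hQ
  have hcri : ∀ i, (cr Q)⁻¹ i ≠ 0 := fun i => by
    simp only [Pi.inv_apply]; exact inv_ne_zero (hcr i)
  have hdet : (B * Dm (cr Q)).det ≠ 0 := det_mul_Dm_ne h hcr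
  set M := du B * Dm (cr Q)⁻¹ with hM
  have hMdet : M.det ≠ 0 := det_mul_Dm_ne (det_du_ne h) hcri
  have hduM : du (B * Dm (cr Q)) = M := du_mul_Dm B hcr
  have hFp : ∀ x : ι → ℤ, ‖∏ i, F i (x i)‖ ≤ 1 := fun x => by
    rw [norm_prod]
    exact Finset.prod_le_one (fun _ _ => norm_nonneg _) fun i _ => hF1 i _
  have hs : Summable fun x : ι → ℤ => (∏ i, F i (x i)) * ((gw B lam c x : ℝ) : ℂ) := by
    refine Summable.of_norm_bounded (summable_gw h hl c) fun x => ?_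
    rw [norm_mul, Complex.norm_real, Real.norm_of_nonneg (gw_pos _ _ _ _).le]
    exact mul_le_of_le_one_left (gw_pos _ _ _ _).le (hFp _)
  have hsM := summable_gw hMdet (inv_pos.2 hl) 0
  unfold ES
  rw [tsum_clsv hQ hs]
  have h1 : ∀ a : ι → ℤ, ∑' z : ι → ℤ, (∏ i, F i ((a + cz Q * z) i)) *
      ((gw B lam c (a + cz Q * z) : ℝ) : ℂ) =
      ((|B.det|⁻¹ * (∏ i, (Q i : ℝ))⁻¹ * lam ^ (-(Fintype.card ι : ℝ) / 2) : ℝ) : ℂ) *
      ∑' k : ι → ℤ, (∏ i, F i (a i) * KF.e (((k i : ℤ) : ℝ) * ((a i : ℝ) / Q i))) *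
        (eu ((-(c ᵥ* M)) ⬝ᵥ rc k) * ((gw M lam⁻¹ 0 k : ℝ) : ℂ)) := by
    intro a
    have e1 : ∀ z : ι → ℤ, (∏ i, F i ((a + cz Q * z) i)) *
        ((gw B lam c (a + cz Q * z) : ℝ) : ℂ) =
        (∏ i, F i (a i)) * ((gw (B * Dm (cr Q)) lam (c - B *ᵥ rc a) z : ℝ) : ℂ) := by
      intro z
      rw [gw_sv, rc_cz]
      congr 1
      refine Finset.prod_congr rfl fun i _ => ?_
      exact hF i _ _
    simp_rw [e1]
    rw [tsum_mul_left]
    have e2 := pois hdet hl (c - B *ᵥ rc a) 0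
    have e0 : eu 0 = 1 := by simp [eu]
    simp only [zero_dotProduct, e0, one_mul] at e2
    have hPr : ∏ i, cr Q i = ∏ i, (Q i : ℝ) := rfl
    rw [e2, hduM, det_mul_Dm, hPr, abs_mul, abs_of_pos hP0, mul_left_comm]
    have e3 : |B.det|⁻¹ * (∏ i, (Q i : ℝ))⁻¹ = (|B.det| * ∏ i, (Q i : ℝ))⁻¹ := by rw [_root_.mul_inv]
    rw [e3, ← tsum_mul_left]
    congr 1
    refine tsum_congr fun k => ?_
    rw [Finset.prod_mul_distrib, mul_assoc (∏ i, F i (a i))]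
    congr 1
    have e4 : ((gz M lam⁻¹ 0 (0 - rc k) : ℝ) : ℂ) = ((gw M lam⁻¹ 0 k : ℝ) : ℂ) := by
      unfold gw gz
      rw [sub_zero, sub_zero, zero_sub, Matrix.mulVec_neg, nsq_neg]
    rw [e4, ← mul_assoc]
    congr 1
    have e6 : ∏ i, KF.e (((k i : ℤ) : ℝ) * ((a i : ℝ) / Q i)) =
        eu (∑ i, ((k i : ℤ) : ℝ) * ((a i : ℝ) / Q i)) := by
      have : ∀ i, KF.e (((k i : ℤ) : ℝ) * ((a i : ℝ) / Q i)) =
          eu (((k i : ℤ) : ℝ) * ((a i : ℝ) / Q i)) := fun i => (Pool.Agent.Y766.R3.eu_eq _).symm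
      simp_rw [this]
      unfold eu
      rw [← Complex.exp_sum]
      congr 1
      push_cast
      rw [Finset.mul_sum]
    rw [e6, ← eu_add]
    congr 1
    rw [zero_sub, sub_dotProduct, Matrix.mulVec_neg, dotProduct_neg, dotProduct_neg,
      neg_dotProduct, ← Matrix.dotProduct_mulVec]
    have e5 : (B *ᵥ rc a) ⬝ᵥ (M *ᵥ rc k) = ∑ i, ((k i : ℤ) : ℝ) * ((a i : ℝ) / Q i) := by
      rw [hM, ← Matrix.mulVec_mulVec, dotProduct_comm, du_dot h, Dm_mulVec]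
      unfold dotProduct
      refine Finset.sum_congr rfl fun i _ => ?_
      simp only [Pi.mul_apply, Pi.inv_apply, cr, rc]
      have := (hQ0 i).ne'
      field_simp
    rw [e5]
    ring
  simp_rw [h1]
  rw [← Finset.mul_sum]
  congr 1
  have hsum : ∀ a ∈ box Q, Summable fun k : ι → ℤ =>
      (∏ i, F i (a i) * KF.e (((k i : ℤ) : ℝ) * ((a i : ℝ) / Q i))) *
        (eu ((-(c ᵥ* M)) ⬝ᵥ rc k) * ((gw M lam⁻¹ 0 k : ℝ) : ℂ)) := by
    intro a _
    refine Summable.of_norm_bounded hsM fun k => ?_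
    rw [norm_mul, norm_mul, eu_norm', one_mul, Complex.norm_real,
      Real.norm_of_nonneg (gw_pos _ _ _ _).le, norm_prod]
    refine mul_le_of_le_one_left (gw_pos _ _ _ _).le
      (Finset.prod_le_one (fun _ _ => norm_nonneg _) fun i _ => ?_)
    rw [norm_mul, KF.norm_e, mul_one]
    exact hF1 i _
  rw [← Summable.tsum_finsetSum hsum]
  refine tsum_congr fun k => ?_
  rw [← Finset.sum_mul]
  have e7 : ∑ a ∈ box Q, ∏ i, F i (a i) * KF.e (((k i : ℤ) : ℝ) * ((a i : ℝ) / Q i)) =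
      ∏ i, FH (Q i) (F i) (k i) := by
    unfold box
    simp_rw [FH_eq_Ico]
    rw [Finset.prod_univ_sum]
  rw [e7]
  ring

/-! ### one coordinate -/

/-- the decomposition of the Fourier coefficients in one coordinate -/
def CD (p r b1 b2 b3 : ℕ) (F : ℤ → ℤ → ℂ) (P : ℤ → Prop) : Prop :=
  ∃ (J : Finset (ℤ × ℤ × Fin 2)) (ω : ℤ × ℤ × Fin 2 → ℤ → ℝ) (U : ℤ × ℤ × Fin 2 → ℤ → ℤ → ℂ)
    (ρ : ℤ × ℤ × Fin 2 → ℂ) (d : ℤ → ℝ),
    J.card ≤ 2 * p ^ 2 ∧ (∀ j ∈ J, ‖ρ j‖ ≤ (p : ℝ) ^ (r / 2) * p) ∧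
    (∀ j l, 0 ≤ ω j l ∧ ω j l ≤ 1) ∧ (0 < r → ∀ j ∈ J, ω j 0 = 0) ∧ (∀ j l x, ‖U j l x‖ ≤ 1) ∧
    (∀ j ∈ J, ∀ t1 t2 t3 : ℤ, (p : ℤ) ^ b1 ∣ t1 → (p : ℤ) ^ b2 ∣ t2 → (p : ℤ) ^ b3 ∣ t3 →
      Good p r (b1 + b2 + b3) (t1 * t2 * t3)
        (fun l x => (ω j l : ℂ) * Dz t3 (Dz t2 (Dz t1 (U j l))) x)) ∧
    (∀ l, P l → ∀ x, F l x = eu (-(d l * x)) * ∑ j ∈ J, ρ j * (ω j l : ℂ) * U j l x)

lemma FH_one (x : ℤ) : FH 1 (fun _ => 1) x = 1 := by
  unfold FH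
  simp [KF.e]

/-- an inactive coordinate -/
lemma cd_one {p : ℕ} (hp : 0 < p) : CD p 0 0 0 0 (fun _ _ => 1) (fun _ => True) := by
  refine ⟨{(0, 0, 0)}, fun _ _ => 1, fun _ _ _ => 1, fun _ => 1, fun _ => 0, ?_, ?_, ?_, ?_, ?_, ?_, ?_⟩
  · rw [Finset.card_singleton]
    have : 1 ≤ p ^ 2 := Nat.one_le_pow _ _ hp
    omega
  · intro j _
    have : (1 : ℝ) ≤ p := by exact_mod_cast hp
    simpa using this
  · intro j l
    exact ⟨zero_le_one, le_rfl⟩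
  · intro h
    omega
  · intro j l x
    simp
  · intro j _ t1 t2 t3 _ _ _
    have h1 := good_one hp (t1 * t2 * t3)
    have e : (fun l x : ℤ => (((1 : ℝ) : ℝ) : ℂ) * Dz t3 (Dz t2 (Dz t1 (fun _ => (1 : ℂ)))) x) =
        fun _ _ => 1 := by
      funext l x
      unfold Dz
      simp
    rw [e]
    exact h1
  · intro l _ x
    simp [eu]

/-- an active coordinate -/
lemma cd_act (hsq : S_SQ) (htd : S_TD) (hvar : S_VAR) (hinj : S_INJ) (hbr : S_BR)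
    (hklo : S_KLO) (hPhi : S_PHI) {p ν m b1 b2 b3 : ℕ} (hp : p.Prime) (hp7 : 7 ≤ p) (hm : 1 ≤ m)
    (h2m : 2 * m < ν) (h5m : ν + 1 ≤ 5 * m) (hb3 : 1 ≤ b3) (hb32 : b3 ≤ b2) (hb31 : b3 ≤ b1)
    (hr7 : ν - m ≤ 7 * b3) (hu : ν - 3 * m ≤ b3) (hsb : b1 + b2 + b3 ≤ ν - m)
    {χ : DirichletCharacter ℂ (p ^ ν)} (hχ : χ.IsPrimitive) :
    CD p (ν - m) b1 b2 b3 (fun l x => FH (p ^ (ν - m)) (FF χ ((p : ℤ) ^ m * l)) x)
      (fun l => ¬ (p : ℤ) ∣ l) := by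
  classical
  have hp2 : p ≠ 2 := by omega
  have : NeZero (p ^ (ν - m)) := ⟨pow_ne_zero _ hp.ne_zero⟩
  obtain ⟨u, hud⟩ : ∃ u, u = ν - 3 * m := ⟨_, rfl⟩
  rw [← hud] at hu
  obtain ⟨Ψ, A, L, hΨ1, hΨ2, hAu, hLu, hFH⟩ :=
    get_dataU hPhi (u := u) hp hp2 hm (by omega) (by omega) (by omega) hχ
  obtain ⟨-, k2, -⟩ := hklo p (ν - m) u hp hp2 (by omega) (by omega) Ψ hΨ1 hΨ2 A L hAu hLu
  have hex : ∀ l0 h0 : ℤ, ∃ (ρ : Fin 2 → ℂ) (Y : Fin 2 → ZMod (p ^ (ν - m))), ¬ (p : ℤ) ∣ l0 →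
      ¬ (p : ℤ) ∣ h0 → (∀ i, ‖ρ i‖ ≤ p ∧ IsUnit (Y i)) ∧
      ∀ l h : ℤ, (p : ℤ) ∣ l - l0 → (p : ℤ) ∣ h - h0 →
      KL Ψ A (L * ((l * h : ℤ) : ZMod (p ^ (ν - m)))) = (p : ℂ) ^ ((ν - m) / 2) *
        ∑ i, ρ i * Ψ (Y i * (aa p (ν - m) l0 l * aa p (ν - m) h0 h)) *
          ZMod.stdAddChar (2 * A * Y i * (aa p (ν - m) l0 l * aa p (ν - m) h0 h)) := by
    intro l0 h0
    by_cases hc : ¬ (p : ℤ) ∣ l0 ∧ ¬ (p : ℤ) ∣ h0
    · obtain ⟨ρ, Y, h1, h2⟩ := hbr p (ν - m) u hp hp2 (by omega) (by omega) Ψ hΨ2 A L hAu hLu l0 h0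
        hc.1 hc.2
      exact ⟨ρ, Y, fun _ _ => ⟨h1, h2⟩⟩
    · exact ⟨fun _ => 0, fun _ => 0, fun a b => absurd ⟨a, b⟩ hc⟩
  choose ρ Y hρY using hex
  have h2u : IsUnit (2 : ZMod (p ^ (ν - m))) := by
    have h1 : ¬ (p : ℤ) ∣ 2 := by
      intro h
      have h2 : p ∣ 2 := by exact_mod_cast h
      exact hp2 ((Nat.prime_dvd_prime_iff_eq hp Nat.prime_two).1 h2)
    have := Pool.Agent.Y779.R3.unit_int (r := ν - m) hp h1
    simpa using this
  have hdex : ∀ l : ℤ, ∃ d : ℤ, ¬ (p : ℤ) ∣ l → ∀ j : ℤ,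
      FH (p ^ (ν - m)) (FF χ ((p : ℤ) ^ m * l)) j =
        KF.e (((-(j * d) : ℤ) : ℝ) / (p ^ (ν - m) : ℕ)) *
          KL Ψ A (L * ((l * j : ℤ) : ZMod (p ^ (ν - m)))) := by
    intro l
    by_cases hl : (p : ℤ) ∣ l
    · exact ⟨0, fun h => absurd hl h⟩
    · obtain ⟨d, hd⟩ := hFH l hl
      exact ⟨d, fun _ => hd⟩
  choose dd hdd using hdex
  refine ⟨(Finset.Ico (1 : ℤ) p) ×ˢ (Finset.Ico (1 : ℤ) p) ×ˢ (Finset.univ : Finset (Fin 2)),
    fun j l => if (p : ℤ) ∣ l - j.1 then 1 else 0,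
    fun j l x => U1 p (ν - m) j.1 j.2.1 Ψ (Y j.1 j.2.1 j.2.2) (2 * A * Y j.1 j.2.1 j.2.2) l x,
    fun j => (p : ℂ) ^ ((ν - m) / 2) * ρ j.1 j.2.1 j.2.2,
    fun l => (dd l : ℝ) / (p ^ (ν - m) : ℕ), ?_, ?_, ?_, ?_, ?_, ?_, ?_⟩
  · rw [Finset.card_product, Finset.card_product, Int.card_Ico, Finset.card_univ, Fintype.card_fin]
    have h1 : ((p : ℤ) - 1).toNat ≤ p := by omega
    calc _ ≤ p * (p * 2) := Nat.mul_le_mul h1 (Nat.mul_le_mul h1 le_rfl)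
      _ = _ := by ring
  · intro j hj
    rw [Finset.mem_product, Finset.mem_product] at hj
    rw [norm_mul, norm_pow, Complex.norm_natCast]
    exact mul_le_mul_of_nonneg_left ((hρY _ _ (cls_nd hp hj.1) (cls_nd hp hj.2.1)).1 _).1
      (by positivity)
  · intro j l
    beta_reduce
    split_ifs <;> norm_num
  · intro _ j hj
    rw [Finset.mem_product] at hj
    beta_reduce
    rw [if_neg]
    rw [zero_sub, dvd_neg]
    exact cls_nd hp hj.1
  · intro j l x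
    exact U1_norm hΨ1 _ _ _ _
  · intro j hj t1 t2 t3 d1 d2 d3
    rw [Finset.mem_product, Finset.mem_product] at hj
    have hl0 := cls_nd hp hj.1
    have hh0 := cls_nd hp hj.2.1
    have h1 := good_U1 hsq htd hvar hinj hp hp7 (a := b3) (u := u) hb3 hu (by omega) hr7 hl0 hh0
      hΨ1 hΨ2 (Y j.1 j.2.1 j.2.2) (C := 2 * A * Y j.1 j.2.1 j.2.2)
      ((h2u.mul hAu).mul ((hρY _ _ hl0 hh0).1 _).2) ((pow_dvd_pow _ hb31).trans d1)
      ((pow_dvd_pow _ hb32).trans d2) d3 hsb (by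
        rw [pow_add, pow_add]
        exact mul_dvd_mul (mul_dvd_mul d1 d2) d3)
    have e : (fun l x : ℤ => (((if (p : ℤ) ∣ l - j.1 then (1 : ℝ) else 0 : ℝ)) : ℂ) *
        Dz t3 (Dz t2 (Dz t1 (U1 p (ν - m) j.1 j.2.1 Ψ (Y j.1 j.2.1 j.2.2)
          (2 * A * Y j.1 j.2.1 j.2.2) l))) x) =
        fun l x => (if (p : ℤ) ∣ l - j.1 then 1 else 0) *
        Dz t3 (Dz t2 (Dz t1 (U1 p (ν - m) j.1 j.2.1 Ψ (Y j.1 j.2.1 j.2.2)
          (2 * A * Y j.1 j.2.1 j.2.2) l))) x := by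
      funext l x
      congr 1
      split_ifs <;> simp
    exact e ▸ h1
  · intro l hl x
    obtain ⟨m1, m2⟩ := mod_cls hp hl
    have hl0d := cls_nd hp m1
    beta_reduce
    rw [hdd l hl x, ← Pool.Agent.Y766.R3.eu_eq]
    have e0 : ((-(x * dd l) : ℤ) : ℝ) / (p ^ (ν - m) : ℕ) =
        -((dd l : ℝ) / (p ^ (ν - m) : ℕ) * x) := by
      push_cast
      ring
    rw [e0]
    congr 1
    rw [Finset.sum_product]
    rw [Finset.sum_eq_single (l % p)]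
    · simp_rw [if_pos m2]
      set l0 := l % p with hl0
      by_cases hc : (p : ℤ) ∣ x
      · rw [k2 (l * x) (Dvd.dvd.mul_left hc _)]
        symm
        rw [Finset.sum_product]
        refine Finset.sum_eq_zero fun h0 hh0 => Finset.sum_eq_zero fun i _ => ?_
        have hh0d := cls_nd hp hh0
        simp only
        unfold U1
        rw [if_neg (fun h => hh0d ?_), mul_zero]
        have := dvd_sub hc h
        simpa using this
      · obtain ⟨n1, n2⟩ := mod_cls hp hc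
        rw [Finset.sum_product, Finset.sum_eq_single (x % p)]
        · rw [(hρY l0 (x % p) hl0d (cls_nd hp n1)).2 l x m2 n2, Finset.mul_sum]
          refine Finset.sum_congr rfl fun i _ => ?_
          simp only
          unfold U1
          rw [if_pos n2]
          push_cast
          ring
        · intro h0 hh0 hne
          refine Finset.sum_eq_zero fun i _ => ?_
          simp only
          unfold U1
          rw [if_neg, mul_zero]
          intro hd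
          apply hne
          have h3 : (p : ℤ) ∣ h0 - x % p := by
            have := dvd_sub n2 hd
            have e : x - x % p - (x - h0) = h0 - x % p := by ring
            rwa [e] at this
          rw [Finset.mem_Ico] at hh0 n1
          have h4 : (h0 - x % p) = 0 := by
            apply Int.eq_zero_of_abs_lt_dvd h3
            rw [abs_lt]
            constructor <;> omega
          omega
        · intro h1
          exact absurd n1 h1
    · intro l0 hl0 hne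
      refine Finset.sum_eq_zero fun j _ => ?_
      simp only
      rw [if_neg]
      · simp
      · intro hd
        apply hne
        have h3 : (p : ℤ) ∣ l0 - l % p := by
          have := dvd_sub m2 hd
          have e : l - l % p - (l - l0) = l0 - l % p := by ring
          rwa [e] at this
        rw [Finset.mem_Ico] at hl0 m1
        have h4 : (l0 - l % p) = 0 := by
          apply Int.eq_zero_of_abs_lt_dvd h3
          rw [abs_lt]
          constructor <;> omega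
        omega
    · intro h1
      exact absurd m1 h1

end Pool.Agent.J4H31.V
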