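import Pool.Agent.J4H31.V.V7

/-!
Small shifts, in several coordinates.
-/

set_option autoImplicit false
set_option linter.unusedSectionVars false

open MeasureTheory Matrix Complex
open Pool.Agent.Y766.R3 (eu KL FF FH S_PHI S_KLO)
open Pool.Agent.Y766.R7
open Pool.Agent.H442R2
open scoped ENNReal

namespace Pool.Agent.J4H31.V

variable {ι : Type} [Fintype ι] [DecidableEq ι]

lemma prod_eu (a : ι → ℝ) : ∏ i, eu (a i) = eu (∑ i, a i) := by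
  unfold eu
  rw [← Complex.exp_sum]
  congr 1
  push_cast
  rw [Finset.mul_sum]

open Classical in
/-- **small shifts** -/
theorem caseDv {p : ℕ} (hp : p.Prime) {r b1 b2 b3 : ι → ℕ} (hsb : ∀ i, b1 i + b2 i + b3 i ≤ r i)
    {P : ι → ℤ → Prop} {f : ι → ℤ → ℤ → ℂ}
    (hper : ∀ i l, P i l → ∀ a k : ℤ, f i l (a + (p ^ r i : ℕ) * k) = f i l a)
    (hf1 : ∀ i l x, ‖f i l x‖ ≤ 1)
    (hCD : ∀ i, CD p (r i) (b1 i) (b2 i) (b3 i) (fun l x => FH (p ^ r i) (f i l) x) (P i))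
    (hr : ∃ i, 0 < r i) {M1 M2 B' : Matrix ι ι ℝ} (hM1 : M1.det ≠ 0) (hB' : B'.det ≠ 0)
    (hM2e : M2 = du B' * Dm (ew p r)⁻¹) {C0 L : ℝ} (hC0 : 0 ≤ C0) (hb1' : Bal C0 M1)
    (hb2' : ∀ c : ι → ℕ, c ≤ r → Bal C0 (M2 * Dm (ew p c)))
    (hd1 : ∀ c : ι → ℕ, c ≤ r → Bal C0 (du M1 * Dm (ew p c)⁻¹))
    (hd2 : ∀ c : ι → ℕ, c ≤ r → Bal C0 (du M2 * Dm (ew p c)⁻¹))
    (hL1 : 1 ≤ L) (hL2 : C0 * 2 ^ (Fintype.card ι) ≤ L) (hL3 : (p : ℝ) ^ (2 * Fintype.card ι) ≤ L)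
    (hL4 : ((∏ i, (r i + 1) : ℕ) : ℝ) ^ 3 ≤ L) (hL5 : C0 ≤ L) {s : ℕ}
    (hH1 : (p : ℝ) ^ (∑ i, b1 i + s) * |M2.det| ≤ L)
    (hH2 : (p : ℝ) ^ (∑ i, b2 i + 2 * s) * |M2.det| ≤ L)
    (hH3 : (p : ℝ) ^ (∑ i, b3 i + 4 * s) * |M2.det| ≤ L)
    (hF1 : (p : ℝ) ^ (∑ i, (r i - (b1 i + b2 i + b3 i)) + 4 * s) * (|M1.det| * |M2.det|) ≤ L)
    (hF2 : (p : ℝ) ^ (∑ i, (b1 i + b2 i + b3 i) + 4 * s) ≤ L * (p : ℝ) ^ ∑ i, r i)
    (cc : (ι → ℤ) → ι → ℝ) :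
    ∑' z : ι → ℤ, ENNReal.ofReal (if ∀ i, P i (z i) then gw M1 (1 / 2) 0 z else 0) *
      ‖ES B' 2 (cc z) (fun x => ∏ i, f i (z i) (x i))‖ₑ ≤
      ENNReal.ofReal ((2 * (p : ℝ) ^ 3) ^ (Fintype.card ι) *
        (3 * L ^ 3 * |M1.det|⁻¹ * ((p : ℝ) ^ (∑ i, r i / 2) / Real.sqrt ((p : ℝ) ^ s)))) := by
  have hp0 : (0 : ℝ) < p := by exact_mod_cast hp.pos
  have hp1 : (1 : ℝ) ≤ p := by exact_mod_cast hp.one_le
  set n := Fintype.card ι with hn
  have hewi := ew_inv_ne hp.pos r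
  have hM2 : M2.det ≠ 0 := by rw [hM2e]; exact det_mul_Dm_ne (det_du_ne hB') hewi
  set δ := |M2.det| with hδ
  set δ1 := |M1.det| with hδ1
  have hδ0 : 0 < δ := abs_pos.2 hM2
  have hδ10 : 0 < δ1 := abs_pos.2 hM1
  have hL0 : 0 < L := by linarith
  choose J ω U ρ d c1 c2 c3 c4 c5 c6 c7 using hCD
  -- the constant of Poisson summation
  set K : ℝ := |B'.det|⁻¹ * (∏ i, ((pw p r i : ℕ) : ℝ))⁻¹ * 2 ^ (-(n : ℝ) / 2) with hK
  have hPp : ∏ i, ((pw p r i : ℕ) : ℝ) = (p : ℝ) ^ ∑ i, r i := by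
    rw [← Nat.cast_prod, prod_pw]; push_cast; rfl
  have hδe : δ = |B'.det|⁻¹ * ((p : ℝ) ^ ∑ i, r i)⁻¹ := by
    rw [hδ, hM2e, det_mul_Dm, prod_ew_inv, det_du, abs_mul, abs_inv,
      abs_of_pos (inv_pos.2 (by positivity : (0 : ℝ) < (p : ℝ) ^ ∑ i, r i))]
  have hK0 : 0 ≤ K := by
    rw [hK, hPp]; positivity
  have hKδ : K ≤ δ := by
    rw [hK, hPp, hδe]
    refine mul_le_of_le_one_right (by positivity) ?_
    refine Real.rpow_le_one_of_one_le_of_nonpos (by norm_num) ?_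
    have : (0 : ℝ) ≤ n := Nat.cast_nonneg _
    linarith
  -- the vectors
  set vv : (ι → ℤ) → ι → ℝ := fun z => (-(cc z ᵥ* M2)) - fun i => d i (z i) with hvv
  set JJ : Finset (ι → ℤ × ℤ × Fin 2) := Fintype.piFinset J with hJJ
  set XX : (ι → ℤ × ℤ × Fin 2) → (ι → ℤ) → ℝ≥0∞ := fun j z =>
    ENNReal.ofReal (wk (fun i l => ω i (j i) l) M1 z) *
      ‖ES M2 (1 / 2) 0 (UU (fun i => U i (j i)) z (vv z))‖ₑ with hXX
  set Rb : ℝ := ∏ i : ι, ((p : ℝ) ^ (r i / 2) * p) with hRb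
  have hRb0 : 0 ≤ Rb := Finset.prod_nonneg fun i _ => by positivity
  have hone : ∀ z : ι → ℤ, ENNReal.ofReal (if ∀ i, P i (z i) then gw M1 (1 / 2) 0 z else 0) *
      ‖ES B' 2 (cc z) (fun x => ∏ i, f i (z i) (x i))‖ₑ ≤
      ∑ j ∈ JJ, ENNReal.ofReal (K * Rb) * XX j z := by
    intro z
    by_cases hz : ∀ i, P i (z i)
    swap
    · rw [if_neg hz, ENNReal.ofReal_zero, zero_mul]
      exact zero_le
    rw [if_pos hz]
    have h1 := poisFv (Q := pw p r) (pw_pos hp.pos r) hB' (lam := 2) two_pos (cc z)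
      (F := fun i => f i (z i)) (fun i a k => hper i (z i) (hz i) a k) (fun i x => hf1 i _ _)
    rw [cr_pw, ← hM2e] at h1
    have h2 : (fun x : ι → ℤ => (∏ i, FH (pw p r i) (f i (z i)) (x i)) *
          eu ((-(cc z ᵥ* M2)) ⬝ᵥ rc x)) =
        fun x => ∑ j ∈ JJ, (∏ i, ρ i (j i) * (ω i (j i) (z i) : ℂ)) *
          UU (fun i => U i (j i)) z (vv z) x := by
      funext x
      have e1 : ∏ i, FH (pw p r i) (f i (z i)) (x i) =
          eu (-∑ i, d i (z i) * x i) * ∑ j ∈ JJ, ∏ i, (ρ i (j i) * (ω i (j i) (z i) : ℂ) *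
            U i (j i) (z i) (x i)) := by
        have e5 := Finset.prod_univ_sum J (fun i a => ρ i a * (ω i a (z i) : ℂ) *
          U i a (z i) (x i))
        rw [hJJ, ← e5, ← Finset.sum_neg_distrib, ← prod_eu, ← Finset.prod_mul_distrib]
        exact Finset.prod_congr rfl fun i _ => c7 i (z i) (hz i) (x i)
      rw [e1, mul_comm (eu _), mul_assoc, ← eu_add, Finset.sum_mul]
      refine Finset.sum_congr rfl fun j _ => ?_
      unfold UU
      have e2 : -∑ i, d i (z i) * x i + (-(cc z ᵥ* M2)) ⬝ᵥ rc x = vv z ⬝ᵥ rc x := by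
        rw [hvv]
        simp only
        rw [sub_dotProduct]
        have : (fun i => d i (z i)) ⬝ᵥ rc x = ∑ i, d i (z i) * x i := rfl
        rw [this]
        ring
      rw [e2, Finset.prod_mul_distrib]
      ring
    rw [h2, ES_sum hM2 (by norm_num) 0 JJ _ (fun j x => UU_norm (fun i => c5 i (j i)) z (vv z) x)] at h1
    rw [h1, enorm_mul, ← ofReal_norm (((|B'.det|⁻¹ * _ * _ : ℝ) : ℂ)), Complex.norm_real,
      Real.norm_of_nonneg hK0]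
    have h3 : ‖∑ j ∈ JJ, (∏ i, ρ i (j i) * (ω i (j i) (z i) : ℂ)) *
          ES M2 (2 : ℝ)⁻¹ 0 (UU (fun i => U i (j i)) z (vv z))‖ₑ ≤
        ∑ j ∈ JJ, ENNReal.ofReal (Rb * ∏ i, ω i (j i) (z i)) *
          ‖ES M2 (1 / 2) 0 (UU (fun i => U i (j i)) z (vv z))‖ₑ := by
      refine (enorm_sum_le _ _).trans (Finset.sum_le_sum fun j hj => ?_)
      rw [hJJ, Fintype.mem_piFinset] at hj
      rw [enorm_mul, inv_eq_one_div]
      gcongr
      rw [← ofReal_norm]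
      refine ENNReal.ofReal_le_ofReal ?_
      rw [Finset.prod_mul_distrib, norm_mul, norm_prod, norm_prod]
      have e4 : ∏ i, ‖(ω i (j i) (z i) : ℂ)‖ = ∏ i, ω i (j i) (z i) := by
        refine Finset.prod_congr rfl fun i _ => ?_
        rw [Complex.norm_real, Real.norm_of_nonneg (c3 i _ _).1]
      rw [e4]
      refine mul_le_mul_of_nonneg_right ?_ (Finset.prod_nonneg fun i _ => (c3 i _ _).1)
      exact Finset.prod_le_prod (fun _ _ => norm_nonneg _) fun i _ => c2 i _ (hj i)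
    calc _ ≤ ENNReal.ofReal (gw M1 (1 / 2) 0 z) * (ENNReal.ofReal K *
        ∑ j ∈ JJ, ENNReal.ofReal (Rb * ∏ i, ω i (j i) (z i)) *
          ‖ES M2 (1 / 2) 0 (UU (fun i => U i (j i)) z (vv z))‖ₑ) := by gcongr
      _ = _ := by
          rw [Finset.mul_sum, Finset.mul_sum]
          refine Finset.sum_congr rfl fun j _ => ?_
          simp only [hXX, wk]
          have hω0 : 0 ≤ ∏ i, ω i (j i) (z i) := Finset.prod_nonneg fun i _ => (c3 i _ _).1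
          rw [ENNReal.ofReal_mul hK0, ENNReal.ofReal_mul hRb0, ENNReal.ofReal_mul hω0]
          ring
  have hmean : ∀ j ∈ JJ, ∑' z, XX j z ≤
        ENNReal.ofReal (3 * L ^ 3 * δ1⁻¹ * δ⁻¹ / Real.sqrt ((p : ℝ) ^ s)) := by
    intro j hj
    rw [hJJ, Fintype.mem_piFinset] at hj
    refine meanV hp hsb (ω := fun i l => ω i (j i) l) (fun i l => c3 i _ _) ?_
      (U := fun i => U i (j i)) (fun i => c5 i (j i)) (fun i => c6 i _ (hj i)) vv hM1 hM2 hC0 hb1'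
      hb2' hd1 hd2 hL1 hL2 hL3 hL4 hL5 hH1 hH2 hH3 hF1 hF2
    obtain ⟨i, hi⟩ := hr
    exact ⟨i, c4 i hi _ (hj i)⟩
  have hcardJ : (JJ.card : ℝ) ≤ (2 * (p : ℝ) ^ 2) ^ n := by
    rw [hJJ, Fintype.card_piFinset]
    have h1 : ∏ i, (J i).card ≤ ∏ _i : ι, (2 * p ^ 2) :=
      Finset.prod_le_prod (fun _ _ => Nat.zero_le _) fun i _ => c1 i
    rw [Finset.prod_const, Finset.card_univ] at h1
    exact_mod_cast h1
  have hRbe : Rb = (p : ℝ) ^ (∑ i, r i / 2) * (p : ℝ) ^ n := by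
    rw [hRb, Finset.prod_mul_distrib, Finset.prod_pow_eq_pow_sum, Finset.prod_const,
      Finset.card_univ]
  calc _ ≤ ∑' z : ι → ℤ, ∑ j ∈ JJ, ENNReal.ofReal (K * Rb) * XX j z := ENNReal.tsum_le_tsum hone
    _ = ∑ j ∈ JJ, ENNReal.ofReal (K * Rb) * ∑' z, XX j z := by
        rw [Summable.tsum_finsetSum fun _ _ => ENNReal.summable]
        exact Finset.sum_congr rfl fun j _ => ENNReal.tsum_mul_left
    _ ≤ ∑ j ∈ JJ, ENNReal.ofReal (K * Rb) *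
        ENNReal.ofReal (3 * L ^ 3 * δ1⁻¹ * δ⁻¹ / Real.sqrt ((p : ℝ) ^ s)) := by
        refine Finset.sum_le_sum fun j hj => ?_
        gcongr
        exact hmean j hj
    _ = ENNReal.ofReal ((JJ.card : ℝ) *
        (K * Rb * (3 * L ^ 3 * δ1⁻¹ * δ⁻¹ / Real.sqrt ((p : ℝ) ^ s)))) := by
        rw [Finset.sum_const, nsmul_eq_mul, ENNReal.ofReal_mul (Nat.cast_nonneg _),
          ENNReal.ofReal_mul (mul_nonneg hK0 hRb0), ENNReal.ofReal_natCast]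
    _ ≤ _ := by
        refine ENNReal.ofReal_le_ofReal ?_
        have hsp : 0 < Real.sqrt ((p : ℝ) ^ s) := Real.sqrt_pos.2 (by positivity)
        calc _ ≤ (2 * (p : ℝ) ^ 2) ^ n *
            (δ * Rb * (3 * L ^ 3 * δ1⁻¹ * δ⁻¹ / Real.sqrt ((p : ℝ) ^ s))) := by gcongr
          _ = _ := by
              rw [hRbe]
              have e3 : (2 * (p : ℝ) ^ 3) ^ n = (2 * (p : ℝ) ^ 2) ^ n * (p : ℝ) ^ n := by
                rw [← mul_pow]
                congr 1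
                ring
              rw [e3]
              field_simp

end Pool.Agent.J4H31.V
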