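import Pool.Agent.J4H31.V.V8
import Pool.Agent.J4H31.A12

/-!
Middle shifts, large shifts; inactive coordinates.
-/

set_option autoImplicit false
set_option linter.unusedSectionVars false

open MeasureTheory Matrix Complex
open Pool.Agent.Y766.R3 (eu KL FF FH S_PHI S_KLO)
open Pool.Agent.Y766.R7
open Pool.Agent.H442R2
open scoped ENNReal

namespace Pool.Agent.J4H31.V

variable {ι : Type} [Fintype ι] [DecidableEq ι]

open Classical in
/-- **middle shifts** -/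
theorem caseCv {p : ℕ} (hp : p.Prime) {r : ι → ℕ} {P : ι → ℤ → Prop} {f : ι → ℤ → ℤ → ℂ}
    (hper : ∀ i l, P i l → ∀ a k : ℤ, f i l (a + (p ^ r i : ℕ) * k) = f i l a)
    (hf1 : ∀ i l x, ‖f i l x‖ ≤ 1)
    (hFH : ∀ i l, P i l → ∀ x, ‖FH (p ^ r i) (f i l) x‖ ≤ 2 * (p : ℝ) ^ ((r i + 1) / 2))
    (hFH0 : ∀ i l, P i l → 0 < r i → FH (p ^ r i) (f i l) 0 = 0)
    (hr : ∃ i, 0 < r i) (hP0 : ∃ i, ¬ P i 0) {M1 M2 B' : Matrix ι ι ℝ} (hM1 : M1.det ≠ 0)
    (hB' : B'.det ≠ 0) (hM2e : M2 = du B' * Dm (ew p r)⁻¹) {C0 L : ℝ} (hC0 : 0 ≤ C0)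
    (hb1' : Bal C0 M1) (hb2' : Bal C0 M2) (hL1 : 1 ≤ L) (hL2 : C0 * 2 ^ (Fintype.card ι) ≤ L)
    (cc : (ι → ℤ) → ι → ℝ) :
    ∑' z : ι → ℤ, ENNReal.ofReal (if ∀ i, P i (z i) then gw M1 (1 / 2) 0 z else 0) *
      ‖ES B' 2 (cc z) (fun x => ∏ i, f i (z i) (x i))‖ₑ ≤
      ENNReal.ofReal (2 ^ (Fintype.card ι) * L ^ 2 * |M1.det|⁻¹ *
        (p : ℝ) ^ (∑ i, (r i + 1) / 2)) := by
  have hp0 : (0 : ℝ) < p := by exact_mod_cast hp.pos
  have hp1 : (1 : ℝ) ≤ p := by exact_mod_cast hp.one_le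
  set n := Fintype.card ι with hn
  have hewi := ew_inv_ne hp.pos r
  have hM2 : M2.det ≠ 0 := by rw [hM2e]; exact det_mul_Dm_ne (det_du_ne hB') hewi
  set δ := |M2.det| with hδ
  set δ1 := |M1.det| with hδ1
  have hδ0 : 0 < δ := abs_pos.2 hM2
  have hδ10 : 0 < δ1 := abs_pos.2 hM1
  have hL0 : 0 < L := by linarith
  set K : ℝ := |B'.det|⁻¹ * (∏ i, ((pw p r i : ℕ) : ℝ))⁻¹ * 2 ^ (-(n : ℝ) / 2) with hK
  have hPp : ∏ i, ((pw p r i : ℕ) : ℝ) = (p : ℝ) ^ ∑ i, r i := by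
    rw [← Nat.cast_prod, prod_pw]; push_cast; rfl
  have hδe : δ = |B'.det|⁻¹ * ((p : ℝ) ^ ∑ i, r i)⁻¹ := by
    rw [hδ, hM2e, det_mul_Dm, prod_ew_inv, det_du, abs_mul, abs_inv,
      abs_of_pos (inv_pos.2 (by positivity : (0 : ℝ) < (p : ℝ) ^ ∑ i, r i))]
  have hK0 : 0 ≤ K := by
    rw [hK, hPp]; positivity
  have hKδ : K ≤ δ := by
    rw [hK, hPp, hδe]
    refine mul_le_of_le_one_right (by positivity) ?_
    refine Real.rpow_le_one_of_one_le_of_nonpos (by norm_num) ?_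
    have : (0 : ℝ) ≤ n := Nat.cast_nonneg _
    linarith
  have ht1 : th1 M1 (1 / 2) ≤ L / δ1 := th1_le hM1 hC0 hb1' hL2 (by norm_num)
  have ht2 : th1 M2 (1 / 2) ≤ L / δ := th1_le hM2 hC0 hb2' hL2 (by norm_num)
  set Rb : ℝ := 2 ^ n * (p : ℝ) ^ (∑ i, (r i + 1) / 2) with hRb
  have hRb0 : 0 ≤ Rb := by positivity
  have hpt : ∀ z : ι → ℤ, (∀ i, P i (z i)) →
      ‖ES B' 2 (cc z) (fun x => ∏ i, f i (z i) (x i))‖ ≤ Rb * L := by
    intro z hz
    have h1 := poisFv (Q := pw p r) (pw_pos hp.pos r) hB' (lam := 2) two_pos (cc z)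
      (F := fun i => f i (z i)) (fun i a k => hper i (z i) (hz i) a k) (fun i x => hf1 i _ _)
    rw [cr_pw, ← hM2e] at h1
    rw [h1, norm_mul, Complex.norm_real, Real.norm_of_nonneg hK0]
    have h4 : ‖ES M2 (2 : ℝ)⁻¹ 0 (fun x : ι → ℤ => (∏ i, FH (pw p r i) (f i (z i)) (x i)) *
          eu ((-(cc z ᵥ* M2)) ⬝ᵥ rc x))‖ ≤ Rb * th1 M2 (1 / 2) := by
      unfold ES th1
      rw [← tsum_mul_left]
      refine tsum_of_norm_bounded ((summable_th1 hM2 (by norm_num)).mul_left _).hasSum fun x => ?_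
      rw [norm_mul, norm_mul, eu_norm', mul_one, Complex.norm_real,
        Real.norm_of_nonneg (gw_pos _ _ _ _).le, inv_eq_one_div]
      split_ifs with hx
      · obtain ⟨i, hi⟩ := hr
        have h5 : ∏ i, FH (pw p r i) (f i (z i)) (x i) = 0 := by
          refine Finset.prod_eq_zero (Finset.mem_univ i) ?_
          rw [hx]
          exact hFH0 i _ (hz i) hi
        rw [h5]; simp
      · refine mul_le_mul_of_nonneg_right ?_ (gw_pos _ _ _ _).le
        rw [norm_prod]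
        calc ∏ i, ‖FH (pw p r i) (f i (z i)) (x i)‖ ≤ ∏ i, (2 * (p : ℝ) ^ ((r i + 1) / 2)) :=
              Finset.prod_le_prod (fun _ _ => norm_nonneg _) fun i _ => hFH i _ (hz i) _
          _ = _ := by
              rw [Finset.prod_mul_distrib, Finset.prod_const, Finset.card_univ,
                Finset.prod_pow_eq_pow_sum]
    calc _ ≤ δ * (Rb * (L / δ)) := by
          refine mul_le_mul hKδ (h4.trans ?_) (norm_nonneg _) hδ0.le
          exact mul_le_mul_of_nonneg_left ht2 hRb0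
      _ = _ := by field_simp
  calc _ ≤ ∑' z : ι → ℤ, ENNReal.ofReal (Rb * L) *
        ENNReal.ofReal (if z = 0 then 0 else gw M1 (1 / 2) 0 z) := by
        refine ENNReal.tsum_le_tsum fun z => ?_
        by_cases hz : ∀ i, P i (z i)
        · have hz0 : z ≠ 0 := by
            rintro rfl
            obtain ⟨i, hi⟩ := hP0
            exact hi (hz i)
          rw [if_pos hz, if_neg hz0, mul_comm]
          gcongr
          rw [← ofReal_norm]
          exact ENNReal.ofReal_le_ofReal (hpt z hz)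
        · rw [if_neg hz, ENNReal.ofReal_zero, zero_mul]
          exact zero_le
    _ = ENNReal.ofReal (Rb * L) * ENNReal.ofReal (th1 M1 (1 / 2)) := by
        rw [ENNReal.tsum_mul_left]
        congr 1
        unfold th1
        rw [ENNReal.ofReal_tsum_of_nonneg ?_ (summable_th1 hM1 (by norm_num))]
        intro z
        split_ifs
        · exact le_rfl
        · exact (gw_pos _ _ _ _).le
    _ ≤ _ := by
        rw [← ENNReal.ofReal_mul (by positivity)]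
        refine ENNReal.ofReal_le_ofReal ?_
        calc _ ≤ Rb * L * (L / δ1) := by gcongr
          _ = _ := by
              rw [hRb]
              field_simp

/-! ### inactive coordinates -/

/-- the phase of large shifts has a small period -/
lemma FF_per {p ν c ρ : ℕ} (hp : p.Prime) (hcρ : ν ≤ c + ρ) (hρ : 1 ≤ ρ)
    (χ : DirichletCharacter ℂ (p ^ ν)) (z x k : ℤ) :
    FF χ ((p : ℤ) ^ c * z) (x + (p : ℤ) ^ ρ * k) = FF χ ((p : ℤ) ^ c * z) x := by
  have hpz : (p : ℤ) ∣ (p : ℤ) ^ ρ * k := Dvd.dvd.mul_right (dvd_pow_self _ (by omega)) _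
  rcases Nat.eq_zero_or_pos ν with h0 | hν
  · subst h0
    have hs : Subsingleton (ZMod (p ^ 0)) := by
      rw [pow_zero]
      infer_instance
    unfold FF
    rw [Subsingleton.elim ((x + (p : ℤ) ^ ρ * k + (p : ℤ) ^ c * z : ℤ) : ZMod (p ^ 0))
      ((x + (p : ℤ) ^ c * z : ℤ) : ZMod (p ^ 0)),
      Subsingleton.elim ((x + (p : ℤ) ^ ρ * k : ℤ) : ZMod (p ^ 0)) ((x : ℤ) : ZMod (p ^ 0))]
  set P : ℤ := (p : ℤ) ^ c * z with hP
  set x' : ℤ := x + (p : ℤ) ^ ρ * k with hx'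
  unfold FF
  have hnu : ∀ y : ℤ, (p : ℤ) ∣ y → χ ((y : ℤ) : ZMod (p ^ ν)) = 0 := by
    intro y hy
    refine χ.map_nonunit ?_
    obtain ⟨w, rfl⟩ := hy
    push_cast
    exact Pool.Agent.Y779.R3.not_unit_pi hp hν _
  by_cases hx : (p : ℤ) ∣ x
  · have hx2 : (p : ℤ) ∣ x' := dvd_add hx hpz
    rw [hnu x hx, hnu x' hx2]
    simp
  · have hx2 : ¬ (p : ℤ) ∣ x' := by
      intro h
      exact hx ((dvd_add_left hpz).1 h)
    have hu : IsUnit ((x : ℤ) : ZMod (p ^ ν)) := Pool.Agent.Y779.R3.unit_int hp hx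
    have hu' : IsUnit ((x' : ℤ) : ZMod (p ^ ν)) := Pool.Agent.Y779.R3.unit_int hp hx2
    have hn1 : ∀ y : ℤ, IsUnit ((y : ℤ) : ZMod (p ^ ν)) →
        χ ((y : ℤ) : ZMod (p ^ ν)) * (starRingEnd ℂ) (χ ((y : ℤ) : ZMod (p ^ ν))) = 1 := by
      intro y hy
      have h1 : ‖χ ((y : ℤ) : ZMod (p ^ ν))‖ = 1 := by
        have := DirichletCharacter.unit_norm_eq_one χ hy.unit
        rwa [IsUnit.unit_spec] at this
      rw [Complex.mul_conj', h1]
      norm_num
    have hcross : χ ((x + P : ℤ) : ZMod (p ^ ν)) * χ ((x' : ℤ) : ZMod (p ^ ν)) =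
        χ ((x' + P : ℤ) : ZMod (p ^ ν)) * χ ((x : ℤ) : ZMod (p ^ ν)) := by
      rw [← map_mul, ← map_mul]
      congr 1
      rw [← sub_eq_zero, ← Int.cast_mul, ← Int.cast_mul, ← Int.cast_sub,
        ZMod.intCast_zmod_eq_zero_iff_dvd]
      have e1 : (x + P) * x' - (x' + P) * x = (p : ℤ) ^ (c + ρ) * (z * k) := by
        rw [hP, hx', pow_add]
        ring
      rw [e1]
      push_cast
      exact Dvd.dvd.mul_right (pow_dvd_pow _ hcρ) _
    have h3 := hn1 x hu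
    have h4 := hn1 x' hu'
    linear_combination (-(starRingEnd ℂ) (χ ((x : ℤ) : ZMod (p ^ ν))) *
      (starRingEnd ℂ) (χ ((x' : ℤ) : ZMod (p ^ ν)))) * hcross +
      (χ ((x' + P : ℤ) : ZMod (p ^ ν)) * (starRingEnd ℂ) (χ ((x' : ℤ) : ZMod (p ^ ν)))) * (-h3) +
      (χ ((x + P : ℤ) : ZMod (p ^ ν)) * (starRingEnd ℂ) (χ ((x : ℤ) : ZMod (p ^ ν)))) * h4

/-- the data of an active coordinate -/
lemma act_data (hklo : S_KLO) (hPhi : S_PHI) {p ν m : ℕ} (hp : p.Prime) (hp2 : p ≠ 2)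
    (hm : 1 ≤ m) (h2m : 2 * m < ν) (h5m : ν ≤ 5 * m + 1) {χ : DirichletCharacter ℂ (p ^ ν)}
    (hχ : χ.IsPrimitive) {l : ℤ} (hl : ¬ (p : ℤ) ∣ l) :
    (∀ a k : ℤ, FF χ ((p : ℤ) ^ m * l) (a + (p ^ (ν - m) : ℕ) * k) = FF χ ((p : ℤ) ^ m * l) a) ∧
    (∀ x, ‖FH (p ^ (ν - m)) (FF χ ((p : ℤ) ^ m * l)) x‖ ≤ 2 * (p : ℝ) ^ ((ν - m + 1) / 2)) ∧
    FH (p ^ (ν - m)) (FF χ ((p : ℤ) ^ m * l)) 0 = 0 := by
  have : NeZero (p ^ (ν - m)) := ⟨pow_ne_zero _ hp.ne_zero⟩
  obtain ⟨hper, Ψ, A, L', d, hΨ1, hΨ2, hA', hL', hFH⟩ :=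
    Pool.Agent.Y766.R3.get_data hPhi (u := ν - 3 * m) hp hp2 hm (by omega) (by omega) (by omega) hχ hl
  obtain ⟨k1, k2, -⟩ := hklo p (ν - m) (ν - 3 * m) hp hp2 (by omega) (by omega) Ψ hΨ1 hΨ2 A L' hA' hL'
  refine ⟨hper, fun j => ?_, ?_⟩
  · rw [hFH, norm_mul, KF.norm_e, one_mul]
    exact k1 j
  · rw [hFH, k2 0 (dvd_zero _), mul_zero]

/-! ### the types of shifts -/

lemma type_exists {p a c : ℕ} (hac : a ≤ c) (z : ℤ) : ∃ m y, a ≤ m ∧ m ≤ c ∧
    z = (p : ℤ) ^ (m - a) * y ∧ (m < c → ¬ (p : ℤ) ∣ y) := by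
  by_cases h : (p : ℤ) ^ (c - a) ∣ z
  · obtain ⟨y, hy⟩ := h
    exact ⟨c, y, hac, le_rfl, hy, fun h => absurd h (lt_irrefl _)⟩
  · have hex : ∃ j, ¬ (p : ℤ) ^ j ∣ z := ⟨c - a, h⟩
    classical
    set j := Nat.find hex with hj
    have hj1 : ¬ (p : ℤ) ^ j ∣ z := Nat.find_spec hex
    have hj2 : ∀ i < j, (p : ℤ) ^ i ∣ z := fun i hi => by
      have := Nat.find_min hex hi
      exact not_not.1 this
    have hjc : j ≤ c - a := Nat.find_min' hex h
    have hj0 : 0 < j := by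
      by_contra h0
      have h1 : j = 0 := by omega
      rw [h1, pow_zero] at hj1
      exact hj1 (one_dvd _)
    obtain ⟨y, hy⟩ := hj2 (j - 1) (by omega)
    refine ⟨a + (j - 1), y, by omega, by omega, ?_, fun _ hd => hj1 ?_⟩
    · rw [Nat.add_sub_cancel_left]
      exact hy
    · obtain ⟨w, rfl⟩ := hd
      refine ⟨w, ?_⟩
      rw [hy]
      have : (p : ℤ) ^ j = (p : ℤ) ^ (j - 1) * p := by rw [← pow_succ]; congr 1; omega
      rw [this]
      ring

open Classical in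
/-- decomposition according to the types of the shifts -/
theorem typesv {p a c : ℕ} (hp : p.Prime) (hac : a ≤ c) (B : Matrix ι ι ℝ) (μ : ℝ)
    (W : (ι → ℤ) → ℝ≥0∞) :
    ∑' z : ι → ℤ, wv B μ (pw p (fun _ => a)) z * W (cz (pw p (fun _ => a)) * z) ≤
      ∑ m ∈ Fintype.piFinset (fun _ : ι => Finset.Icc a c), ∑' y : ι → ℤ,
        ENNReal.ofReal (if (∀ i, m i < c → ¬ (p : ℤ) ∣ y i) ∧ y ≠ 0 then
          gw (B * Dm (ew p m)) μ 0 y else 0) * W (cz (pw p m) * y) := by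
  have hex := fun z : ℤ => type_exists (p := p) hac z
  choose m y h1 h2 h3 h4 using hex
  set T : (ι → ℕ) × (ι → ℤ) → ℝ≥0∞ := fun q =>
    if q.1 ∈ Fintype.piFinset (fun _ : ι => Finset.Icc a c) then
    ENNReal.ofReal (if (∀ i, q.1 i < c → ¬ (p : ℤ) ∣ q.2 i) ∧ q.2 ≠ 0 then
          gw (B * Dm (ew p q.1)) μ 0 q.2 else 0) * W (cz (pw p q.1) * q.2) else 0 with hT
  set F : (ι → ℤ) → (ι → ℕ) × (ι → ℤ) := fun z => (fun i => m (z i), fun i => y (z i)) with hF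
  have hFz : ∀ z : ι → ℤ, z = cz (pw p (fun i => m (z i) - a)) * (fun i => y (z i)) := by
    intro z
    funext i
    rw [Pi.mul_apply, cz_pw_apply]
    exact h3 (z i)
  have hinj : Function.Injective F := by
    intro z z' h
    have e1 : (fun i => m (z i)) = fun i => m (z' i) := (Prod.mk.inj h).1
    have e2 : (fun i => y (z i)) = fun i => y (z' i) := (Prod.mk.inj h).2
    rw [hFz z, hFz z', e2]
    congr 3
    funext i
    rw [congrFun e1 i]
  have hterm : ∀ z : ι → ℤ, wv B μ (pw p (fun _ => a)) z * W (cz (pw p (fun _ => a)) * z) ≤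
      T (F z) := by
    intro z
    unfold wv
    by_cases hz : z = 0
    · rw [if_pos hz, zero_mul]
      exact zero_le
    · rw [if_neg hz]
      have hmem : (F z).1 ∈ Fintype.piFinset (fun _ : ι => Finset.Icc a c) := by
        rw [Fintype.mem_piFinset]
        intro i
        rw [Finset.mem_Icc]
        exact ⟨h1 _, h2 _⟩
      have hcz : cz (pw p (fun _ => a)) * z = cz (pw p (F z).1) * (F z).2 := by
        funext i
        rw [Pi.mul_apply, Pi.mul_apply, cz_pw_apply, cz_pw_apply]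
        simp only [hF]
        conv_lhs => rw [h3 (z i)]
        rw [← mul_assoc, ← pow_add, Nat.add_sub_cancel' (h1 _)]
      have hne : (F z).2 ≠ 0 := by
        intro h0
        apply hz
        rw [hFz z]
        have : (fun i => y (z i)) = 0 := h0
        rw [this, mul_zero]
      simp only [hT]
      rw [if_pos hmem, if_pos ⟨fun i hi => h4 (z i) hi, hne⟩, hcz, gw_dv, rc_cz_pw]
  calc _ ≤ ∑' z, T (F z) := ENNReal.tsum_le_tsum hterm
    _ ≤ ∑' q, T q := ENNReal.tsum_comp_le_tsum_of_injective hinj T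
    _ = ∑' m, ∑' y, T (m, y) := ENNReal.tsum_prod'
    _ = ∑ m ∈ Fintype.piFinset (fun _ : ι => Finset.Icc a c), ∑' y, T (m, y) := by
        refine tsum_eq_sum fun m hm => ?_
        simp only [hT]
        rw [ENNReal.tsum_eq_zero]
        intro y
        rw [if_neg hm]
    _ = _ := by
        refine Finset.sum_congr rfl fun m hm => tsum_congr fun y => ?_
        simp only [hT]
        rw [if_pos hm]

end Pool.Agent.J4H31.V
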